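import Pool.Agent.Work.MP_44611a_co.Law

set_option autoImplicit false
set_option linter.all false

/-! Finite codes of points relative to a grid. -/

namespace Pool.Agent.Work.MP_44611a_co

open Filter Topology MeasureTheory

/-- the product measure of a set given by codes -/
lemma pi_code {X : Type} [MeasurableSpace X] (ν : Measure X) [IsProbabilityMeasure ν] {F : Type}
    [Finite F] [MeasurableSpace F] [MeasurableSingletonClass F] (G : X → F) (hG : Measurable G)
    {p : ℕ} (Φ : Set (Fin p → F)) (s : Finset (Fin p → F)) (hs : ∀ g, g ∈ s ↔ g ∈ Φ) :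
    ((Measure.pi (fun _ : Fin p => ν)) {v | (fun a => G (v a)) ∈ Φ}).toReal =
      ∑ g ∈ s, ∏ a, (ν (G ⁻¹' {g a})).toReal := by
  have h1 : {v : Fin p → X | (fun a => G (v a)) ∈ Φ} =
      ⋃ g ∈ s, Set.univ.pi (fun a => G ⁻¹' {g a}) := by
    ext v
    simp only [Set.mem_iUnion, Set.mem_pi, Set.mem_univ, forall_true_left, Set.mem_preimage,
      Set.mem_singleton_iff]
    constructor
    · intro h
      exact ⟨fun a => G (v a), (hs _).mpr h, fun a => rfl⟩
    · rintro ⟨g, hg, h⟩
      have : (fun a => G (v a)) = g := funext h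
      change (fun a => G (v a)) ∈ Φ
      rw [this]
      exact (hs g).mp hg
  rw [h1, measure_biUnion_finset]
  · rw [ENNReal.toReal_sum (fun g _ => measure_ne_top _ _)]
    apply Finset.sum_congr rfl
    intro g _
    rw [Measure.pi_pi, ENNReal.toReal_prod]
  · intro g _ g' _ hgg
    rw [Function.onFun, Set.disjoint_left]
    intro v hv hv'
    apply hgg
    funext a
    have h2 := hv a (Set.mem_univ a)
    have h3 := hv' a (Set.mem_univ a)
    simp only [Set.mem_preimage, Set.mem_singleton_iff] at h2 h3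
    exact h2.symm.trans h3
  · intro g _
    exact MeasurableSet.univ_pi fun a => hG (measurableSet_singleton _)

/-- codes -/
abbrev GC (k j : ℕ) : Type :=
  (Fin (j + 1) → Bool) × (Fin (j + 1) → Bool) × Bool × (Fin (j + 1) → T k) × (Fin (j + 1) → T k)

/-- codes of points -/
noncomputable def gcode {E : Type} [LinearOrder E] [BoundedOrder E] (S : TS E) (k : ℕ) {j : ℕ}
    (c : Fin (j + 1) → E) (x : Pt E) : GC k j :=
  (fun i => decide (c i < x.1), fun i => decide (x.1 < c i), S.col x.1,
    fun i => if c i < x.1 then S.tau k (c i) x.1 else 1,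
    fun i => if x.1 < c i then S.tau k x.1 (c i) else 1)

/-- separated codes -/
def sepC {k j : ℕ} (g g' : GC k j) : Prop :=
  (∃ i, g.2.1 i = true ∧ g'.1 i = true) ∨ (∃ i, g'.2.1 i = true ∧ g.1 i = true)

section det

variable {E E' : Type} [LinearOrder E] [BoundedOrder E] [LinearOrder E'] [BoundedOrder E']
  {S : TS E} {S' : TS E'} {k j : ℕ} {c : Fin (j + 1) → E} {c' : Fin (j + 1) → E'}

lemma gcode_facts {x : Pt E} {x' : Pt E'} (h : gcode S k c x = gcode S' k c' x') :
    (∀ i, c i < x.1 ↔ c' i < x'.1) ∧ (∀ i, x.1 < c i ↔ x'.1 < c' i) ∧ S.col x.1 = S'.col x'.1 ∧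
    (∀ i, c i < x.1 → S.tau k (c i) x.1 = S'.tau k (c' i) x'.1) ∧
    (∀ i, x.1 < c i → S.tau k x.1 (c i) = S'.tau k x'.1 (c' i)) := by
  simp only [gcode, Prod.mk.injEq] at h
  obtain ⟨h1, h2, h3, h4, h5⟩ := h
  have e1 : ∀ i, c i < x.1 ↔ c' i < x'.1 := fun i => by
    have := congrFun h1 i
    simpa using this
  have e2 : ∀ i, x.1 < c i ↔ x'.1 < c' i := fun i => by
    have := congrFun h2 i
    simpa using this
  refine ⟨e1, e2, h3, fun i hi => ?_, fun i hi => ?_⟩
  · have := congrFun h4 i
    rw [if_pos hi, if_pos ((e1 i).mp hi)] at this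
    exact this
  · have := congrFun h5 i
    rw [if_pos hi, if_pos ((e2 i).mp hi)] at this
    exact this

lemma sepC_iff {x y : Pt E} : sepC (gcode S k c x) (gcode S k c y) ↔
    (∃ i, x.1 < c i ∧ c i < y.1) ∨ (∃ i, y.1 < c i ∧ c i < x.1) := by
  simp [sepC, gcode]

lemma sim_of_code (h0 : c 0 = ⊥) (h1 : c (Fin.last j) = ⊤) (h0' : c' 0 = ⊥)
    (h1' : c' (Fin.last j) = ⊤) (hc : TS.Sim S S' k c c') {p : ℕ} (v : Fin p → Pt E)
    (v' : Fin p → Pt E') (hcode : ∀ a, gcode S k c (v a) = gcode S' k c' (v' a))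
    (hsep : ∀ a b, a ≠ b → sepC (gcode S k c (v a)) (gcode S k c (v b))) :
    TS.Sim S S' k (extT v (default : Fin 0 → Pt E)) (extT v' (default : Fin 0 → Pt E')) := by
  -- every entry is a grid point or a point of the tuple
  let F : Bool ⊕ (Fin p ⊕ Fin 0) → (Fin (j + 1)) ⊕ Fin p := fun s =>
    match s with
    | .inl b => .inl (if b then Fin.last j else 0)
    | .inr (.inl a) => .inr a
    | .inr (.inr i) => Fin.elim0 i
  have hF : extT v (default : Fin 0 → Pt E) = (Sum.elim c (fun a => (v a).1)) ∘ F := by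
    funext s
    rcases s with b | a | i
    · cases b
      · simp [extT, F, h0]
      · simp [extT, F, h1]
    · rfl
    · exact Fin.elim0 i
  have hF' : extT v' (default : Fin 0 → Pt E') = (Sum.elim c' (fun a => (v' a).1)) ∘ F := by
    funext s
    rcases s with b | a | i
    · cases b
      · simp [extT, F, h0']
      · simp [extT, F, h1']
    · rfl
    · exact Fin.elim0 i
  rw [hF, hF']
  apply TS.Sim.comp
  have hfa := fun a => gcode_facts (hcode a)
  refine ⟨?_, ?_, ?_⟩
  · intro s t
    rcases s with i | a <;> rcases t with i' | b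
    · exact hc.1 i i'
    · exact (hfa b).1 i
    · exact (hfa a).2.1 i'
    · change (v a).1 < (v b).1 ↔ (v' a).1 < (v' b).1
      by_cases hab : a = b
      · subst hab; simp
      · rcases sepC_iff.mp (hsep a b hab) with ⟨i, g1, g2⟩ | ⟨i, g1, g2⟩
        · exact ⟨fun _ => (((hfa a).2.1 i).mp g1).trans (((hfa b).1 i).mp g2),
            fun _ => g1.trans g2⟩
        · constructor
          · intro h
            exact absurd h (not_lt.mpr (g1.trans g2).le)
          · intro h
            exact absurd h (not_lt.mpr ((((hfa b).2.1 i).mp g1).trans (((hfa a).1 i).mp g2)).le)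
  · intro s
    rcases s with i | a
    · exact hc.2.1 i
    · exact (hfa a).2.2.1
  · intro s t hst
    rcases s with i | a <;> rcases t with i' | b
    · exact hc.2.2 i i' hst
    · exact (hfa b).2.2.2.1 i hst
    · exact (hfa a).2.2.2.2 i' hst
    · change S.tau k (v a).1 (v b).1 = S'.tau k (v' a).1 (v' b).1
      have hst' : (v a).1 < (v b).1 := hst
      have hab : a ≠ b := by rintro rfl; exact lt_irrefl _ hst'
      rcases sepC_iff.mp (hsep a b hab) with ⟨i, g1, g2⟩ | ⟨i, g1, g2⟩
      · rw [S.T1 k _ _ _ g1 g2, S'.T1 k _ _ _ (((hfa a).2.1 i).mp g1) (((hfa b).1 i).mp g2),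
          (hfa a).2.2.2.2 i g1, (hfa b).2.2.2.1 i g2, hc.2.1 i]
      · exact absurd hst' (not_lt.mpr (g1.trans g2).le)

end det

/-- grid rationals -/
def gq (j : ℕ) (i : Fin (j + 1)) : ℚ := (i.1 : ℚ) / j

lemma gq_nonneg (j : ℕ) (i : Fin (j + 1)) : 0 ≤ gq j i := by unfold gq; positivity

lemma gq_le_one (j : ℕ) (hj : 0 < j) (i : Fin (j + 1)) : gq j i ≤ 1 := by
  unfold gq
  rw [div_le_one (by exact_mod_cast hj)]
  exact_mod_cast Nat.lt_succ_iff.mp i.2

lemma gq_zero (j : ℕ) : gq j 0 = 0 := by simp [gq]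

lemma gq_last (j : ℕ) (hj : 0 < j) : gq j (Fin.last j) = 1 := by
  unfold gq
  simp only [Fin.val_last]
  exact div_self (by exact_mod_cast hj.ne')

open Classical in
/-- codes of data -/
noncomputable def gcD (k j : ℕ) (D : Dt) : GC k j :=
  (fun i => decide (ltD D (.rat (gq j i)) .var), fun i => decide (ltD D .var (.rat (gq j i))),
    colD D .var,
    fun i => if ltD D (.rat (gq j i)) .var then tauD D k (.rat (gq j i)) .var else 1,
    fun i => if ltD D .var (.rat (gq j i)) then tauD D k .var (.rat (gq j i)) else 1)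

lemma tauD_congr_D {D D' : Dt} {k : ℕ} {u v : Nm}
    (h : ∀ s : T k, D (.inl (u, v, ⟨k, s⟩)) = D' (.inl (u, v, ⟨k, s⟩))) :
    tauD D k u v = tauD D' k u v := by
  have h' : (fun s : T k => D (.inl (u, v, ⟨k, s⟩))) = fun s => D' (.inl (u, v, ⟨k, s⟩)) :=
    funext h
  classical
  have key : ∀ f g : T k → Bool, f = g →
      (if h : ∃ s : T k, f s = true then Classical.choose h else 1) =
      (if h : ∃ s : T k, g s = true then Classical.choose h else 1) := by
    rintro f g rfl; rfl
  exact key _ _ h'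

lemma isClopen_lt_eq (u v : Nm) (b : Bool) :
    IsClopen {D : Dt | @decide (ltD D u v) (Classical.propDecidable _) = b} := by
  apply isClopen_of_dep {(.inl (u, v, ⟨0, 1⟩) : At)}
  intro D D' h hD
  have : ltD D u v ↔ ltD D' u v := by unfold ltD; rw [h _ (by simp)]
  rw [← hD]
  exact (decide_eq_decide.mpr this).symm

open Classical in
lemma isClopen_tau_eq (k : ℕ) (u v : Nm) (t : T k) :
    IsClopen {D : Dt | (if ltD D u v then tauD D k u v else 1) = t} := by
  have : Fintype (T k) := Fintype.ofFinite _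
  apply isClopen_of_dep ({(.inl (u, v, ⟨0, 1⟩) : At)} ∪
    (Finset.univ.image (fun s : T k => (.inl (u, v, ⟨k, s⟩) : At))))
  intro D D' h hD
  have h1 : ltD D u v ↔ ltD D' u v := by unfold ltD; rw [h _ (by simp)]
  have h2 : tauD D k u v = tauD D' k u v := tauD_congr_D (fun s => h _ (by simp))
  rw [← hD, h2]
  by_cases hc : ltD D u v
  · rw [if_pos hc, if_pos (h1.mp hc)]
  · rw [if_neg hc, if_neg (fun h => hc (h1.mpr h))]

lemma isClopen_gcD (k j : ℕ) (g : GC k j) : IsClopen (gcD k j ⁻¹' {g}) := by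
  classical
  have : gcD k j ⁻¹' {g} =
      (⋂ i, {D : Dt | @decide (ltD D (.rat (gq j i)) .var) (Classical.propDecidable _) = g.1 i}) ∩
      ((⋂ i, {D : Dt | @decide (ltD D .var (.rat (gq j i))) (Classical.propDecidable _) = g.2.1 i}) ∩
      ({D : Dt | colD D .var = g.2.2.1} ∩
      ((⋂ i, {D : Dt | (if ltD D (.rat (gq j i)) .var then tauD D k (.rat (gq j i)) .var else 1) =
        g.2.2.2.1 i}) ∩
      (⋂ i, {D : Dt | (if ltD D .var (.rat (gq j i)) then tauD D k .var (.rat (gq j i)) else 1) =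
        g.2.2.2.2 i})))) := by
    ext D
    obtain ⟨g1, g2, g3, g4, g5⟩ := g
    simp only [Set.mem_preimage, Set.mem_singleton_iff, gcD, Prod.mk.injEq, funext_iff,
      Set.mem_inter_iff, Set.mem_iInter]
    rfl
  rw [this]
  refine (isClopen_iInter_of_finite fun i => isClopen_lt_eq _ _ _).inter
    ((isClopen_iInter_of_finite fun i => isClopen_lt_eq _ _ _).inter (IsClopen.inter ?_
    ((isClopen_iInter_of_finite fun i => isClopen_tau_eq _ _ _ _).inter
    (isClopen_iInter_of_finite fun i => isClopen_tau_eq _ _ _ _))))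
  apply isClopen_of_dep {(.inr .var : At)}
  intro D D' h hD
  rw [← hD]
  exact (h _ (by simp)).symm

/-- finite side: the grid -/
noncomputable def gridW (w : List Bool) (j : ℕ) (i : Fin (j + 1)) : Fin (w.length + 2) :=
  ⟨ratPos w.length (gq j i), by
    have : ratPos w.length (gq j i) ≤ w.length + 1 := min_le_right _ _
    omega⟩

lemma ratPos_zero (N : ℕ) : ratPos N 0 = 0 := by simp [ratPos]

lemma ratPos_one (N : ℕ) : ratPos N 1 = N + 1 := by
  unfold ratPos
  have : ⌊(1 : ℚ) * ((N : ℚ) + 1)⌋₊ = N + 1 := by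
    rw [one_mul]
    have h : ((N : ℚ) + 1) = ((N + 1 : ℕ) : ℚ) := by push_cast; ring
    rw [h, Nat.floor_natCast]
  rw [this, min_self]

lemma gridW_zero (w : List Bool) (j : ℕ) : gridW w j 0 = ⊥ := by
  apply Fin.ext
  change ratPos w.length (gq j 0) = 0
  rw [gq_zero, ratPos_zero]

lemma gridW_last (w : List Bool) (j : ℕ) (hj : 0 < j) : gridW w j (Fin.last j) = ⊤ := by
  apply Fin.ext
  change ratPos w.length (gq j (Fin.last j)) = w.length + 1
  rw [gq_last j hj, ratPos_one]

lemma ltD_dat (w : List Bool) (x : ℕ) (u v : Nm) : ltD (dat w x) u v ↔ ev w x u < ev w x v := by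
  unfold ltD
  simp only [dat, decide_eq_true_eq, and_iff_left_iff_imp]
  intro _
  exact Subsingleton.elim _ _

lemma dat_inl_iff (w : List Bool) (x : ℕ) (u v : Nm) (s : Σ k : ℕ, T k) :
    dat w x (.inl (u, v, s)) = true ↔
      (ev w x u < ev w x v ∧ tauW w s.1 (ev w x u) (ev w x v) = s.2) := by
  simp only [dat, decide_eq_true_eq]

lemma tauD_dat (w : List Bool) (x : ℕ) (k : ℕ) {u v : Nm} (h : ev w x u < ev w x v) :
    tauD (dat w x) k u v = tauW w k (ev w x u) (ev w x v) := by
  have hex : ∃ t : T k, dat w x (.inl (u, v, ⟨k, t⟩)) = true := by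
    refine ⟨tauW w k (ev w x u) (ev w x v), ?_⟩
    simp only [dat, decide_eq_true_eq, and_true]
    exact h
  have hch := (dat_inl_iff _ _ _ _ _).mp (Classical.choose_spec hex)
  unfold tauD
  rw [dif_pos hex]
  exact hch.2.symm

lemma gcode_finite (w : List Bool) (k j : ℕ) (x : Pt (Fin (w.length + 2))) :
    gcode (TSw w) k (gridW w j) x = gcD k j (dat w x.1.1) := by
  have e1 : ∀ i, gridW w j i < x.1 ↔ ltD (dat w x.1.1) (.rat (gq j i)) .var := fun i => by
    rw [ltD_dat]; rfl
  have e2 : ∀ i, x.1 < gridW w j i ↔ ltD (dat w x.1.1) .var (.rat (gq j i)) := fun i => by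
    rw [ltD_dat]; rfl
  unfold gcode gcD
  classical
  refine Prod.ext ?_ (Prod.ext ?_ (Prod.ext ?_ (Prod.ext ?_ ?_)))
  · funext i
    exact decide_eq_decide.mpr (e1 i)
  · funext i
    exact decide_eq_decide.mpr (e2 i)
  · rfl
  · funext i
    by_cases h : gridW w j i < x.1
    · change (if gridW w j i < x.1 then _ else _) = (if _ then _ else _)
      rw [if_pos h, if_pos ((e1 i).mp h), tauD_dat _ _ _ ((ltD_dat _ _ _ _).mp ((e1 i).mp h))]
      rfl
    · change (if gridW w j i < x.1 then _ else _) = (if _ then _ else _)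
      rw [if_neg h, if_neg (fun h' => h ((e1 i).mpr h'))]
  · funext i
    by_cases h : x.1 < gridW w j i
    · change (if x.1 < gridW w j i then _ else _) = (if _ then _ else _)
      rw [if_pos h, if_pos ((e2 i).mp h), tauD_dat _ _ _ ((ltD_dat _ _ _ _).mp ((e2 i).mp h))]
      rfl
    · change (if x.1 < gridW w j i then _ else _) = (if _ then _ else _)
      rw [if_neg h, if_neg (fun h' => h ((e2 i).mpr h'))]

end Pool.Agent.Work.MP_44611a_co
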