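import Pool.Agent.Work.MP_44611a_co.Split2

set_option autoImplicit false
set_option linter.all false

/-! Pre-elements of the limit structure: order and types. -/

namespace Pool.Agent.Work.MP_44611a_co

open Filter Topology

instance : MeasurableSpace Nm := ⊤
instance : DiscreteMeasurableSpace Nm := ⟨fun _ => trivial⟩

/-- raw elements -/
abbrev Raw : Type := Dt × ℕ × ℚ × Nm

/-- an injection of the data into the reals -/
noncomputable def embD : Dt → ℝ := Classical.choose (MeasureTheory.exists_measurableEmbedding_real Dt)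

lemma embD_spec : MeasurableEmbedding embD :=
  Classical.choose_spec (MeasureTheory.exists_measurableEmbedding_real Dt)

/-- position of a chain -/
noncomputable def zz (m : ℕ) (q : ℚ) : ℝ := (q : ℝ) + m * √2

lemma zz_inj {m m' : ℕ} {q q' : ℚ} (h : zz m q = zz m' q') : m = m' ∧ q = q' := by
  unfold zz at h
  have hm : m = m' := by
    by_contra hne
    have hne' : ((m : ℚ) - m') ≠ 0 := sub_ne_zero.mpr (by exact_mod_cast hne)
    have h2 : √2 = (((q' - q) / ((m : ℚ) - m') : ℚ) : ℝ) := by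
      have hne'' : ((m : ℝ) - m') ≠ 0 := sub_ne_zero.mpr (by exact_mod_cast hne)
      push_cast
      rw [eq_div_iff hne'']
      linarith
    exact irrational_sqrt_two ⟨_, h2.symm⟩
  subst hm
  refine ⟨rfl, ?_⟩
  have : (q : ℝ) = q' := by linarith
  exact_mod_cast this

namespace Ctx

variable (C : Ctx)

/-- data of a chain -/
noncomputable def ddf (D : Dt) (m : ℕ) : Dt :=
  match m with
  | 0 => D
  | m + 1 => C.W m (rk D .var)

/-- data of the chain of a raw element -/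
noncomputable def dd (p : Raw) : Dt := C.ddf p.1 p.2.1

/-- closed elements -/
def Clo (p : Raw) : Prop := p.1 = C.D0 ∧ p.2.1 = 0 ∧ p.2.2.1 = 0 ∧ Closed p.2.2.2

/-- generic elements -/
def Gn (p : Raw) : Prop := C.Re p.1 ∧ C.Gen (rk p.1 .var) ∧ (p.2.1 = 0 → p.2.2.1 = 0) ∧
  C.Re (C.dd p) ∧ rk (C.dd p) p.2.2.2 = rk p.1 .var

/-- valid elements -/
def Val (p : Raw) : Prop := C.Clo p ∨ C.Gn p

variable {C}

lemma Clo.dd {p : Raw} (h : C.Clo p) : C.dd p = C.D0 := by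
  obtain ⟨D, m, q, u⟩ := p
  obtain ⟨h1, h2, h3, h4⟩ := h
  simp only at h1 h2 h3
  subst h1 h2 h3
  rfl

lemma Val.re {p : Raw} (h : C.Val p) : C.Re (C.dd p) := by
  rcases h with h | h
  · rw [h.dd]; exact C.D0_real
  · exact h.2.2.2.1

variable (C)

/-- valid raw elements -/
abbrev P : Type := {p : Raw // C.Val p}

variable {C}

/-- the local point of an element -/
noncomputable def pt (p : C.P) : Pnt C := ⟨C.dd p.1, p.2.re, p.1.2.2.2⟩

/-- rank -/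
noncomputable def rho (p : Raw) : ℝ := rk (C.dd p) p.2.2.2

lemma pt_r (p : C.P) : (pt p).r = C.rho p.1 := rfl

lemma Gn.gen {p : Raw} (h : C.Gn p) : C.Gen (C.rho p) := by
  unfold rho
  rw [h.2.2.2.2]
  exact h.2.1

lemma Clo.not_gen {p : Raw} (h : C.Clo p) : ¬ C.Gen (C.rho p) := by
  intro hg
  apply hg.2.2.1 p.2.2.2 h.2.2.2
  unfold rho
  rw [h.dd]

lemma clo_of_not_gen {p : C.P} (h : ¬ C.Gen (C.rho p.1)) : C.Clo p.1 := by
  rcases p.2 with h' | h'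
  · exact h'
  · exact absurd h'.gen h

lemma gn_of_gen {p : C.P} (h : C.Gen (C.rho p.1)) : C.Gn p.1 := by
  rcases p.2 with h' | h'
  · exact absurd h h'.not_gen
  · exact h'

/-- the key of an element -/
noncomputable def key (p : Raw) : ℝ ×ₗ ℝ ×ₗ ℝ :=
  toLex (C.rho p, toLex (embD p.1, zz p.2.1 p.2.2.1))

lemma key_lt_iff {p p' : Raw} : C.key p < C.key p' ↔ C.rho p < C.rho p' ∨ (C.rho p = C.rho p' ∧
    (embD p.1 < embD p'.1 ∨ (embD p.1 = embD p'.1 ∧ zz p.2.1 p.2.2.1 < zz p'.2.1 p'.2.2.1))) := by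
  unfold key
  rw [Prod.Lex.toLex_lt_toLex, Prod.Lex.toLex_lt_toLex]

lemma key_eq_iff {p p' : Raw} : C.key p = C.key p' ↔ C.rho p = C.rho p' ∧ p.1 = p'.1 ∧
    p.2.1 = p'.2.1 ∧ p.2.2.1 = p'.2.2.1 := by
  unfold key
  rw [EmbeddingLike.apply_eq_iff_eq, Prod.mk.injEq, EmbeddingLike.apply_eq_iff_eq, Prod.mk.injEq,
    embD_spec.injective.eq_iff]
  constructor
  · rintro ⟨h1, h2, h3⟩
    exact ⟨h1, h2, zz_inj h3⟩
  · rintro ⟨h1, h2, h3, h4⟩
    exact ⟨h1, h2, by rw [h3, h4]⟩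

lemma key_eq_dd {p p' : Raw} (h : C.key p = C.key p') : C.dd p = C.dd p' := by
  rw [key_eq_iff] at h
  unfold dd
  rw [h.2.1, h.2.2.1]

lemma rho_le_of_key {p p' : Raw} (h : C.key p ≤ C.key p') : C.rho p ≤ C.rho p' := by
  rcases h.lt_or_eq with h | h
  · rw [key_lt_iff] at h
    rcases h with h | h
    · exact h.le
    · exact h.1.le
  · rw [key_eq_iff] at h
    exact h.1.le

/-- equal rank and different chains happen only at generic ranks -/
lemma gen_of_key {p p' : C.P} (h : C.rho p.1 = C.rho p'.1) (h' : C.key p.1 ≠ C.key p'.1) :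
    C.Gen (C.rho p.1) := by
  by_contra hg
  have h1 := clo_of_not_gen hg
  have h2 := clo_of_not_gen (p := p') (h ▸ hg)
  apply h'
  rw [key_eq_iff]
  exact ⟨h, h1.1.trans h2.1.symm, h1.2.1.trans h2.2.1.symm, h1.2.2.1.trans h2.2.2.1.symm⟩

/-- the strict order on the elements -/
def lt (p p' : Raw) : Prop :=
  C.key p < C.key p' ∨ (C.key p = C.key p' ∧ ltD (C.dd p) p.2.2.2 p'.2.2.2)

lemma lt_irrefl' (p : C.P) : ¬ C.lt p.1 p.1 := by
  rintro (h | ⟨_, h⟩)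
  · exact absurd h (lt_irrefl _)
  · exact RealD.lt_irrefl p.2.re _ h

lemma lt_trans' {p p' p'' : C.P} (h : C.lt p.1 p'.1) (h' : C.lt p'.1 p''.1) : C.lt p.1 p''.1 := by
  rcases h with h | ⟨h, h1⟩
  · rcases h' with h' | ⟨h', h1'⟩
    · exact Or.inl (h.trans h')
    · exact Or.inl (h'.symm ▸ h)
  · rcases h' with h' | ⟨h', h1'⟩
    · exact Or.inl (h ▸ h')
    · refine Or.inr ⟨h.trans h', RealD.lt_trans p.2.re h1 ?_⟩
      rw [key_eq_dd h]; exact h1'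

lemma lt_tri (p p' : C.P) (h : ¬ C.lt p.1 p'.1) (h' : ¬ C.lt p'.1 p.1) :
    C.key p.1 = C.key p'.1 ∧ eqD (C.dd p.1) p.1.2.2.2 p'.1.2.2.2 := by
  unfold lt at h h'
  push Not at h h'
  have hk : C.key p.1 = C.key p'.1 := le_antisymm h'.1 h.1
  exact ⟨hk, h.2 hk, by rw [key_eq_dd hk]; exact h'.2 hk.symm⟩

/-- the type of the interval between two elements -/
def Ty (k : ℕ) (p p' : C.P) (t : T k) : Prop :=
  (C.rho p.1 < C.rho p'.1 ∧ Pnt.IsC k (pt p) (pt p') t) ∨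
  (C.key p.1 = C.key p'.1 ∧ Pnt.IsS k (pt p) (pt p') t) ∨
  (C.rho p.1 = C.rho p'.1 ∧ C.key p.1 < C.key p'.1 ∧ Pnt.IsB k (pt p) (pt p') t)

lemma Ty.lt {k : ℕ} {p p' : C.P} {t : T k} (h : Ty k p p' t) : C.lt p.1 p'.1 := by
  rcases h with ⟨h, _⟩ | ⟨h, _, h', _⟩ | ⟨_, h, _⟩
  · exact Or.inl (key_lt_iff.mpr (Or.inl h))
  · exact Or.inr ⟨h, h'⟩
  · exact Or.inl h

lemma exists_Ty (k : ℕ) {p p' : C.P} (h : C.lt p.1 p'.1) : ∃ t, Ty k p p' t := by
  rcases h with h | ⟨h, h'⟩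
  · have hle := rho_le_of_key h.le
    rcases hle.lt_or_eq with hlt | heq
    · obtain ⟨t, ht⟩ := Pnt.exists_IsC k (x := pt p) (y := pt p') hlt
      exact ⟨t, Or.inl ⟨hlt, ht⟩⟩
    · have hg := gen_of_key heq h.ne
      obtain ⟨t, ht⟩ := Pnt.exists_IsB k (x := pt p) (y := pt p') hg heq
      exact ⟨t, Or.inr (Or.inr ⟨heq, h, ht⟩)⟩
  · exact ⟨_, Or.inr (Or.inl ⟨h, key_eq_dd h, h', rfl⟩)⟩

lemma Ty.unique {k : ℕ} {p p' : C.P} {t t' : T k} (h : Ty k p p' t) (h' : Ty k p p' t') :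
    t = t' := by
  rcases h with ⟨h1, h2⟩ | ⟨h1, h2⟩ | ⟨h1, h2, h3⟩
  · rcases h' with ⟨g1, g2⟩ | ⟨g1, g2⟩ | ⟨g1, g2, g3⟩
    · exact h2.unique g2
    · exact absurd (key_eq_iff.mp g1).1 h1.ne
    · exact absurd g1 h1.ne
  · rcases h' with ⟨g1, g2⟩ | ⟨g1, g2⟩ | ⟨g1, g2, g3⟩
    · exact absurd (key_eq_iff.mp h1).1 g1.ne
    · rw [h2.2.2, g2.2.2]
    · exact absurd h1 g2.ne
  · rcases h' with ⟨g1, g2⟩ | ⟨g1, g2⟩ | ⟨g1, g2, g3⟩
    · exact absurd h1 g1.ne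
    · exact absurd g1 h2.ne
    · exact Pnt.IsB.unique (x := pt p) (y := pt p') (gen_of_key h1 h2.ne) h1 h3 g3

lemma Ty.pr {k : ℕ} {p p' : C.P} {t : T (k + 1)} (h : Ty (k + 1) p p' t) : Ty k p p' (pr k t) := by
  rcases h with ⟨h1, h2⟩ | ⟨h1, h2⟩ | ⟨h1, h2, h3⟩
  · exact Or.inl ⟨h1, h2.pr⟩
  · exact Or.inr (Or.inl ⟨h1, h2.pr⟩)
  · exact Or.inr (Or.inr ⟨h1, h2, Pnt.IsB.pr (x := pt p) (y := pt p') h1 h3⟩)

lemma Ty.toAR {k : ℕ} {p p' : C.P} {t : T k} (h : Ty k p p' t) : Pnt.AR k (pt p) (pt p') t := by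
  rcases h with ⟨h1, h2⟩ | ⟨h1, h2⟩ | ⟨h1, h2, h3⟩
  · exact h2.toAR
  · exact h2.toAR
  · exact Pnt.IsB.toAR (x := pt p) (y := pt p') (gen_of_key h1 h2.ne) h1 h3

lemma Ty.toAL {k : ℕ} {p p' : C.P} {t : T k} (h : Ty k p p' t) : Pnt.AL k (pt p) (pt p') t := by
  rcases h with ⟨h1, h2⟩ | ⟨h1, h2⟩ | ⟨h1, h2, h3⟩
  · exact h2.toAL
  · exact h2.toAL
  · exact Pnt.IsB.toAL (x := pt p) (y := pt p') (gen_of_key h1 h2.ne) h1 h3

lemma Ty.rho_le {k : ℕ} {p p' : C.P} {t : T k} (h : Ty k p p' t) : C.rho p.1 ≤ C.rho p'.1 := by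
  rcases h with ⟨h1, h2⟩ | ⟨h1, h2⟩ | ⟨h1, h2, h3⟩
  · exact h1.le
  · exact (key_eq_iff.mp h1).1.le
  · exact h1.le

/-- a closed rank is not generic -/
lemma not_gen_rat {q : ℚ} (h0 : 0 ≤ q) (h1 : q ≤ 1) : ¬ C.Gen (q : ℝ) := by
  intro hg
  apply hg.2.2.1 (.rat q) trivial
  exact rk_rat C.D0_real h0 h1

lemma Ty.Rlt {k : ℕ} {p p' : C.P} {t : T k} (h : Ty k p p' t) (q : ℚ) (h0 : 0 ≤ q) (h1 : q ≤ 1)
    (hq : Pnt.Rlt q (pt p)) : Pnt.Rlt q (pt p') := by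
  have hle := hq.r_le h0 h1
  rcases h with ⟨g1, g2⟩ | ⟨g1, g2⟩ | ⟨g1, g2, g3⟩
  · exact (pt p').Rlt_of h0 (lt_of_le_of_lt hle g1)
  · unfold Pnt.Rlt at hq ⊢
    rw [g2.1] at hq
    have := g2.2.1
    rw [g2.1] at this
    exact RealD.lt_trans (pt p').re hq this
  · have hg := gen_of_key g1 g2.ne
    apply (pt p').Rlt_of h0
    change (q : ℝ) < C.rho p'.1
    rw [← g1]
    refine lt_of_le_of_ne hle fun hc => ?_
    change (q : ℝ) = C.rho p.1 at hc
    rw [← hc] at hg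
    exact not_gen_rat h0 h1 hg

lemma Ty.ltR {k : ℕ} {p p' : C.P} {t : T k} (h : Ty k p p' t) (q : ℚ) (h0 : 0 ≤ q) (h1 : q ≤ 1)
    (hq : (pt p').ltR q) : (pt p).ltR q := by
  have hle := hq.r_le h0 h1
  rcases h with ⟨g1, g2⟩ | ⟨g1, g2⟩ | ⟨g1, g2, g3⟩
  · exact (pt p).ltR_of (lt_of_lt_of_le g1 hle) h1
  · unfold Pnt.ltR at hq ⊢
    rw [← g2.1] at hq
    have := g2.2.1
    exact RealD.lt_trans (pt p).re this hq
  · have hg := gen_of_key g1 g2.ne
    apply (pt p).ltR_of _ h1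
    change C.rho p.1 < q
    rw [g1]
    refine lt_of_le_of_ne hle fun hc => ?_
    change C.rho p'.1 = q at hc
    rw [g1, hc] at hg
    exact not_gen_rat h0 h1 hg

lemma Ty.trans {k : ℕ} {p w p' : C.P} {t1 t2 : T k} (h1 : Ty k p w t1) (h2 : Ty k w p' t2) :
    Ty k p p' (t1 * cls k [(pt w).c] * t2) := by
  have r1 := h1.rho_le
  have r2 := h2.rho_le
  have hAR := h1.toAR
  have hAL := h2.toAL
  rcases h1 with ⟨g1, g2⟩ | h1'
  · exact Or.inl ⟨lt_of_lt_of_le g1 r2, g2.comp_left hAL h2.Rlt⟩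
  · rcases h2 with ⟨f1, f2⟩ | h2'
    · exact Or.inl ⟨lt_of_le_of_lt r1 f1, Pnt.IsC.comp_right hAR f2 (Ty.ltR (Or.inr h1'))⟩
    · have e1 : C.rho p.1 = C.rho w.1 := by
        rcases h1' with ⟨g1, g2⟩ | ⟨g1, g2, g3⟩
        · exact (key_eq_iff.mp g1).1
        · exact g1
      have e2 : C.rho w.1 = C.rho p'.1 := by
        rcases h2' with ⟨g1, g2⟩ | ⟨g1, g2, g3⟩
        · exact (key_eq_iff.mp g1).1
        · exact g1
      rcases h1' with ⟨g1, g2⟩ | ⟨g1, g2, g3⟩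
      · rcases h2' with ⟨f1, f2⟩ | ⟨f1, f2, f3⟩
        · exact Or.inr (Or.inl ⟨g1.trans f1, g2.trans f2⟩)
        · have hg : C.Gen (C.rho w.1) := gen_of_key f1 f2.ne
          exact Or.inr (Or.inr ⟨e1.trans e2, g1 ▸ f2,
            Pnt.IsB.comp_right (show C.Gen (pt p).r by
              change C.Gen (C.rho p.1); rw [e1]; exact hg) e1 e2 hAR f3⟩)
      · have hg : C.Gen (C.rho p.1) := gen_of_key g1 g2.ne
        have hk : C.key w.1 ≤ C.key p'.1 := by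
          rcases h2' with ⟨f1, f2⟩ | ⟨f1, f2, f3⟩
          · exact f1.le
          · exact f2.le
        exact Or.inr (Or.inr ⟨e1.trans e2, lt_of_lt_of_le g2 hk,
            Pnt.IsB.comp_left hg e1 e2 g3 hAL⟩)

/-- elements separated by a rational -/
lemma Ty_of_IsC {k : ℕ} {p p' : C.P} {t : T k} (h : Pnt.IsC k (pt p) (pt p') t) :
    Ty k p p' t := by
  obtain ⟨q, h0, h1, g1, g2, g3⟩ := h
  have e1 : C.rho p.1 ≤ q := g1.r_le h0 h1
  have e2 : (q : ℝ) ≤ C.rho p'.1 := g2.r_le h0 h1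
  rcases (e1.trans e2).lt_or_eq with hlt | heq
  · exact Or.inl ⟨hlt, q, h0, h1, g1, g2, g3⟩
  · have e3 : C.rho p.1 = q := le_antisymm e1 (heq ▸ e2)
    have hn : ¬ C.Gen (C.rho p.1) := by rw [e3]; exact not_gen_rat h0 h1
    have c1 := clo_of_not_gen hn
    have c2 := clo_of_not_gen (p := p') (heq ▸ hn)
    have hD1 : (pt p).D = C.D0 := c1.dd
    have hD2 : (pt p').D = C.D0 := c2.dd
    have hk : C.key p.1 = C.key p'.1 := by
      rw [key_eq_iff]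
      exact ⟨heq, c1.1.trans c2.1.symm, c1.2.1.trans c2.2.1.symm, c1.2.2.1.trans c2.2.2.1.symm⟩
    refine Or.inr (Or.inl ⟨hk, hD1.trans hD2.symm, ?_, ?_⟩)
    · unfold Pnt.ltR at g1
      unfold Pnt.Rlt at g2
      rw [hD1] at g1 ⊢
      rw [hD2] at g2
      exact RealD.lt_trans C.D0_real g1 g2
    · rw [g3]
      unfold Pnt.R Pnt.Lf
      unfold Pnt.ltR at g1
      unfold Pnt.Rlt at g2
      rw [hD1] at g1 ⊢
      rw [hD2] at g2 ⊢
      rw [RealD.T1 C.D0_real k g1 g2]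
      rfl

variable (C) in
/-- closed elements from closed names -/
noncomputable def clP (u : Nm) (hu : Closed u) : C.P := ⟨(C.D0, 0, 0, u), Or.inl ⟨rfl, rfl, rfl, hu⟩⟩

lemma pt_clP {u : Nm} (hu : Closed u) : pt (C.clP u hu) = ⟨C.D0, C.D0_real, u⟩ := rfl

/-- a rational as right end point -/
lemma Ty_rat_right (k : ℕ) (p : C.P) {q : ℚ} (h0 : 0 ≤ q) (h1 : q ≤ 1) (hq : (pt p).ltR q) :
    Ty k p (C.clP (.rat q) trivial) ((pt p).R k q) := by
  have e1 : C.rho p.1 ≤ q := hq.r_le h0 h1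
  have hr : C.rho (C.clP (.rat q) trivial).1 = q := rk_rat C.D0_real h0 h1
  rcases e1.lt_or_eq with hlt | heq
  · obtain ⟨q', g1, g2⟩ := exists_rat_btwn hlt
    have g2' : q' < q := by exact_mod_cast g2
    have q0 : 0 ≤ q' := (pt p).q_nonneg g1
    refine Or.inl ⟨by rw [hr]; exact hlt, q', q0, g2'.le.trans h1,
      (pt p).ltR_of g1 (g2'.le.trans h1), rat_lt C.D0_real q0 g2' h1, ?_⟩
    rw [(pt p).R_split k g1 g2' h1]
    rfl
  · have hn : ¬ C.Gen (C.rho p.1) := by rw [heq]; exact not_gen_rat h0 h1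
    have c1 := clo_of_not_gen hn
    have hk : C.key p.1 = C.key (C.clP (.rat q) trivial).1 := by
      rw [key_eq_iff]
      exact ⟨heq.trans hr.symm, c1.1, c1.2.1, c1.2.2.1⟩
    exact Or.inr (Or.inl ⟨hk, c1.dd, hq, rfl⟩)

lemma Ty_rat_left (k : ℕ) (p : C.P) {q : ℚ} (h0 : 0 ≤ q) (h1 : q ≤ 1) (hq : Pnt.Rlt q (pt p)) :
    Ty k (C.clP (.rat q) trivial) p ((pt p).Lf k q) := by
  have e1 : (q : ℝ) ≤ C.rho p.1 := hq.r_le h0 h1
  have hr : C.rho (C.clP (.rat q) trivial).1 = q := rk_rat C.D0_real h0 h1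
  rcases e1.lt_or_eq with hlt | heq
  · obtain ⟨q', g1, g2⟩ := exists_rat_btwn hlt
    have g1' : q < q' := by exact_mod_cast g1
    have q1 : q' ≤ 1 := (pt p).q_le_one g2
    have q0 : 0 ≤ q' := h0.trans g1'.le
    refine Or.inl ⟨by rw [hr]; exact hlt, q', q0, q1, rat_lt C.D0_real h0 g1' q1,
      (pt p).Rlt_of q0 g2, ?_⟩
    rw [(pt p).L_split k h0 g1' g2]
    rfl
  · have hn : ¬ C.Gen (C.rho p.1) := by rw [← heq]; exact not_gen_rat h0 h1
    have c1 := clo_of_not_gen hn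
    have hk : C.key (C.clP (.rat q) trivial).1 = C.key p.1 := by
      rw [key_eq_iff]
      exact ⟨hr.trans heq, c1.1.symm, c1.2.1.symm, c1.2.2.1.symm⟩
    have hD : (pt p).D = C.D0 := c1.dd
    refine Or.inr (Or.inl ⟨hk, hD.symm, ?_, ?_⟩)
    · unfold Pnt.Rlt at hq
      rw [hD] at hq
      exact hq
    · unfold Pnt.Lf
      rw [hD]
      rfl

/-- another name in the same chain and of the same rank -/
lemma exists_chain (p : C.P) (v : Nm) (hr : rk (C.dd p.1) v = C.rho p.1)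
    (hv : Closed p.1.2.2.2 → Closed v) : ∃ w : C.P, C.key w.1 = C.key p.1 ∧
      pt w = ⟨C.dd p.1, p.2.re, v⟩ := by
  have hV : C.Val (p.1.1, p.1.2.1, p.1.2.2.1, v) := by
    rcases p.2 with h | h
    · exact Or.inl ⟨h.1, h.2.1, h.2.2.1, hv h.2.2.2⟩
    · refine Or.inr ⟨h.1, h.2.1, h.2.2.1, h.2.2.2.1, ?_⟩
      have := h.2.2.2.2
      change rk (C.dd p.1) v = _
      rw [hr]
      exact this
  refine ⟨⟨_, hV⟩, ?_, rfl⟩
  rw [key_eq_iff]
  exact ⟨hr, rfl, rfl, rfl⟩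

/-- realisation of triples -/
theorem Ty.split {k : ℕ} {p p' : C.P} {s : T (k + 1)} (h : Ty (k + 1) p p' s)
    (t : T k × Bool × T k) (ht : t ∈ Tr s) :
    ∃ w : C.P, Ty k p w t.1 ∧ (pt w).c = t.2.1 ∧ Ty k w p' t.2.2 := by
  rcases h with ⟨h1, q, q0, q1, g1, g2, g3⟩ | ⟨h1, h2⟩ | ⟨h1, h2, h3⟩
  · -- separated by a rational
    rw [g3, mem_Tr_mul3] at ht
    rcases ht with ⟨r, hr, rfl⟩ | rfl | ⟨r, hr, rfl⟩
    · obtain ⟨w, hw, hwc, hwq, hwR⟩ := Pnt.step_right (pt p) k q0 q1 g1 r hr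
      have e : r.2.2 * cls k [C.cR q] * Pool.Agent.Work.MP_44611a_co.pr k ((pt p').Lf (k + 1) q) =
          w.R k q * cls k [C.cR q] * (pt p').Lf k q := by
        rw [(pt p').L_T0' k g2, hwR]
      rcases hw with ⟨hw1, hw2, hw3⟩ | ⟨hw1, hw2, hw3⟩
      · obtain ⟨wD, wre, wu⟩ := w
        have hD : C.dd p.1 = wD := hw1.1
        subst hD
        obtain ⟨w', hw', hpt⟩ := exists_chain p wu hw2 hw3
        refine ⟨w', Or.inr (Or.inl ⟨hw'.symm, ?_⟩), ?_, Ty_of_IsC ⟨q, q0, q1, ?_, g2, ?_⟩⟩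
        · rw [hpt]; exact hw1
        · rw [hpt]; exact hwc
        · rw [hpt]; exact hwq
        · rw [hpt]; exact e
      · obtain ⟨wD, wre, wu⟩ := w
        have hw1' : wD = C.D0 := hw1
        subst hw1'
        have hpt := pt_clP (C := C) hw2
        refine ⟨C.clP wu hw2, Ty_of_IsC (by rw [hpt]; exact hw3), by rw [hpt]; exact hwc,
          Ty_of_IsC ⟨q, q0, q1, ?_, g2, ?_⟩⟩
        · rw [hpt]; exact hwq
        · rw [hpt]; exact e
    · refine ⟨C.clP (.rat q) trivial, ?_, rfl, ?_⟩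
      · have := Ty_rat_right k p q0 q1 g1
        rw [(pt p).R_T0' k g1]
        exact this
      · have := Ty_rat_left k p' q0 q1 g2
        rw [(pt p').L_T0' k g2]
        exact this
    · obtain ⟨w, hw, hwc, hwq, hwR⟩ := Pnt.step_left (pt p') k q0 q1 g2 r hr
      have e : Pool.Agent.Work.MP_44611a_co.pr k ((pt p).R (k + 1) q) * cls k [C.cR q] * r.1 =
          (pt p).R k q * cls k [C.cR q] * w.Lf k q := by
        rw [(pt p).R_T0' k g1, hwR]
      rcases hw with ⟨hw1, hw2, hw3⟩ | ⟨hw1, hw2, hw3⟩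
      · obtain ⟨wD, wre, wu⟩ := w
        have hD : wD = C.dd p'.1 := hw1.1
        subst hD
        obtain ⟨w', hw', hpt⟩ := exists_chain p' wu hw2 hw3
        refine ⟨w', Ty_of_IsC ⟨q, q0, q1, g1, ?_, ?_⟩, ?_, Or.inr (Or.inl ⟨hw', ?_⟩)⟩
        · rw [hpt]; exact hwq
        · rw [hpt]; exact e
        · rw [hpt]; exact hwc
        · rw [hpt]; exact hw1
      · obtain ⟨wD, wre, wu⟩ := w
        have hw1' : wD = C.D0 := hw1
        subst hw1'
        have hpt := pt_clP (C := C) hw2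
        refine ⟨C.clP wu hw2, Ty_of_IsC ⟨q, q0, q1, g1, ?_, ?_⟩, by rw [hpt]; exact hwc,
          Ty_of_IsC (by rw [hpt]; exact hw3)⟩
        · rw [hpt]; exact hwq
        · rw [hpt]; exact e
  · -- same chain
    obtain ⟨h2, h3, rfl⟩ := h2
    obtain ⟨j, j1, j2, j3⟩ := RealD.skolem (pt p).re k h3 t ht
    have hdd := key_eq_dd h1
    have hr1 : C.rho p.1 = C.rho p'.1 := (key_eq_iff.mp h1).1
    have hr : rk (C.dd p.1) (.sk (pt p).u (pt p').u j) = C.rho p.1 := by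
      apply le_antisymm
      · rw [hr1]
        unfold rho
        rw [← hdd]
        exact rk_mono' p.2.re j2
      · exact rk_mono' p.2.re j1
    have hcl : Closed p.1.2.2.2 → Closed (.sk (pt p).u (pt p').u j) := by
      intro hc
      refine ⟨hc, ?_⟩
      rcases p'.2 with hp' | hp'
      · exact hp'.2.2.2
      · exfalso
        have hg := hp'.gen
        rw [← hr1] at hg
        apply hg.2.2.1 _ hc
        exact rk_closed C.D0_real p.2.re hc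
    obtain ⟨w', hw', hpt⟩ := exists_chain p _ hr hcl
    refine ⟨w', Or.inr (Or.inl ⟨hw'.symm, ?_⟩), ?_, Or.inr (Or.inl ⟨hw'.trans h1, ?_⟩)⟩
    · rw [hpt, j3]; exact ⟨rfl, j1, rfl⟩
    · rw [hpt, j3]; rfl
    · rw [hpt, j3]; exact ⟨hdd, j2, rfl⟩
  · -- same rank, different chains
    have hg : C.Gen (C.rho p.1) := gen_of_key h1 h2.ne
    rcases Pnt.split_box (x := pt p) (y := pt p') hg h1 h3 t ht with
      ⟨w, hw1, hw2, hw3, hw4⟩ | ⟨w, hw1, hw2, hw3, hw4⟩ | ⟨m0, re, hw1, hw2, hw3, hw4⟩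
    · obtain ⟨wD, wre, wu⟩ := w
      have hD : C.dd p.1 = wD := hw1.1
      subst hD
      obtain ⟨w', hw', hpt⟩ := exists_chain p wu hw2 (fun hc => by
        exfalso
        apply hg.2.2.1 _ hc
        exact rk_closed C.D0_real p.2.re hc)
      refine ⟨w', Or.inr (Or.inl ⟨hw'.symm, ?_⟩), ?_, Or.inr (Or.inr ⟨?_, hw' ▸ h2, ?_⟩)⟩
      · rw [hpt]; exact hw1
      · rw [hpt]; exact hw3
      · rw [(key_eq_iff.mp hw').1]; exact h1
      · rw [hpt]; exact hw4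
    · obtain ⟨wD, wre, wu⟩ := w
      have hD : wD = C.dd p'.1 := hw1.1
      subst hD
      obtain ⟨w', hw', hpt⟩ := exists_chain p' wu hw2 (fun hc => by
        exfalso
        have hg' : C.Gen (C.rho p'.1) := h1 ▸ hg
        apply hg'.2.2.1 _ hc
        exact rk_closed C.D0_real p'.2.re hc)
      refine ⟨w', Or.inr (Or.inr ⟨?_, hw' ▸ h2, ?_⟩), ?_, Or.inr (Or.inl ⟨hw', ?_⟩)⟩
      · rw [(key_eq_iff.mp hw').1]; exact h1
      · rw [hpt]; exact hw4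
      · rw [hpt]; exact hw3
      · rw [hpt]; exact hw1
    · -- a new chain
      have hGn := gn_of_gen hg
      have hrD : C.rho p.1 = rk p.1.1 .var := hGn.2.2.2.2
      have hlex : embD p.1.1 < embD p'.1.1 ∨ (embD p.1.1 = embD p'.1.1 ∧
          zz p.1.2.1 p.1.2.2.1 < zz p'.1.2.1 p'.1.2.2.1) := by
        rcases key_lt_iff.mp h2 with h | h
        · exact absurd h1 h.ne
        · exact h.2
      obtain ⟨q', hq1, hq2⟩ : ∃ q' : ℚ, zz p.1.2.1 p.1.2.2.1 < zz (m0 + 1) q' ∧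
          (embD p.1.1 < embD p'.1.1 ∨ (embD p.1.1 = embD p'.1.1 ∧
            zz (m0 + 1) q' < zz p'.1.2.1 p'.1.2.2.1)) := by
        rcases hlex with h | ⟨h, h'⟩
        · obtain ⟨q', hq'⟩ := exists_rat_gt (zz p.1.2.1 p.1.2.2.1 - ((m0 + 1 : ℕ) : ℝ) * √2)
          refine ⟨q', ?_, Or.inl h⟩
          unfold zz at *
          linarith
        · obtain ⟨q', hq', hq''⟩ := exists_rat_btwn (show
            zz p.1.2.1 p.1.2.2.1 - ((m0 + 1 : ℕ) : ℝ) * √2 <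
            zz p'.1.2.1 p'.1.2.2.1 - ((m0 + 1 : ℕ) : ℝ) * √2 by linarith)
          refine ⟨q', ?_, Or.inr ⟨h, ?_⟩⟩
          · change _ < (q' : ℝ) + ((m0 + 1 : ℕ) : ℝ) * √2
            linarith
          · change (q' : ℝ) + ((m0 + 1 : ℕ) : ℝ) * √2 < _
            linarith
      have hdd : C.dd (p.1.1, m0 + 1, q', .var) = C.W m0 (C.rho p.1) := by
        change C.W m0 (rk p.1.1 .var) = _
        rw [hrD]
      have hV : C.Val (p.1.1, m0 + 1, q', .var) := by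
        refine Or.inr ⟨hGn.1, hGn.2.1, fun h => absurd h (Nat.succ_ne_zero _), ?_, ?_⟩
        · rw [hdd]; exact re
        · rw [hdd]
          exact hw1.trans hrD
      have hpt : pt (⟨_, hV⟩ : C.P) = ⟨C.W m0 (pt p).r, re, .var⟩ := by
        unfold pt
        congr 1
      have hrho : C.rho (p.1.1, m0 + 1, q', .var) = C.rho p.1 := by
        unfold rho at hdd ⊢
        rw [hdd]
        exact hw1
      refine ⟨⟨_, hV⟩, Or.inr (Or.inr ⟨hrho.symm, ?_, ?_⟩), ?_, Or.inr (Or.inr ⟨?_, ?_, ?_⟩)⟩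
      · rw [key_lt_iff]
        exact Or.inr ⟨hrho.symm, Or.inr ⟨rfl, hq1⟩⟩
      · rw [hpt]; exact hw3
      · rw [hpt]; exact hw2
      · rw [hrho]; exact h1
      · rw [key_lt_iff]
        exact Or.inr ⟨by rw [hrho]; exact h1, hq2⟩
      · rw [hpt]; exact hw4

end Ctx

end Pool.Agent.Work.MP_44611a_co
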