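import Pool.Agent.Work.MP_44611a_co.Stone

set_option autoImplicit false
set_option linter.all false

/-! Stone pairings of the limit structure and the final assembly. -/

namespace Pool.Agent.Work.MP_44611a_co

open Filter Topology MeasureTheory ProbabilityTheory

section

variable (L : FirstOrder.Language.{0, 0}) (lt : L.Relations 2) (col : L.Relations 1)
  (hfun : ∀ n, IsEmpty (L.Functions n)) (hr2 : ∀ r : L.Relations 2, r = lt)
  (hr1 : ∀ r : L.Relations 1, r = col) (hrn : ∀ n, n ≠ 1 → n ≠ 2 → IsEmpty (L.Relations n))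

variable (C : Ctx)

lemma meas_gcode (k j : ℕ) : Measurable (fun x : Pt C.E => gcode C.S k (C.gridE j) x) := by
  have p1 : ∀ i, Measurable (fun x : Pt C.E => (C.gridE j i, x.1)) := fun i =>
    measurable_const.prodMk measurable_subtype_coe
  have p2 : ∀ i, Measurable (fun x : Pt C.E => (x.1, C.gridE j i)) := fun i =>
    measurable_subtype_coe.prodMk measurable_const
  have l1 : ∀ i, MeasurableSet {x : Pt C.E | C.gridE j i < x.1} := fun i => (p1 i) C.meas_ltE
  have l2 : ∀ i, MeasurableSet {x : Pt C.E | x.1 < C.gridE j i} := fun i => (p2 i) C.meas_ltE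
  refine Measurable.prodMk ?_ (Measurable.prodMk ?_ (Measurable.prodMk ?_ (Measurable.prodMk ?_ ?_)))
  · rw [measurable_pi_iff]
    intro i
    apply measurable_to_bool
    have : (fun x : Pt C.E => decide (C.gridE j i < x.1)) ⁻¹' {true} =
        {x : Pt C.E | C.gridE j i < x.1} := by
      ext v
      simp only [Set.mem_preimage, Set.mem_singleton_iff, decide_eq_true_eq]
      rfl
    rw [this]
    exact l1 i
  · rw [measurable_pi_iff]
    intro i
    apply measurable_to_bool
    have : (fun x : Pt C.E => decide (x.1 < C.gridE j i)) ⁻¹' {true} =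
        {x : Pt C.E | x.1 < C.gridE j i} := by
      ext v
      simp only [Set.mem_preimage, Set.mem_singleton_iff, decide_eq_true_eq]
      rfl
    rw [this]
    exact l2 i
  · exact C.meas_colE.comp measurable_subtype_coe
  · rw [measurable_pi_iff]
    intro i
    apply measurable_to_countable'
    intro t
    have : (fun x : Pt C.E => if C.gridE j i < x.1 then C.S.tau k (C.gridE j i) x.1 else 1) ⁻¹' {t} =
        {x : Pt C.E | C.gridE j i < x.1 ∧ C.S.tau k (C.gridE j i) x.1 = t} ∪
        ({x : Pt C.E | C.gridE j i < x.1}ᶜ ∩ {x | 1 = t}) := by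
      ext x
      simp only [Set.mem_preimage, Set.mem_singleton_iff, Set.mem_union, Set.mem_inter_iff,
        Set.mem_compl_iff]
      by_cases h : C.gridE j i < x.1
      · rw [if_pos h]
        exact ⟨fun h' => Or.inl ⟨h, h'⟩, fun h' => h'.elim (fun h => h.2) (fun h' => absurd h h'.1)⟩
      · rw [if_neg h]
        exact ⟨fun h' => Or.inr ⟨h, h'⟩, fun h' => h'.elim (fun h' => absurd h'.1 h) (fun h => h.2)⟩
    rw [this]
    exact ((p1 i) (C.meas_tauE k t)).union ((l1 i).compl.inter (MeasurableSet.const _))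
  · rw [measurable_pi_iff]
    intro i
    apply measurable_to_countable'
    intro t
    have : (fun x : Pt C.E => if x.1 < C.gridE j i then C.S.tau k x.1 (C.gridE j i) else 1) ⁻¹' {t} =
        {x : Pt C.E | x.1 < C.gridE j i ∧ C.S.tau k x.1 (C.gridE j i) = t} ∪
        ({x : Pt C.E | x.1 < C.gridE j i}ᶜ ∩ {x | 1 = t}) := by
      ext x
      simp only [Set.mem_preimage, Set.mem_singleton_iff, Set.mem_union, Set.mem_inter_iff,
        Set.mem_compl_iff]
      by_cases h : x.1 < C.gridE j i
      · rw [if_pos h]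
        exact ⟨fun h' => Or.inl ⟨h, h'⟩, fun h' => h'.elim (fun h => h.2) (fun h' => absurd h h'.1)⟩
      · rw [if_neg h]
        exact ⟨fun h' => Or.inr ⟨h, h'⟩, fun h' => h'.elim (fun h' => absurd h'.1 h) (fun h => h.2)⟩
    rw [this]
    exact ((p2 i) (C.meas_tauE k t)).union ((l2 i).compl.inter (MeasurableSet.const _))

/-- truth density in the finite structures -/
noncomputable def dens (n : ℕ) {p : ℕ} (φ : L.Formula (Fin p)) : ℝ :=
  ((Measure.pi fun _ : Fin p => unif (C.Xn n)) {v | Tru L hfun (TSw (C.w n)) φ v}).toReal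

include hr2 hr1 hrn in
theorem stone_le {p : ℕ} (φ : L.Formula (Fin p)) (ℓ : ℝ)
    (h : Tendsto (fun n => dens L hfun C n φ) (C.U : Filter ℕ) (𝓝 ℓ)) :
    ((Measure.pi fun _ : Fin p => C.mu) {v | Tru L hfun C.S φ v}).toReal ≤ ℓ := by
  have key : ∀ j : ℕ, ((Measure.pi fun _ : Fin p => C.mu) {v | Tru L hfun C.S φ v}).toReal ≤
      ℓ + ((Measure.pi fun _ : Fin p => C.mu) (NS C p j)).toReal := by
    intro j
    obtain ⟨J, hJdef⟩ : ∃ J, J = j + 1 := ⟨_, rfl⟩
    have hJ : 0 < J := by omega
    obtain ⟨k, hk⟩ : ∃ k, k = qd φ := ⟨_, rfl⟩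
    let G : Pt C.E → GC k J := fun x => gcode C.S k (C.gridE J) x
    have hG : Measurable G := meas_gcode C k J
    let Φ : Set (Fin p → GC k J) := {g | (∀ a b, a ≠ b → sepC (g a) (g b)) ∧
      ∃ v : Fin p → Pt C.E, (∀ a, gcode C.S k (C.gridE J) (v a) = g a) ∧ Tru L hfun C.S φ v}
    have hs : ∀ g, g ∈ (Set.toFinite Φ).toFinset ↔ g ∈ Φ := fun g => Set.Finite.mem_toFinset _
    have hsub : {v : Fin p → Pt C.E | Tru L hfun C.S φ v} ⊆
        {v | (fun a => G (v a)) ∈ Φ} ∪ NS C p j := by
      intro v hv
      by_cases hns : v ∈ NS C p j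
      · exact Or.inr hns
      · left
        refine ⟨fun a b hab => ?_, v, fun a => rfl, hv⟩
        apply sep_of_rho C k J hJ
        by_contra hcon
        apply hns
        refine ⟨a, b, hab, ?_⟩
        push Not at hcon
        rw [hJdef] at hcon
        push_cast at hcon
        exact hcon
    have h1 : ((Measure.pi fun _ : Fin p => C.mu) {v | Tru L hfun C.S φ v}).toReal ≤
        ((Measure.pi fun _ : Fin p => C.mu) {v | (fun a => G (v a)) ∈ Φ}).toReal +
        ((Measure.pi fun _ : Fin p => C.mu) (NS C p j)).toReal := by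
      rw [← ENNReal.toReal_add (measure_ne_top _ _) (measure_ne_top _ _)]
      apply ENNReal.toReal_mono (by finiteness)
      exact (measure_mono hsub).trans (measure_union_le _ _)
    -- the main term as a limit
    have h2 : ((Measure.pi fun _ : Fin p => C.mu) {v | (fun a => G (v a)) ∈ Φ}).toReal =
        ∑ g ∈ (Set.toFinite Φ).toFinset, ∏ a, ((C.Q : Measure Dt) (gcD k J ⁻¹' {g a})).toReal := by
      rw [pi_code C.mu G hG Φ _ hs]
      apply Finset.sum_congr rfl
      intro g _
      apply Finset.prod_congr rfl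
      intro a _
      rw [C.mu_apply (hG (measurableSet_singleton _)) (gcD k J ⁻¹' {g a})]
      intro D
      change gcode C.S k (C.gridE J) (Ctx.elX D) ∈ ({g a} : Set (GC k J)) ↔ gcD k J D.1 ∈ ({g a} : Set (GC k J))
      rw [Ctx.gcode_limit k J hJ D]
    have h3 : Tendsto (fun n => ((Measure.pi fun _ : Fin p => unif (C.Xn n))
        {v | (fun a => gcD k J (C.datn n (v a))) ∈ Φ}).toReal) (C.U : Filter ℕ)
        (𝓝 (((Measure.pi fun _ : Fin p => C.mu) {v | (fun a => G (v a)) ∈ Φ}).toReal)) := by
      rw [h2]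
      have h4 : ∀ n, ((Measure.pi fun _ : Fin p => unif (C.Xn n))
          {v | (fun a => gcD k J (C.datn n (v a))) ∈ Φ}).toReal =
          ∑ g ∈ (Set.toFinite Φ).toFinset, ∏ a,
            (unif (C.Xn n) (C.datn n ⁻¹' (gcD k J ⁻¹' {g a}))).toReal := fun n =>
        pi_code (unif (C.Xn n)) (fun x => gcD k J (C.datn n x)) Measurable.of_discrete Φ _ hs
      simp only [h4]
      apply tendsto_finset_sum
      intro g _
      apply tendsto_finset_prod
      intro a _
      exact C.Q_clopen (isClopen_gcD k J (g a))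
    have h5 : ((Measure.pi fun _ : Fin p => C.mu) {v | (fun a => G (v a)) ∈ Φ}).toReal ≤ ℓ := by
      refine le_of_tendsto_of_tendsto h3 h ?_
      filter_upwards [Ctx.grid_sim (C := C) k J] with n hn
      apply ENNReal.toReal_mono (measure_ne_top _ _)
      apply measure_mono
      intro v hv
      obtain ⟨hsep, v0, hv0, hTru⟩ := hv
      have hcode : ∀ a, gcode C.S k (C.gridE J) (v0 a) =
          gcode (TSw (C.w n)) k (gridW (C.w n) J) (v a) := fun a => by
        rw [hv0 a, gcode_finite]
        rfl
      refine (Tru_iff L lt col hfun hr2 hr1 hrn φ hk.ge (sim_of_code (Ctx.gridE_zero J)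
        (Ctx.gridE_last J hJ) (gridW_zero _ J) (gridW_last _ J hJ) hn v0 v hcode ?_)).mp hTru
      intro a b hab
      rw [hv0 a, hv0 b]
      exact hsep a b hab
    linarith
  have hlim : Tendsto (fun j => ℓ + ((Measure.pi fun _ : Fin p => C.mu) (NS C p j)).toReal) atTop
      (𝓝 (ℓ + (0 : ENNReal).toReal)) :=
    tendsto_const_nhds.add ((ENNReal.tendsto_toReal ENNReal.zero_ne_top).comp (NS_tendsto C p))
  have := ge_of_tendsto' hlim key
  simpa using this

lemma dens_not (n : ℕ) {p : ℕ} (φ : L.Formula (Fin p)) :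
    dens L hfun C n φ.not = 1 - dens L hfun C n φ := by
  unfold dens
  have : {v | Tru L hfun (TSw (C.w n)) φ.not v} = {v | Tru L hfun (TSw (C.w n)) φ v}ᶜ := by
    ext v
    letI := mkStr L hfun (TSw (C.w n))
    exact FirstOrder.Language.Formula.realize_not
  rw [this, prob_compl_eq_one_sub MeasurableSet.of_discrete,
    ENNReal.toReal_sub_of_le prob_le_one ENNReal.one_ne_top, ENNReal.toReal_one]

include hr2 hr1 hrn in
theorem stone_eq {p : ℕ} (φ : L.Formula (Fin p)) (ℓ : ℝ)
    (h : Tendsto (fun n => dens L hfun C n φ) (C.U : Filter ℕ) (𝓝 ℓ)) :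
    ((Measure.pi fun _ : Fin p => C.mu) {v | Tru L hfun C.S φ v}).toReal = ℓ := by
  apply le_antisymm (stone_le L lt col hfun hr2 hr1 hrn C φ ℓ h)
  have h2 : Tendsto (fun n => dens L hfun C n φ.not) (C.U : Filter ℕ) (𝓝 (1 - ℓ)) := by
    simp only [dens_not]
    exact tendsto_const_nhds.sub h
  have h3 := stone_le L lt col hfun hr2 hr1 hrn C φ.not (1 - ℓ) h2
  have : {v | Tru L hfun C.S φ.not v} = {v | Tru L hfun C.S φ v}ᶜ := by
    ext v
    letI := mkStr L hfun C.S
    exact FirstOrder.Language.Formula.realize_not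
  rw [this, prob_compl_eq_one_sub (meas_Tru L lt col hfun hr2 hr1 hrn C φ),
    ENNReal.toReal_sub_of_le prob_le_one ENNReal.one_ne_top, ENNReal.toReal_one] at h3
  linarith

end

/-- product of uniform measures -/
lemma pi_unif (X : Type) [Fintype X] [Nonempty X] [MeasurableSpace X] [DiscreteMeasurableSpace X]
    {p : ℕ} (A : Set (Fin p → X)) :
    ((Measure.pi fun _ : Fin p => unif X) A).toReal = (Nat.card A : ℝ) / (Nat.card X : ℝ) ^ p := by
  classical
  have hs : ∀ g, g ∈ (Set.toFinite A).toFinset ↔ g ∈ A := fun g => Set.Finite.mem_toFinset _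
  have h := pi_code (unif X) (fun x => x) measurable_id A _ hs
  have e : {v : Fin p → X | (fun a => v a) ∈ A} = A := rfl
  rw [e] at h
  rw [h]
  have h2 : ∀ g ∈ (Set.toFinite A).toFinset, ∏ a : Fin p, (unif X ((fun x => x) ⁻¹' {g a})).toReal =
      (1 / (Nat.card X : ℝ)) ^ p := by
    intro g _
    have h3 : ∀ a : Fin p, (unif X ((fun x => x) ⁻¹' {g a})).toReal = 1 / (Nat.card X : ℝ) := by
      intro a
      rw [unif_real]
      congr 1
      have : Nat.card ((fun x => x) ⁻¹' {g a} : Set X) = 1 := by
        change Nat.card ({g a} : Set X) = 1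
        exact Nat.card_unique
      rw [this, Nat.cast_one]
    rw [Finset.prod_congr rfl (fun a _ => h3 a), Finset.prod_const, Finset.card_univ,
      Fintype.card_fin]
  rw [Finset.sum_congr rfl h2, Finset.sum_const, nsmul_eq_mul, one_div, inv_pow, div_eq_mul_inv]
  congr 2
  rw [Nat.card_eq_card_finite_toFinset (Set.toFinite A)]

section iso

variable (L : FirstOrder.Language.{0, 0}) (lt : L.Relations 2) (col : L.Relations 1)
  (hfun : ∀ n, IsEmpty (L.Functions n)) (hr2 : ∀ r : L.Relations 2, r = lt)
  (hr1 : ∀ r : L.Relations 1, r = col) (hrn : ∀ n, n ≠ 1 → n ≠ 2 → IsEmpty (L.Relations n))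

/-- every finite coloured linear order is given by a word -/
lemma exists_word (α : Type) [Finite α] [L.Structure α]
    (h1 : ∀ x : α, ¬ FirstOrder.Language.Structure.RelMap lt ![x, x])
    (h2 : ∀ x y z : α, FirstOrder.Language.Structure.RelMap lt ![x, y] →
      FirstOrder.Language.Structure.RelMap lt ![y, z] →
      FirstOrder.Language.Structure.RelMap lt ![x, z])
    (h3 : ∀ x y : α, x ≠ y → FirstOrder.Language.Structure.RelMap lt ![x, y] ∨
      FirstOrder.Language.Structure.RelMap lt ![y, x]) :
    ∃ (w : List Bool) (f : α ≃ Pt (Fin (w.length + 2))),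
      (∀ x y, FirstOrder.Language.Structure.RelMap lt ![x, y] ↔ f x < f y) ∧
      (∀ x, FirstOrder.Language.Structure.RelMap col ![x] ↔ (TSw w).col (f x).1 = true) := by
  classical
  have hsto : IsStrictTotalOrder α (fun x y => FirstOrder.Language.Structure.RelMap lt ![x, y]) :=
    { trichotomous := fun x y hx hy => by
        by_contra hne
        rcases h3 x y hne with h | h
        · exact hx h
        · exact hy h
      irrefl := h1
      trans := h2 }
  letI : LinearOrder α := @linearOrderOfSTO _
    (fun x y => FirstOrder.Language.Structure.RelMap lt ![x, y]) hsto (Classical.decRel _)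
  letI : Fintype α := Fintype.ofFinite α
  obtain ⟨N, hN⟩ : ∃ N, N = Fintype.card α := ⟨_, rfl⟩
  let e : Fin N ≃o α := Fintype.orderIsoFinOfCardEq α hN.symm
  obtain ⟨w, hw⟩ : ∃ w, w = List.ofFn (fun i : Fin N =>
    decide (FirstOrder.Language.Structure.RelMap col ![e i])) := ⟨_, rfl⟩
  have hlen : w.length = N := by rw [hw, List.length_ofFn]
  refine ⟨w, (e.symm.toEquiv.trans (finCongr hlen.symm)).trans (ptEquiv w.length), ?_, ?_⟩
  · intro x y
    change x < y ↔ _
    rw [← e.symm.lt_iff_lt]
    change (e.symm x).1 < (e.symm y).1 ↔ (e.symm x).1 + 1 < (e.symm y).1 + 1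
    omega
  · intro x
    change _ ↔ colAt w ((e.symm x).1 + 1) = true
    have h4 : colAt w ((e.symm x).1 + 1) =
        decide (FirstOrder.Language.Structure.RelMap col ![x]) := by
      unfold colAt
      rw [if_neg (Nat.succ_ne_zero _), Nat.add_sub_cancel]
      have hlt : (e.symm x).1 < w.length := by rw [hlen]; exact (e.symm x).2
      rw [List.getD_eq_getElem _ _ hlt]
      subst hw
      rw [List.getElem_ofFn]
      simp
    rw [h4, decide_eq_true_eq]

include hr2 hr1 hrn in
lemma card_realize {α : Type} [L.Structure α] {w : List Bool} (f : α ≃ Pt (Fin (w.length + 2)))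
    (h1 : ∀ x y, FirstOrder.Language.Structure.RelMap lt ![x, y] ↔ f x < f y)
    (h2 : ∀ x, FirstOrder.Language.Structure.RelMap col ![x] ↔ (TSw w).col (f x).1 = true)
    {p : ℕ} (φ : L.Formula (Fin p)) :
    Nat.card {v : Fin p → α // φ.Realize v} =
      Nat.card {v : Fin p → Pt (Fin (w.length + 2)) | Tru L hfun (TSw w) φ v} := by
  letI := mkStr L hfun (TSw w)
  have hc := mkStr_compat L hfun (TSw w) lt col
  let g : FirstOrder.Language.Equiv L α (Pt (Fin (w.length + 2))) :=
    { toEquiv := f
      map_fun' := fun {n} F _ => ((hfun n).false F).elim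
      map_rel' := fun {n} R xs => by
        by_cases hn1 : n = 1
        · subst hn1
          rw [hr1 R]
          have e1 : xs = ![xs 0] := by funext i; fin_cases i; rfl
          have e2 : f ∘ xs = ![f (xs 0)] := by funext i; fin_cases i; rfl
          change FirstOrder.Language.Structure.RelMap col (f ∘ xs) ↔ _
          rw [e2, hc.2, ← h2, ← e1]
        · by_cases hn2 : n = 2
          · subst hn2
            rw [hr2 R]
            have e1 : xs = ![xs 0, xs 1] := by funext i; fin_cases i <;> rfl
            have e2 : f ∘ xs = ![f (xs 0), f (xs 1)] := by funext i; fin_cases i <;> rfl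
            change FirstOrder.Language.Structure.RelMap lt (f ∘ xs) ↔ _
            rw [e2, hc.1, ← h1, ← e1]
          · exact ((hrn n hn1 hn2).false R).elim }
  apply Nat.card_congr
  refine Equiv.subtypeEquiv (Equiv.arrowCongr (Equiv.refl _) f) ?_
  intro v
  exact (FirstOrder.Language.StrongHomClass.realize_formula g φ (v := v)).symm

end iso

end Pool.Agent.Work.MP_44611a_co
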