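import Pool.Agent.Work.MP_44611a_co.Halo

set_option autoImplicit false
set_option linter.all false

/-! Types between two points and their composition rules. -/

namespace Pool.Agent.Work.MP_44611a_co

open Filter Topology

namespace Pnt

variable {C : Ctx}

/-- the point is left of the rational -/
def ltR (x : Pnt C) (q : ℚ) : Prop := ltD x.D x.u (.rat q)
/-- the rational is left of the point -/
def Rlt (q : ℚ) (x : Pnt C) : Prop := ltD x.D (.rat q) x.u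

lemma ltR_of (x : Pnt C) {q : ℚ} (h1 : x.r < q) (h3 : q ≤ 1) : x.ltR q := x.lt_rat h1 h3
lemma Rlt_of (x : Pnt C) {q : ℚ} (h0 : 0 ≤ q) (h1 : q < x.r) : Rlt q x := x.rat_lt h0 h1

lemma ltR.r_le {x : Pnt C} {q : ℚ} (h : x.ltR q) (h0 : 0 ≤ q) (h1 : q ≤ 1) : x.r ≤ q := by
  rw [← Ctx.rk_rat x.re h0 h1]
  exact Ctx.rk_mono' x.re h

lemma Rlt.r_le {x : Pnt C} {q : ℚ} (h : Rlt q x) (h0 : 0 ≤ q) (h1 : q ≤ 1) : (q : ℝ) ≤ x.r := by
  rw [← Ctx.rk_rat x.re h0 h1]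
  exact Ctx.rk_mono' x.re h

lemma ltR.mono {x : Pnt C} {q q' : ℚ} (h : x.ltR q) (h0 : 0 ≤ q) (h2 : q < q') (h3 : q' ≤ 1) :
    x.ltR q' := RealD.lt_trans x.re h (Ctx.rat_lt x.re h0 h2 h3)

lemma Rlt.mono {x : Pnt C} {q q' : ℚ} (h : Rlt q' x) (h0 : 0 ≤ q) (h2 : q < q') (h3 : q' ≤ 1) :
    Rlt q x := RealD.lt_trans x.re (Ctx.rat_lt x.re h0 h2 h3) h

lemma R_split' (x : Pnt C) (k : ℕ) {q q' : ℚ} (h1 : x.ltR q) (h0 : 0 ≤ q) (h2 : q < q')
    (h3 : q' ≤ 1) : x.R k q' = x.R k q * cls k [C.cR q] * C.I k q q' := by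
  unfold R
  rw [RealD.T1 x.re k h1 (Ctx.rat_lt x.re h0 h2 h3), Ctx.I_eq x.re, Ctx.cR_eq x.re]

lemma L_split' (x : Pnt C) (k : ℕ) {q q' : ℚ} (h0 : 0 ≤ q) (h1 : q < q') (h2 : Rlt q' x)
    (h3 : q' ≤ 1) : x.Lf k q = C.I k q q' * cls k [C.cR q'] * x.Lf k q' := by
  unfold Lf
  rw [RealD.T1 x.re k (Ctx.rat_lt x.re h0 h1 h3) h2, Ctx.I_eq x.re, Ctx.cR_eq x.re]

lemma I_split' (x : Pnt C) (k : ℕ) {q q' : ℚ} (h1 : Rlt q x) (h2 : x.ltR q') :
    C.I k q q' = x.Lf k q * cls k [x.c] * x.R k q' := by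
  unfold Lf R c
  rw [← RealD.T1 x.re k h1 h2, Ctx.I_eq x.re]

lemma R_T0' (x : Pnt C) (k : ℕ) {q : ℚ} (h1 : x.ltR q) : pr k (x.R (k + 1) q) = x.R k q :=
  RealD.T0 x.re k h1
lemma L_T0' (x : Pnt C) (k : ℕ) {q : ℚ} (h1 : Rlt q x) : pr k (x.Lf (k + 1) q) = x.Lf k q :=
  RealD.T0 x.re k h1

/-- `t` is the type between `x` and `y` which are separated by a rational -/
def IsC (k : ℕ) (x y : Pnt C) (t : T k) : Prop :=
  ∃ q : ℚ, 0 ≤ q ∧ q ≤ 1 ∧ x.ltR q ∧ Rlt q y ∧ t = x.R k q * cls k [C.cR q] * y.Lf k q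

lemma IsC.aux {k : ℕ} {x y : Pnt C} {q q' : ℚ} (h0 : 0 ≤ q) (h : q < q') (h1 : q' ≤ 1)
    (g1 : x.ltR q) (g2 : Rlt q' y) :
    x.R k q * cls k [C.cR q] * y.Lf k q = x.R k q' * cls k [C.cR q'] * y.Lf k q' := by
  rw [x.R_split' k g1 h0 h h1, y.L_split' k h0 h g2 h1]
  simp only [mul_assoc]

lemma IsC.val {k : ℕ} {x y : Pnt C} {t : T k} (ht : IsC k x y t) {q : ℚ} (h0 : 0 ≤ q) (h1 : q ≤ 1)
    (g1 : x.ltR q) (g2 : Rlt q y) : t = x.R k q * cls k [C.cR q] * y.Lf k q := by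
  obtain ⟨q', h0', h1', g1', g2', rfl⟩ := ht
  rcases lt_trichotomy q q' with h | h | h
  · rw [← IsC.aux h0 h h1' g1 g2']
  · rw [h]
  · rw [← IsC.aux h0' h h1 g1' g2]

lemma IsC.unique {k : ℕ} {x y : Pnt C} {t t' : T k} (ht : IsC k x y t) (ht' : IsC k x y t') :
    t = t' := by
  obtain ⟨q, h0, h1, g1, g2, rfl⟩ := ht
  exact (ht'.val h0 h1 g1 g2).symm

lemma exists_IsC (k : ℕ) {x y : Pnt C} (h : x.r < y.r) : ∃ t, IsC k x y t := by
  obtain ⟨q, h1, h2⟩ := exists_rat_btwn h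
  exact ⟨_, q, x.q_nonneg h1, y.q_le_one h2, x.ltR_of h1 (y.q_le_one h2),
    y.Rlt_of (x.q_nonneg h1) h2, rfl⟩

lemma IsC.pr {k : ℕ} {x y : Pnt C} {t : T (k + 1)} (ht : IsC (k + 1) x y t) :
    IsC k x y (pr k t) := by
  obtain ⟨q, h0, h1, g1, g2, rfl⟩ := ht
  exact ⟨q, h0, h1, g1, g2, by rw [map_mul, map_mul, x.R_T0' k g1, y.L_T0' k g2, pr_cls]⟩

/-- right rule -/
def AR (k : ℕ) (x y : Pnt C) (t : T k) : Prop :=
  ∀ q : ℚ, 0 ≤ q → q ≤ 1 → y.ltR q → x.R k q = t * cls k [y.c] * y.R k q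
/-- left rule -/
def AL (k : ℕ) (x y : Pnt C) (t : T k) : Prop :=
  ∀ q : ℚ, 0 ≤ q → q ≤ 1 → Rlt q x → y.Lf k q = x.Lf k q * cls k [x.c] * t

lemma IsC.toAR {k : ℕ} {x y : Pnt C} {t : T k} (ht : IsC k x y t) : AR k x y t := by
  intro q h0 h1 hq
  obtain ⟨q', h0', h1', g1', g2', rfl⟩ := ht
  have hlt : q' < q := by
    have h : ltD y.D (.rat q') (.rat q) := RealD.lt_trans y.re g2' hq
    by_contra hc
    push Not at hc
    rcases hc.eq_or_lt with hc | hc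
    · rw [hc] at h; exact RealD.lt_irrefl y.re _ h
    · exact RealD.lt_asymm y.re h (Ctx.rat_lt y.re h0 hc h1')
  rw [x.R_split' k g1' h0' hlt h1, y.I_split' k g2' hq]
  simp only [mul_assoc]

lemma IsC.toAL {k : ℕ} {x y : Pnt C} {t : T k} (ht : IsC k x y t) : AL k x y t := by
  intro q h0 h1 hq
  obtain ⟨q', h0', h1', g1', g2', rfl⟩ := ht
  have hlt : q < q' := by
    have h : ltD x.D (.rat q) (.rat q') := RealD.lt_trans x.re hq g1'
    by_contra hc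
    push Not at hc
    rcases hc.eq_or_lt with hc | hc
    · rw [hc] at h; exact RealD.lt_irrefl x.re _ h
    · exact RealD.lt_asymm x.re h (Ctx.rat_lt x.re h0' hc h1)
  rw [y.L_split' k h0 hlt g2' h1', x.I_split' k hq g1']
  simp only [mul_assoc]

lemma IsB.toAR {k : ℕ} {x y : Pnt C} (hg : C.Gen x.r) (hxy : x.r = y.r) {m : T k}
    (hm : IsB k x y m) : AR k x y m := by
  intro q h0 h1 hq
  have hg' : C.Gen y.r := hxy ▸ hg
  have hqr : y.r < q := by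
    have h2 := hq.r_le h0 h1
    rcases h2.eq_or_lt with h2 | h2
    · exfalso
      apply hg'.2.2.1 (.rat q) trivial
      rw [Ctx.rk_rat C.D0_real h0 h1, h2]
    · exact h2
  obtain ⟨s, a, b, h⟩ := C.exists_Jat k hg.1 hg.2.1
  -- shrink the good pair to the left of q
  have key : ∀ a' : ℚ, C.Good k x.r s a a' → x.R k a' = m * cls k [y.c] * y.R k a' := by
    intro a' h
    have hB := hm.all hg hxy h
    have hy : C.Good k y.r s a a' := hxy ▸ h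
    apply eq_of_LR (aperT k)
    · refine (x.halo_R hg h).2.1.trans ?_
      rw [y.I_split k h.1 hy.2.1 hy.2.2.1 h.2.2.2.1]
      exact (hB.2.2.2.mul_right _).mul_right _
    · rw [mul_assoc]
      exact (RLe.mul _ _).trans hB.1
  have h2 : x.r < ((min b q : ℚ) : ℝ) := by
    rw [Rat.cast_min]; exact lt_min h.2.2.1 (hxy ▸ hqr)
  have hgood := h.mono le_rfl h.2.1 h2 (min_le_left _ _)
  have e1 := key _ hgood
  rcases (min_le_right b q).eq_or_lt with h3 | h3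
  · rw [h3] at e1; exact e1
  · rw [x.R_split k h2 h3 h1, e1, y.R_split k (hxy ▸ h2) h3 h1]
    simp only [mul_assoc]

lemma IsB.toAL {k : ℕ} {x y : Pnt C} (hg : C.Gen x.r) (hxy : x.r = y.r) {m : T k}
    (hm : IsB k x y m) : AL k x y m := by
  intro q h0 h1 hq
  have hg' : C.Gen y.r := hxy ▸ hg
  have hqr : q < x.r := by
    have h2 := hq.r_le h0 h1
    rcases h2.eq_or_lt with h2 | h2
    · exfalso
      apply hg.2.2.1 (.rat q) trivial
      rw [Ctx.rk_rat C.D0_real h0 h1, h2]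
    · exact h2
  obtain ⟨s, b, a', h⟩ := C.exists_Jat k hg.1 hg.2.1
  have key : ∀ a : ℚ, C.Good k x.r s a a' → y.Lf k a = x.Lf k a * cls k [x.c] * m := by
    intro a h
    have hB := hm.all hg hxy h
    have hy : C.Good k y.r s a a' := hxy ▸ h
    symm
    apply eq_of_LR (aperT k)
    · exact (LLe.mul _ _).trans hB.2.2.1
    · refine (y.halo_L hg' hy).2.1.trans ?_
      rw [x.I_split k h.1 h.2.1 h.2.2.1 h.2.2.2.1]
      exact hB.2.1.mul_left _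
  have h2 : ((max b q : ℚ) : ℝ) < x.r := by
    rw [Rat.cast_max]; exact max_lt h.2.1 hqr
  have hgood := h.mono (le_max_left _ _) h2 h.2.2.1 le_rfl
  have e1 := key _ hgood
  rcases (le_max_right b q).eq_or_lt with h3 | h3
  · rw [← h3] at e1; exact e1
  · rw [y.L_split k h0 h3 (hxy ▸ h2), e1, x.L_split k h0 h3 h2]
    simp only [mul_assoc]

/-- `t` is the type between `x` and `y` in the same chain -/
def IsS (k : ℕ) (x y : Pnt C) (t : T k) : Prop :=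
  x.D = y.D ∧ ltD x.D x.u y.u ∧ t = tauD x.D k x.u y.u

lemma IsS.toAR {k : ℕ} {x y : Pnt C} {t : T k} (ht : IsS k x y t) : AR k x y t := by
  obtain ⟨D, re, u⟩ := x
  obtain ⟨D', re', u'⟩ := y
  obtain ⟨h1, h2, rfl⟩ := ht
  simp only at h1 h2
  subst h1
  intro q h0 h1 hq
  exact RealD.T1 re k h2 hq

lemma IsS.toAL {k : ℕ} {x y : Pnt C} {t : T k} (ht : IsS k x y t) : AL k x y t := by
  obtain ⟨D, re, u⟩ := x
  obtain ⟨D', re', u'⟩ := y
  obtain ⟨h1, h2, rfl⟩ := ht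
  simp only at h1 h2
  subst h1
  intro q h0 h1 hq
  exact RealD.T1 re k hq h2

lemma IsS.pr {k : ℕ} {x y : Pnt C} {t : T (k + 1)} (ht : IsS (k + 1) x y t) :
    IsS k x y (pr k t) := by
  obtain ⟨h1, h2, rfl⟩ := ht
  exact ⟨h1, h2, RealD.T0 x.re k h2⟩

lemma IsS.trans {k : ℕ} {x y z : Pnt C} {t t' : T k} (ht : IsS k x y t) (ht' : IsS k y z t') :
    IsS k x z (t * cls k [y.c] * t') := by
  obtain ⟨D, re, u⟩ := x
  obtain ⟨D', re', u'⟩ := y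
  obtain ⟨D'', re'', u''⟩ := z
  obtain ⟨h1, h2, rfl⟩ := ht
  obtain ⟨h1', h2', rfl⟩ := ht'
  simp only at h1 h2 h1' h2'
  subst h1
  subst h1'
  exact ⟨rfl, RealD.lt_trans re h2 h2', (RealD.T1 re k h2 h2').symm⟩

lemma IsC.comp_left {k : ℕ} {x w y : Pnt C} {t1 t2 : T k} (h1 : IsC k x w t1) (h2 : AL k w y t2)
    (hw : ∀ q : ℚ, 0 ≤ q → q ≤ 1 → Rlt q w → Rlt q y) : IsC k x y (t1 * cls k [w.c] * t2) := by
  obtain ⟨q, h0, h1, g1, g2, rfl⟩ := h1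
  refine ⟨q, h0, h1, g1, hw q h0 h1 g2, ?_⟩
  rw [h2 q h0 h1 g2]
  simp only [mul_assoc]

lemma IsC.comp_right {k : ℕ} {x w y : Pnt C} {t1 t2 : T k} (h1 : AR k x w t1) (h2 : IsC k w y t2)
    (hw : ∀ q : ℚ, 0 ≤ q → q ≤ 1 → w.ltR q → x.ltR q) : IsC k x y (t1 * cls k [w.c] * t2) := by
  obtain ⟨q, h0, h1', g1, g2, rfl⟩ := h2
  refine ⟨q, h0, h1', hw q h0 h1' g1, g2, ?_⟩
  rw [h1 q h0 h1' g1]
  simp only [mul_assoc]

lemma IsB.comp_right {k : ℕ} {x w y : Pnt C} {t1 t2 : T k} (hg : C.Gen x.r) (hxw : x.r = w.r)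
    (hwy : w.r = y.r) (h1 : AR k x w t1) (h2 : IsB k w y t2) :
    IsB k x y (t1 * cls k [w.c] * t2) := by
  obtain ⟨s, a, a', h⟩ := C.exists_Jat k hg.1 hg.2.1
  have hgw : C.Gen w.r := hxw ▸ hg
  have hgy : C.Gen y.r := hwy ▸ hgw
  have hw : C.Good k w.r s a a' := hxw ▸ h
  have hy : C.Good k y.r s a a' := hwy ▸ hw
  have hB := h2.all hgw hwy hw
  refine ⟨s, a, a', h, ?_⟩
  have e1 : x.R k a' = t1 * cls k [w.c] * w.R k a' :=
    h1 a' (h.1.trans (by exact_mod_cast (h.2.1.trans h.2.2.1).le)) h.2.2.2.1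
      (w.ltR_of hw.2.2.1 h.2.2.2.1)
  have r1 : RLe (t1 * cls k [w.c] * t2) (x.R k a') := by
    rw [e1]; exact hB.1.mul_left _
  have r2 : RLe (x.R k a') (t1 * cls k [w.c] * t2) := by
    rw [e1]; exact hB.2.1.mul_left _
  exact Box.of_J (aperT k) r1 ((LLe.mul _ _).trans hB.2.2.1) r2.J
    (((y.halo_L hgy hy).1.trans (x.halo_R hg h).1.symm).1.trans r2.J)

lemma IsB.comp_left {k : ℕ} {x w y : Pnt C} {t1 t2 : T k} (hg : C.Gen x.r) (hxw : x.r = w.r)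
    (hwy : w.r = y.r) (h1 : IsB k x w t1) (h2 : AL k w y t2) :
    IsB k x y (t1 * cls k [w.c] * t2) := by
  obtain ⟨s, a, a', h⟩ := C.exists_Jat k hg.1 hg.2.1
  have hgw : C.Gen w.r := hxw ▸ hg
  have hgy : C.Gen y.r := hwy ▸ hgw
  have hw : C.Good k w.r s a a' := hxw ▸ h
  have hy : C.Good k y.r s a a' := hwy ▸ hw
  have hB := h1.all hg hxw h
  refine ⟨s, a, a', h, ?_⟩
  have e1 : y.Lf k a = w.Lf k a * cls k [w.c] * t2 :=
    h2 a h.1 ((by exact_mod_cast (h.2.1.trans h.2.2.1).le : a ≤ a').trans h.2.2.2.1)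
      (w.Rlt_of h.1 hw.2.1)
  have r1 : LLe (t1 * cls k [w.c] * t2) (y.Lf k a) := by
    rw [e1]; exact (hB.2.2.1.mul_right _).mul_right _
  have r2 : LLe (y.Lf k a) (t1 * cls k [w.c] * t2) := by
    rw [e1]; exact (hB.2.2.2.mul_right _).mul_right _
  refine Box.of_J (aperT k) ?_ r1 (((x.halo_R hg h).1.trans (y.halo_L hgy hy).1.symm).1.trans r2.J)
    r2.J
  rw [mul_assoc]
  exact (RLe.mul _ _).trans hB.1

end Pnt

end Pool.Agent.Work.MP_44611a_co
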