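import Mathlib

set_option autoImplicit false

/-! Green relations in aperiodic monoids. -/

namespace Pool.Agent.Work.MP_44611a_co

variable {M : Type*} [Monoid M]

/-- `x ≤_R y` -/
def RLe (x y : M) : Prop := ∃ s, x = y * s
/-- `x ≤_L y` -/
def LLe (x y : M) : Prop := ∃ s, x = s * y
/-- `x ≤_J y` -/
def JLe (x y : M) : Prop := ∃ s t, x = s * y * t

/-- aperiodicity of a monoid -/
def Aper (M : Type*) [Monoid M] : Prop := ∃ N : ℕ, ∀ x : M, x ^ N = x ^ (N + 1)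

lemma RLe.refl (x : M) : RLe x x := ⟨1, by simp⟩
lemma LLe.refl (x : M) : LLe x x := ⟨1, by simp⟩
lemma JLe.refl (x : M) : JLe x x := ⟨1, 1, by simp⟩

lemma RLe.trans {x y z : M} (h : RLe x y) (h' : RLe y z) : RLe x z := by
  obtain ⟨s, rfl⟩ := h; obtain ⟨t, rfl⟩ := h'
  exact ⟨t * s, by rw [mul_assoc]⟩
lemma LLe.trans {x y z : M} (h : LLe x y) (h' : LLe y z) : LLe x z := by
  obtain ⟨s, rfl⟩ := h; obtain ⟨t, rfl⟩ := h'
  exact ⟨s * t, by rw [mul_assoc]⟩
lemma JLe.trans {x y z : M} (h : JLe x y) (h' : JLe y z) : JLe x z := by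
  obtain ⟨s, t, rfl⟩ := h; obtain ⟨s', t', rfl⟩ := h'
  exact ⟨s * s', t' * t, by simp only [mul_assoc]⟩

lemma RLe.J {x y : M} (h : RLe x y) : JLe x y := by
  obtain ⟨s, rfl⟩ := h
  exact ⟨1, s, by simp⟩
lemma LLe.J {x y : M} (h : LLe x y) : JLe x y := by
  obtain ⟨s, rfl⟩ := h
  exact ⟨s, 1, by simp⟩

lemma RLe.mul_left {x y : M} (z : M) (h : RLe x y) : RLe (z * x) (z * y) := by
  obtain ⟨s, rfl⟩ := h
  exact ⟨s, by rw [mul_assoc]⟩
lemma LLe.mul_right {x y : M} (z : M) (h : LLe x y) : LLe (x * z) (y * z) := by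
  obtain ⟨s, rfl⟩ := h
  exact ⟨s, by rw [mul_assoc]⟩

lemma RLe.mul (x y : M) : RLe (x * y) x := ⟨y, rfl⟩
lemma LLe.mul (x y : M) : LLe (x * y) y := ⟨x, rfl⟩
lemma JLe.mul3 (x y z : M) : JLe (x * y * z) y := ⟨x, z, rfl⟩

lemma RLe.map {N : Type*} [Monoid N] (f : M →* N) {x y : M} (h : RLe x y) : RLe (f x) (f y) := by
  obtain ⟨s, rfl⟩ := h
  exact ⟨f s, by simp⟩
lemma LLe.map {N : Type*} [Monoid N] (f : M →* N) {x y : M} (h : LLe x y) : LLe (f x) (f y) := by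
  obtain ⟨s, rfl⟩ := h
  exact ⟨f s, by simp⟩
lemma JLe.map {N : Type*} [Monoid N] (f : M →* N) {x y : M} (h : JLe x y) : JLe (f x) (f y) := by
  obtain ⟨s, t, rfl⟩ := h
  exact ⟨f s, f t, by simp⟩

lemma fix_right (hap : Aper M) {y u v : M} (h : y = u * y * v) : y * v = y := by
  obtain ⟨N, hN⟩ := hap
  have hpow : ∀ n : ℕ, y = u ^ n * y * v ^ n := by
    intro n
    induction n with
    | zero => simp
    | succ n ih =>
      calc y = u ^ n * y * v ^ n := ih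
        _ = u ^ n * (u * y * v) * v ^ n := by rw [← h]
        _ = u ^ (n + 1) * y * v ^ (n + 1) := by
          rw [pow_succ u, pow_succ' v]; simp only [mul_assoc]
  calc y * v = u ^ N * y * v ^ N * v := by rw [← hpow N]
    _ = u ^ N * y * v ^ (N + 1) := by rw [pow_succ]; simp only [mul_assoc]
    _ = u ^ N * y * v ^ N := by rw [← hN v]
    _ = y := (hpow N).symm

lemma fix_left (hap : Aper M) {y u v : M} (h : y = u * y * v) : u * y = y := by
  obtain ⟨N, hN⟩ := hap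
  have hpow : ∀ n : ℕ, y = u ^ n * y * v ^ n := by
    intro n
    induction n with
    | zero => simp
    | succ n ih =>
      calc y = u ^ n * y * v ^ n := ih
        _ = u ^ n * (u * y * v) * v ^ n := by rw [← h]
        _ = u ^ (n + 1) * y * v ^ (n + 1) := by
          rw [pow_succ u, pow_succ' v]; simp only [mul_assoc]
  calc u * y = u * (u ^ N * y * v ^ N) := by rw [← hpow N]
    _ = u ^ (N + 1) * y * v ^ N := by rw [pow_succ']; simp only [mul_assoc]
    _ = u ^ N * y * v ^ N := by rw [← hN u]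
    _ = y := (hpow N).symm

/-- stability for R -/
lemma stab_R (hap : Aper M) {x y : M} (h : RLe x y) (h' : JLe y x) : RLe y x := by
  obtain ⟨s, rfl⟩ := h
  obtain ⟨u, v, h⟩ := h'
  have h1 : y = u * y * (s * v) := by rw [← mul_assoc, mul_assoc u, ← h]
  have h2 := fix_right hap h1
  exact ⟨v, by rw [mul_assoc, h2]⟩

/-- stability for L -/
lemma stab_L (hap : Aper M) {x y : M} (h : LLe x y) (h' : JLe y x) : LLe y x := by
  obtain ⟨s, rfl⟩ := h
  obtain ⟨u, v, h⟩ := h'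
  have h1 : y = (u * s) * y * v := by rw [mul_assoc u, ← h]
  have h2 := fix_left hap h1
  exact ⟨u, by rw [← mul_assoc, h2]⟩

/-- H-triviality -/
lemma eq_of_LR (hap : Aper M) {x y : M} (h : LLe x y) (h' : RLe y x) : x = y := by
  obtain ⟨c, h⟩ := h
  obtain ⟨b, h'⟩ := h'
  have h1 : x = c * x * b := by rw [mul_assoc, ← h', ← h]
  have h2 := fix_right hap h1
  rw [h', h2]

/-- `m` lies in the R-class of `a` and in the L-class of `b`. -/
def Box (a b m : M) : Prop := RLe m a ∧ RLe a m ∧ LLe m b ∧ LLe b m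

lemma Box.unique (hap : Aper M) {a b m m' : M} (h : Box a b m) (h' : Box a b m') : m = m' :=
  eq_of_LR hap (h.2.2.1.trans h'.2.2.2) (h'.1.trans h.2.1)

lemma Box.exists {a b g : M} (hag : LLe a g) (hga : LLe g a) (hbg : RLe b g) (hgb : RLe g b)
    (hreg : ∃ z, g * z * g = g) : ∃ m, Box a b m := by
  obtain ⟨z, hz⟩ := hreg
  obtain ⟨x, hx⟩ := hag
  obtain ⟨x', hx'⟩ := hga
  obtain ⟨y, hy⟩ := hbg
  obtain ⟨w, hw⟩ := hgb
  refine ⟨a * z * b, ⟨z * b, by rw [mul_assoc]⟩, ⟨w, ?_⟩, ⟨a * z, rfl⟩, ⟨x', ?_⟩⟩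
  · rw [mul_assoc (a * z), ← hw, hx, mul_assoc x, mul_assoc x, hz]
  · rw [← mul_assoc, ← mul_assoc, ← hx', hy, ← mul_assoc, hz]

lemma Box.map {N : Type*} [Monoid N] (f : M →* N) {a b m : M} (h : Box a b m) :
    Box (f a) (f b) (f m) := ⟨h.1.map f, h.2.1.map f, h.2.2.1.map f, h.2.2.2.map f⟩

lemma Box.congr {a b a' b' m : M} (h : Box a b m) (h1 : RLe a a') (h2 : RLe a' a)
    (h3 : LLe b b') (h4 : LLe b' b) : Box a' b' m :=
  ⟨h.1.trans h1, h2.trans h.2.1, h.2.2.1.trans h3, h4.trans h.2.2.2⟩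

/-- if `m` is below `a` in R, below `b` in L and all are J-equivalent, then `Box a b m`. -/
lemma Box.of_J (hap : Aper M) {a b m : M} (h1 : RLe m a) (h2 : LLe m b) (h3 : JLe a m)
    (h4 : JLe b m) : Box a b m :=
  ⟨h1, stab_R hap h1 h3, h2, stab_L hap h2 h4⟩

/-- J-equivalence -/
def JEq {M : Type*} [Monoid M] (x y : M) : Prop := JLe x y ∧ JLe y x

lemma JEq.symm {M : Type*} [Monoid M] {x y : M} (h : JEq x y) : JEq y x := ⟨h.2, h.1⟩
lemma JEq.trans {M : Type*} [Monoid M] {x y z : M} (h : JEq x y) (h' : JEq y z) : JEq x z :=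
  ⟨h.1.trans h'.1, h'.2.trans h.2⟩
lemma JEq.refl {M : Type*} [Monoid M] (x : M) : JEq x x := ⟨JLe.refl x, JLe.refl x⟩

end Pool.Agent.Work.MP_44611a_co
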