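import Pool.Agent.Work.MP_44611a_co.Rank

set_option autoImplicit false
set_option linter.all false

/-! Points, one sided types and the boxes at generic ranks. -/

namespace Pool.Agent.Work.MP_44611a_co

open Filter Topology

lemma aperT (k : ℕ) : Aper (T k) := aperiodic k

/-- regularity criterion -/
lemma reg_of {M : Type*} [Monoid M] (hap : Aper M) {a b g : M} (ha : JLe a g) (ha' : JLe g a)
    (hb : JLe b g) (hab : JLe g (a * b)) : ∃ z, g * z * g = g := by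
  obtain ⟨x, hx⟩ := stab_R hap (RLe.mul a b) (ha.trans hab)
  obtain ⟨y, hy⟩ := stab_L hap (LLe.mul a b) (hb.trans hab)
  -- e = b x = y a
  have he : b * x = y * a := by
    calc b * x = (y * (a * b)) * x := by rw [← hy]
      _ = y * (a * b * x) := by simp only [mul_assoc]
      _ = y * a := by rw [← hx]
  have hae : a * (y * a) = a := by rw [← he, ← mul_assoc, ← hx]
  have hee : (y * a) * (y * a) = y * a := by rw [mul_assoc, hae]
  obtain ⟨e, hedef⟩ : ∃ e, e = y * a := ⟨_, rfl⟩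
  rw [← hedef] at hae hee
  obtain ⟨s', t', hg⟩ := ha'
  have hg' : g = (s' * a) * e * t' := by
    rw [mul_assoc s' a e, hae, ← hg]
  have heg : JLe e g := by
    rw [hedef]
    exact (LLe.mul y a).J.trans ha
  obtain ⟨S, hS⟩ : ∃ S, S = s' * a := ⟨_, rfl⟩
  rw [← hS] at hg'
  have h1 : JLe e (e * t') := heg.trans (by rw [hg', mul_assoc]; exact (LLe.mul S (e * t')).J)
  have h2 : JLe e (S * e) := heg.trans (by rw [hg']; exact (RLe.mul (S * e) t').J)
  obtain ⟨t2, ht2⟩ := stab_R hap (RLe.mul e t') h1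
  obtain ⟨s2, hs2⟩ := stab_L hap (LLe.mul S e) h2
  refine ⟨t2 * e * s2, ?_⟩
  calc g * (t2 * e * s2) * g = (S * e * t') * (t2 * e * s2) * (S * e * t') := by rw [← hg']
    _ = S * (e * t' * t2) * e * (s2 * (S * e)) * t' := by simp only [mul_assoc]
    _ = S * e * e * e * t' := by rw [← ht2, ← hs2]
    _ = S * e * t' := by rw [mul_assoc (S * e), hee, mul_assoc S, hee]
    _ = g := hg'.symm

/-- A name together with realised data. -/
structure Pnt (C : Ctx) where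
  D : Dt
  re : C.Re D
  u : Nm

namespace Pnt

variable {C : Ctx}

/-- rank -/
noncomputable def r (x : Pnt C) : ℝ := Ctx.rk x.D x.u
/-- type to the right, up to a rational -/
noncomputable def R (x : Pnt C) (k : ℕ) (q : ℚ) : T k := tauD x.D k x.u (.rat q)
/-- type to the left, from a rational -/
noncomputable def Lf (x : Pnt C) (k : ℕ) (q : ℚ) : T k := tauD x.D k (.rat q) x.u
/-- colour -/
def c (x : Pnt C) : Bool := colD x.D x.u

lemma r_nonneg (x : Pnt C) : 0 ≤ x.r := Ctx.rk_nonneg _ _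
lemma r_le_one (x : Pnt C) : x.r ≤ 1 := Ctx.rk_le_one _ _

lemma q_nonneg (x : Pnt C) {q : ℚ} (h : x.r < q) : 0 ≤ q := by
  have := x.r_nonneg.trans h.le
  exact_mod_cast this
lemma q_le_one (x : Pnt C) {q : ℚ} (h : (q : ℝ) < x.r) : q ≤ 1 := by
  have := h.le.trans x.r_le_one
  exact_mod_cast this

lemma lt_rat (x : Pnt C) {q : ℚ} (h1 : x.r < q) (h3 : q ≤ 1) : ltD x.D x.u (.rat q) :=
  Ctx.lt_of_rk_lt x.re h3 h1
lemma rat_lt (x : Pnt C) {q : ℚ} (h0 : 0 ≤ q) (h1 : q < x.r) : ltD x.D (.rat q) x.u :=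
  Ctx.lt_of_lt_rk x.re h0 h1

lemma R_split (x : Pnt C) (k : ℕ) {q q' : ℚ} (h1 : x.r < q) (h2 : q < q') (h3 : q' ≤ 1) :
    x.R k q' = x.R k q * cls k [C.cR q] * C.I k q q' := by
  unfold R
  rw [RealD.T1 x.re k (x.lt_rat h1 (h2.le.trans h3)) (Ctx.rat_lt x.re (x.q_nonneg h1) h2 h3),
    Ctx.I_eq x.re, Ctx.cR_eq x.re]

lemma L_split (x : Pnt C) (k : ℕ) {q q' : ℚ} (h0 : 0 ≤ q) (h1 : q < q') (h2 : q' < x.r) :
    x.Lf k q = C.I k q q' * cls k [C.cR q'] * x.Lf k q' := by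
  unfold Lf
  rw [RealD.T1 x.re k (Ctx.rat_lt x.re h0 h1 (x.q_le_one h2)) (x.rat_lt (h0.trans h1.le) h2),
    Ctx.I_eq x.re, Ctx.cR_eq x.re]

lemma I_split (x : Pnt C) (k : ℕ) {q q' : ℚ} (h0 : 0 ≤ q) (h1 : q < x.r) (h2 : x.r < q')
    (h3 : q' ≤ 1) : C.I k q q' = x.Lf k q * cls k [x.c] * x.R k q' := by
  unfold Lf R c
  rw [← RealD.T1 x.re k (x.rat_lt h0 h1) (x.lt_rat h2 h3), Ctx.I_eq x.re]

lemma R_T0 (x : Pnt C) (k : ℕ) {q : ℚ} (h1 : x.r < q) (h3 : q ≤ 1) :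
    pr k (x.R (k + 1) q) = x.R k q := RealD.T0 x.re k (x.lt_rat h1 h3)

lemma L_T0 (x : Pnt C) (k : ℕ) {q : ℚ} (h0 : 0 ≤ q) (h1 : q < x.r) :
    pr k (x.Lf (k + 1) q) = x.Lf k q := RealD.T0 x.re k (x.rat_lt h0 h1)

/-- below `s` in J, to the right -/
lemma halo_R_J (x : Pnt C) (hg : C.Gen x.r) {k : ℕ} {s : T k} {a a' : ℚ}
    (h : C.Good k x.r s a a') : JLe (x.R k a') s := by
  obtain ⟨r', h1, h2, b, b', hb⟩ := ((hg.2.2.2 k s h.Jat).1 a' h.2.2.1)
  obtain ⟨q1, g1, g2⟩ := exists_rat_btwn (max_lt h1 hb.2.1)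
  obtain ⟨q2, g3, g4⟩ := exists_rat_btwn (lt_min h2 hb.2.2.1)
  have g1a : x.r < q1 := (le_max_left _ _).trans_lt g1
  have g1b : b ≤ q1 := by
    have := (le_max_right _ _).trans g1.le
    exact_mod_cast this
  have g4a : q2 < a' := by
    have := g4.trans_le (min_le_left _ _)
    exact_mod_cast this
  have g4b : q2 ≤ b' := by
    have := g4.le.trans (min_le_right _ _)
    exact_mod_cast this
  have hq12 : q1 < q2 := by exact_mod_cast g2.trans g3
  have hI := hb.2.2.2.2 q1 q2 g1b g2 g3 g4b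
  have hq1 : q1 < a' := hq12.trans g4a
  rw [x.R_split k g1a hq1 h.2.2.2.1]
  exact (LLe.mul _ _).J.trans ((Ctx.I_JLe k (x.q_nonneg g1a) le_rfl hq12 g4a.le h.2.2.2.1).trans
    hI.1)

/-- below `s` in J, to the left -/
lemma halo_L_J (x : Pnt C) (hg : C.Gen x.r) {k : ℕ} {s : T k} {a a' : ℚ}
    (h : C.Good k x.r s a a') : JLe (x.Lf k a) s := by
  obtain ⟨r', h1, h2, b, b', hb⟩ := ((hg.2.2.2 k s h.Jat).2 a h.2.1)
  obtain ⟨q1, g1, g2⟩ := exists_rat_btwn (max_lt h1 hb.2.1)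
  obtain ⟨q2, g3, g4⟩ := exists_rat_btwn (lt_min h2 hb.2.2.1)
  have g1a : a < q1 := by
    have := (le_max_left _ _).trans_lt g1
    exact_mod_cast this
  have g1b : b ≤ q1 := by
    have := (le_max_right _ _).trans g1.le
    exact_mod_cast this
  have g4a : q2 < x.r := g4.trans_le (min_le_left _ _)
  have g4b : q2 ≤ b' := by
    have := g4.le.trans (min_le_right _ _)
    exact_mod_cast this
  have hq12 : q1 < q2 := by exact_mod_cast g2.trans g3
  have hI := hb.2.2.2.2 q1 q2 g1b g2 g3 g4b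
  have hq2 : a < q2 := g1a.trans hq12
  rw [x.L_split k h.1 hq2 g4a, mul_assoc]
  exact (RLe.mul _ _).J.trans ((Ctx.I_JLe k h.1 g1a.le hq12 le_rfl (x.q_le_one g4a)).trans
    hI.1)

/-- the interval of a good pair has class `s` -/
lemma good_I {k : ℕ} {r : ℝ} {s : T k} {a a' : ℚ} (h : C.Good k r s a a') :
    JEq (C.I k a a') s := h.2.2.2.2 a a' le_rfl h.2.1 h.2.2.1 le_rfl

lemma halo_R (x : Pnt C) (hg : C.Gen x.r) {k : ℕ} {s : T k} {a a' : ℚ}
    (h : C.Good k x.r s a a') :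
    JEq (x.R k a') s ∧ LLe (x.R k a') (C.I k a a') ∧ LLe (C.I k a a') (x.R k a') := by
  have h1 : LLe (C.I k a a') (x.R k a') := by
    rw [x.I_split k h.1 h.2.1 h.2.2.1 h.2.2.2.1]
    exact LLe.mul _ _
  have hJ := x.halo_R_J hg h
  have h2 : JLe (x.R k a') (C.I k a a') := hJ.trans (good_I h).2
  exact ⟨⟨hJ, (good_I h).2.trans h1.J⟩, stab_L (aperT k) h1 h2, h1⟩

lemma halo_L (x : Pnt C) (hg : C.Gen x.r) {k : ℕ} {s : T k} {a a' : ℚ}
    (h : C.Good k x.r s a a') :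
    JEq (x.Lf k a) s ∧ RLe (x.Lf k a) (C.I k a a') ∧ RLe (C.I k a a') (x.Lf k a) := by
  have h1 : RLe (C.I k a a') (x.Lf k a) := by
    rw [x.I_split k h.1 h.2.1 h.2.2.1 h.2.2.2.1, mul_assoc]
    exact RLe.mul _ _
  have hJ := x.halo_L_J hg h
  have h2 : JLe (x.Lf k a) (C.I k a a') := hJ.trans (good_I h).2
  exact ⟨⟨hJ, (good_I h).2.trans h1.J⟩, stab_R (aperT k) h1 h2, h1⟩

/-- the interval of a good pair at a generic point is regular -/
lemma good_reg {k : ℕ} {r : ℝ} (hg : C.Gen r) {s : T k} {a a' : ℚ} (h : C.Good k r s a a') :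
    ∃ z, C.I k a a' * z * C.I k a a' = C.I k a a' := by
  obtain ⟨r1, h1, h2, b, b', hb⟩ := ((hg.2.2.2 k s h.Jat).2 a h.2.1)
  obtain ⟨r2, h3, h4, d, d', hd⟩ := ((hg.2.2.2 k s h.Jat).1 a' h.2.2.1)
  obtain ⟨q1, g1, g2⟩ := exists_rat_btwn (max_lt h1 hb.2.1)
  obtain ⟨q1', g3, g4⟩ := exists_rat_btwn (lt_min h2 hb.2.2.1)
  obtain ⟨q2, g5, g6⟩ := exists_rat_btwn (max_lt h3 hd.2.1)
  obtain ⟨q2', g7, g8⟩ := exists_rat_btwn (lt_min h4 hd.2.2.1)
  have e1 : a < q1 := by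
    have := (le_max_left _ _).trans_lt g1
    exact_mod_cast this
  have e1b : b ≤ q1 := by
    have := (le_max_right _ _).trans g1.le
    exact_mod_cast this
  have e2 : q1 < q1' := by exact_mod_cast g2.trans g3
  have e2a : (q1' : ℝ) < r := g4.trans_le (min_le_left _ _)
  have e2b : q1' ≤ b' := by
    have := g4.le.trans (min_le_right _ _)
    exact_mod_cast this
  have e3 : r < q2 := (le_max_left _ _).trans_lt g5
  have e3b : d ≤ q2 := by
    have := (le_max_right _ _).trans g5.le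
    exact_mod_cast this
  have e4 : q2 < q2' := by exact_mod_cast g6.trans g7
  have e5 : q2' < a' := by
    have := g8.trans_le (min_le_left _ _)
    exact_mod_cast this
  have e5b : q2' ≤ d' := by
    have := g8.le.trans (min_le_right _ _)
    exact_mod_cast this
  have e23 : q1' < q2 := by exact_mod_cast e2a.trans e3
  have hI1 := hb.2.2.2.2 q1 q1' e1b g2 g3 e2b
  have hI2 := hd.2.2.2.2 q2 q2' e3b g6 g7 e5b
  have hI := h.2.2.2.2 q1 q2' e1.le ((by exact_mod_cast e2 : (q1 : ℝ) < q1').trans e2a)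
    (e3.trans (by exact_mod_cast e4)) e5.le
  have hgI := good_I h
  have h01 : 0 ≤ q1 := h.1.trans e1.le
  have h02 : 0 ≤ q1' := h01.trans e2.le
  have h12 : q2' ≤ 1 := e5.le.trans h.2.2.2.1
  have hprod : C.I k q1 q2' = C.I k q1 q1' * (cls k [C.cR q1'] * (C.I k q1' q2 *
      cls k [C.cR q2]) * C.I k q2 q2') := by
    rw [Ctx.I_T1 k h01 e2 (e23.trans e4) h12, Ctx.I_T1 k h02 e23 e4 h12]
    simp only [mul_assoc]
  refine reg_of (aperT k) (a := C.I k q1 q1') (b := (cls k [C.cR q1'] * (C.I k q1' q2 *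
      cls k [C.cR q2]) * C.I k q2 q2')) (hI1.1.trans hgI.2) (hgI.1.trans hI1.2)
      ((LLe.mul _ _).J.trans (hI2.1.trans hgI.2)) ?_
  rw [← hprod]
  exact hgI.1.trans hI.2

/-- R-classes do not depend on the right end of the good pair -/
lemma halo_R_R (x : Pnt C) (hg : C.Gen x.r) {k : ℕ} {s : T k} {a a' b' : ℚ}
    (h : C.Good k x.r s a a') (h1 : x.r < b') (h2 : b' ≤ a') :
    RLe (x.R k a') (x.R k b') ∧ RLe (x.R k b') (x.R k a') := by
  rcases h2.eq_or_lt with h2 | h2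
  · rw [h2]; exact ⟨RLe.refl _, RLe.refl _⟩
  · have e1 : RLe (x.R k a') (x.R k b') := by
      rw [x.R_split k h1 h2 h.2.2.2.1, mul_assoc]
      exact RLe.mul _ _
    have hb : C.Good k x.r s a b' := h.mono le_rfl h.2.1 h1 h2.le
    exact ⟨e1, stab_R (aperT k) e1 ((x.halo_R hg hb).1.trans (x.halo_R hg h).1.symm).1⟩

lemma halo_L_L (x : Pnt C) (hg : C.Gen x.r) {k : ℕ} {s : T k} {a a' b : ℚ}
    (h : C.Good k x.r s a a') (h1 : b < x.r) (h2 : a ≤ b) :
    LLe (x.Lf k a) (x.Lf k b) ∧ LLe (x.Lf k b) (x.Lf k a) := by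
  rcases h2.eq_or_lt with h2 | h2
  · rw [h2]; exact ⟨LLe.refl _, LLe.refl _⟩
  · have e1 : LLe (x.Lf k a) (x.Lf k b) := by
      rw [x.L_split k h.1 h2 h1]
      exact LLe.mul _ _
    have hb : C.Good k x.r s b a' := h.mono h2.le h1 h.2.2.1 le_rfl
    exact ⟨e1, stab_L (aperT k) e1 ((x.halo_L hg hb).1.trans (x.halo_L hg h).1.symm).1⟩

/-- `m` is the type between `x` and `y`, two points of the same generic rank. -/
def IsB (k : ℕ) (x y : Pnt C) (m : T k) : Prop :=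
  ∃ (s : T k) (a a' : ℚ), C.Good k x.r s a a' ∧ Box (x.R k a') (y.Lf k a) m

lemma exists_IsB (k : ℕ) {x y : Pnt C} (hg : C.Gen x.r) (hxy : x.r = y.r) :
    ∃ m, IsB k x y m := by
  obtain ⟨s, a, a', h⟩ := C.exists_Jat k hg.1 hg.2.1
  have h' : C.Good k y.r s a a' := hxy ▸ h
  have hx := x.halo_R hg h
  have hy := y.halo_L (hxy ▸ hg) h'
  obtain ⟨m, hm⟩ := Box.exists hx.2.1 hx.2.2 hy.2.1 hy.2.2 (good_reg hg h)
  exact ⟨m, s, a, a', h, hm⟩

/-- the box property for all good pairs -/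
lemma IsB.all {k : ℕ} {x y : Pnt C} (hg : C.Gen x.r) (hxy : x.r = y.r) {m : T k}
    (hm : IsB k x y m) {s : T k} {a a' : ℚ} (h : C.Good k x.r s a a') :
    Box (x.R k a') (y.Lf k a) m := by
  obtain ⟨s1, b, b', h1, hB⟩ := hm
  have hg' : C.Gen y.r := hxy ▸ hg
  have e1 : ((max a b : ℚ) : ℝ) < x.r := by
    rw [Rat.cast_max]; exact max_lt h.2.1 h1.2.1
  have e2 : x.r < ((min a' b' : ℚ) : ℝ) := by
    rw [Rat.cast_min]; exact lt_min h.2.2.1 h1.2.2.1
  have c1 := x.halo_R_R hg h1 e2 (min_le_right _ _)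
  have c2 := y.halo_L_L hg' (hxy ▸ h1) (hxy ▸ e1) (le_max_right _ _)
  have c3 := x.halo_R_R hg h e2 (min_le_left _ _)
  have c4 := y.halo_L_L hg' (hxy ▸ h) (hxy ▸ e1) (le_max_left _ _)
  exact hB.congr (c1.1.trans c3.2) (c3.1.trans c1.2) (c2.1.trans c4.2) (c4.1.trans c2.2)

lemma IsB.unique {k : ℕ} {x y : Pnt C} (hg : C.Gen x.r) (hxy : x.r = y.r) {m m' : T k}
    (hm : IsB k x y m) (hm' : IsB k x y m') : m = m' := by
  obtain ⟨s, a, a', h⟩ := C.exists_Jat k hg.1 hg.2.1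
  exact (hm.all hg hxy h).unique (aperT k) (hm'.all hg hxy h)

lemma IsB.pr {k : ℕ} {x y : Pnt C} (hxy : x.r = y.r) {m : T (k + 1)} (hm : IsB (k + 1) x y m) :
    IsB k x y (pr k m) := by
  obtain ⟨s, a, a', h, hB⟩ := hm
  refine ⟨_, a, a', h.pr, ?_⟩
  have := hB.map (Pool.Agent.Work.MP_44611a_co.pr k)
  rw [x.R_T0 k h.2.2.1 h.2.2.2.1, y.L_T0 k h.1 (hxy ▸ h.2.1)] at this
  exact this

/-- the class of a box element -/
lemma IsB.J {k : ℕ} {x y : Pnt C} (hg : C.Gen x.r) {m : T k} (hm : IsB k x y m) {s : T k}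
    (hs : C.Jat k x.r s) : JEq m s := by
  obtain ⟨s1, a, a', h, hB⟩ := hm
  have h1 : JEq m (x.R k a') := ⟨hB.1.J, hB.2.1.J⟩
  exact (h1.trans (x.halo_R hg h).1).trans (h.Jat.unique hs)

end Pnt

end Pool.Agent.Work.MP_44611a_co
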