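import Pool.Agent.Work.MP_44611a_co.Meas

set_option autoImplicit false
set_option linter.all false

/-! The limit law of a random position. -/

namespace Pool.Agent.Work.MP_44611a_co

open Filter Topology MeasureTheory

/-- uniform measure -/
noncomputable def unif (X : Type) [Fintype X] [Nonempty X] [MeasurableSpace X] : Measure X :=
  (PMF.uniformOfFintype X).toMeasure

instance (X : Type) [Fintype X] [Nonempty X] [MeasurableSpace X] :
    IsProbabilityMeasure (unif X) := by
  unfold unif; infer_instance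

lemma unif_apply (X : Type) [Fintype X] [Nonempty X] [MeasurableSpace X]
    [DiscreteMeasurableSpace X] (A : Set X) :
    unif X A = (Nat.card A : ENNReal) / (Nat.card X : ENNReal) := by
  classical
  unfold unif
  rw [PMF.toMeasure_uniformOfFintype_apply A (MeasurableSet.of_discrete), Nat.card_eq_fintype_card,
    Nat.card_eq_fintype_card]

lemma unif_real (X : Type) [Fintype X] [Nonempty X] [MeasurableSpace X]
    [DiscreteMeasurableSpace X] (A : Set X) :
    (unif X A).toReal = (Nat.card A : ℝ) / (Nat.card X : ℝ) := by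
  rw [unif_apply, ENNReal.toReal_div, ENNReal.toReal_natCast, ENNReal.toReal_natCast]

/-- positions of the letters as points -/
def ptEquiv (N : ℕ) : Fin N ≃ Pt (Fin (N + 2)) where
  toFun i := ⟨⟨i.1 + 1, by omega⟩, by
    constructor
    · rw [Fin.lt_def]; exact Nat.succ_pos _
    · rw [Fin.lt_def]
      change i.1 + 1 < N + 1
      omega⟩
  invFun x := ⟨x.1.1 - 1, by
    have h1 := x.2.1
    have h2 := x.2.2
    rw [Fin.lt_def] at h1 h2
    change 0 < x.1.1 at h1
    change x.1.1 < N + 1 at h2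
    omega⟩
  left_inv i := by
    apply Fin.ext
    simp
  right_inv x := by
    apply Subtype.ext
    apply Fin.ext
    have h1 := x.2.1
    rw [Fin.lt_def] at h1
    change 0 < x.1.1 at h1
    change x.1.1 - 1 + 1 = x.1.1
    omega

lemma pt_pos {N : ℕ} (x : Pt (Fin (N + 2))) : 1 ≤ x.1.1 ∧ x.1.1 ≤ N := by
  have h1 := x.2.1
  have h2 := x.2.2
  rw [Fin.lt_def] at h1 h2
  change 0 < x.1.1 at h1
  change x.1.1 < N + 1 at h2
  omega

lemma card_pt (N : ℕ) : Nat.card (Pt (Fin (N + 2))) = N := by
  rw [← Nat.card_congr (ptEquiv N), Nat.card_eq_fintype_card, Fintype.card_fin]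

lemma card_lt (N P : ℕ) (hP : P ≤ N + 1) :
    Nat.card {x : Pt (Fin (N + 2)) | x.1.1 < P} = P - 1 := by
  have e : {x : Pt (Fin (N + 2)) | x.1.1 < P} ≃ Fin (P - 1) :=
    { toFun := fun x => ⟨x.1.1.1 - 1, by
        have h1 := pt_pos x.1
        have h2 : x.1.1.1 < P := x.2
        omega⟩
      invFun := fun i => ⟨ptEquiv N ⟨i.1, by omega⟩, by
        have : i.1 + 1 < P := by omega
        exact this⟩
      left_inv := by
        intro x
        have h1 := pt_pos x.1
        apply Subtype.ext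
        apply Subtype.ext
        apply Fin.ext
        change x.1.1.1 - 1 + 1 = x.1.1.1
        omega
      right_inv := by
        intro i
        apply Fin.ext
        change i.1 + 1 - 1 = i.1
        omega }
  rw [Nat.card_congr e, Nat.card_eq_fintype_card, Fintype.card_fin]

instance (N : ℕ) : DiscreteMeasurableSpace (Pt (Fin (N + 2))) := inferInstance

namespace Ctx

variable (C : Ctx)

/-- positions of the `n`-th word -/
abbrev Xn (n : ℕ) : Type := Pt (Fin ((C.w n).length + 2))

instance (n : ℕ) : Nonempty (C.Xn n) := by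
  have := C.hpos n
  exact ⟨ptEquiv _ ⟨0, by omega⟩⟩

/-- data of a position -/
noncomputable def datn (n : ℕ) (x : C.Xn n) : Dt := dat (C.w n) x.1.1

/-- law of the data of a random position -/
noncomputable def Qn (n : ℕ) : ProbabilityMeasure Dt :=
  ⟨(unif (C.Xn n)).map (C.datn n), Measure.isProbabilityMeasure_map (Measurable.of_discrete).aemeasurable⟩

/-- limit law -/
noncomputable def Q : ProbabilityMeasure Dt := ((C.U).map C.Qn).lim

lemma Q_tendsto : Tendsto C.Qn (C.U : Filter ℕ) (𝓝 C.Q) := Ultrafilter.le_nhds_lim ((C.U).map C.Qn)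

lemma Q_clopen {A : Set Dt} (hA : IsClopen A) :
    Tendsto (fun n => ((unif (C.Xn n)) (C.datn n ⁻¹' A)).toReal) (C.U : Filter ℕ)
      (𝓝 ((C.Q : Measure Dt) A).toReal) := by
  have h1 := ProbabilityMeasure.tendsto_measure_of_null_frontier_of_tendsto' C.Q_tendsto
    (E := A) (by rw [hA.frontier_eq]; exact measure_empty)
  have h2 := (ENNReal.tendsto_toReal (measure_ne_top (C.Q : Measure Dt) A)).comp h1
  refine h2.congr fun n => ?_
  change (((unif (C.Xn n)).map (C.datn n)) A).toReal = _
  rw [Measure.map_apply Measurable.of_discrete hA.1.measurableSet]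

lemma Q_dep_null (F : Finset At) (A : Set Dt)
    (hF : ∀ D D', (∀ α ∈ F, D α = D' α) → (D ∈ A → D' ∈ A)) (hA : ∀ D, C.Re D → D ∉ A) :
    (C.Q : Measure Dt) A = 0 := by
  have hcl : IsClopen A := isClopen_of_dep F (fun D => D ∈ A) hF
  have hev : ∀ᶠ n in (C.U : Filter ℕ), ∀ x : C.Xn n, C.datn n x ∉ A := by
    by_contra hcon
    rw [← Ultrafilter.eventually_not] at hcon
    push Not at hcon
    classical
    let pos : ℕ → ℕ := fun n => if h : ∃ x : C.Xn n, C.datn n x ∈ A then (Classical.choose h).1.1 else 0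
    have hpos : ∀ᶠ n in (C.U : Filter ℕ), 1 ≤ pos n ∧ pos n ≤ (C.w n).length := by
      filter_upwards [hcon] with n hn
      have : pos n = (Classical.choose hn).1.1 := dif_pos hn
      rw [this]
      exact pt_pos _
    have hre := C.limD_real pos hpos
    have hall := (Filter.eventually_all_finset F).mpr (fun α _ => C.limD_eq pos α)
    obtain ⟨n, hn1, hn2⟩ := (hall.and hcon).exists
    have hp : pos n = (Classical.choose hn2).1.1 := dif_pos hn2
    apply hA _ hre
    apply hF (dat (C.w n) (pos n)) _ (fun α hα => (hn1 α hα).symm)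
    rw [hp]
    exact Classical.choose_spec hn2
  have h1 := C.Q_clopen hcl
  have h2 : Tendsto (fun n => ((unif (C.Xn n)) (C.datn n ⁻¹' A)).toReal) (C.U : Filter ℕ)
      (𝓝 0) := by
    refine Tendsto.congr' ?_ tendsto_const_nhds
    filter_upwards [hev] with n hn
    have : C.datn n ⁻¹' A = ∅ := by
      ext x
      simp only [Set.mem_preimage, Set.mem_empty_iff_false, iff_false]
      exact hn x
    rw [this, measure_empty, ENNReal.toReal_zero]
  have h3 := tendsto_nhds_unique h1 h2
  exact (ENNReal.toReal_eq_zero_iff _).mp h3 |>.resolve_right (measure_ne_top _ _)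

lemma Q_Re : (C.Q : Measure Dt) {D | ¬ C.Re D} = 0 := by
  have : {D : Dt | ¬ C.Re D} = ⋃ F : Finset At, {D | ¬ ∀ᶠ n in (C.U : Filter ℕ),
      ∃ x, 1 ≤ x ∧ x ≤ (C.w n).length ∧ ∀ α ∈ F, D α = dat (C.w n) x α} := by
    ext D
    rw [Set.mem_iUnion]
    change ¬ (∀ F : Finset At, _) ↔ _
    push Not
    rfl
  rw [this, measure_iUnion_null_iff]
  intro F
  apply C.Q_dep_null F
  · intro D D' hDD hD
    intro hD'
    apply hD
    filter_upwards [hD'] with n hn
    obtain ⟨x, h1, h2, h3⟩ := hn
    exact ⟨x, h1, h2, fun α hα => by rw [hDD α hα, h3 α hα]⟩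
  · intro D hD hcon
    exact hcon (hD F)

lemma tendsto_aux {q : ℚ} (h0 : 0 ≤ q) (h1 : q ≤ 1) :
    Tendsto (fun n => (((ratPos (C.w n).length q - 1 : ℕ) : ℝ) / ((C.w n).length : ℝ)))
      (C.U : Filter ℕ) (𝓝 (q : ℝ)) := by
  have hN : Tendsto (fun n => ((C.w n).length : ℝ)) (C.U : Filter ℕ) atTop :=
    tendsto_natCast_atTop_atTop.comp C.hlen
  have hinv : Tendsto (fun n => (2 : ℝ) / ((C.w n).length : ℝ)) (C.U : Filter ℕ) (𝓝 0) :=
    Tendsto.div_atTop tendsto_const_nhds hN
  have hlow : Tendsto (fun n => (q : ℝ) - 2 / ((C.w n).length : ℝ)) (C.U : Filter ℕ) (𝓝 q) := by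
    have := (tendsto_const_nhds (x := (q : ℝ))).sub hinv
    simpa using this
  have hup : Tendsto (fun n => (q : ℝ) + 2 / ((C.w n).length : ℝ)) (C.U : Filter ℕ) (𝓝 q) := by
    have := (tendsto_const_nhds (x := (q : ℝ))).add hinv
    simpa using this
  have q0 : (0 : ℝ) ≤ q := by exact_mod_cast h0
  have q1 : (q : ℝ) ≤ 1 := by exact_mod_cast h1
  refine tendsto_of_tendsto_of_tendsto_of_le_of_le hlow hup ?_ ?_
  · intro n
    have hpos : (0 : ℝ) < ((C.w n).length : ℝ) := by exact_mod_cast C.hpos n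
    dsimp only
    rw [le_div_iff₀ hpos, sub_mul, div_mul_cancel₀ _ hpos.ne']
    have hP : ⌊q * (((C.w n).length : ℚ) + 1)⌋₊ ≤ (C.w n).length + 1 := by
      apply Nat.floor_le_of_le
      push_cast
      have : (0 : ℚ) ≤ ((C.w n).length : ℚ) + 1 := by positivity
      nlinarith
    have hr : ratPos (C.w n).length q = ⌊q * (((C.w n).length : ℚ) + 1)⌋₊ := min_eq_left hP
    rw [hr]
    have h2 := Nat.lt_floor_add_one (q * (((C.w n).length : ℚ) + 1))
    have h2' : (q : ℝ) * (((C.w n).length : ℝ) + 1) <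
        (⌊q * (((C.w n).length : ℚ) + 1)⌋₊ : ℝ) + 1 := by exact_mod_cast h2
    have h3 : (⌊q * (((C.w n).length : ℚ) + 1)⌋₊ : ℝ) - 1 ≤
        ((⌊q * (((C.w n).length : ℚ) + 1)⌋₊ - 1 : ℕ) : ℝ) := by
      rw [sub_le_iff_le_add]
      have h4 : ⌊q * (((C.w n).length : ℚ) + 1)⌋₊ ≤ (⌊q * (((C.w n).length : ℚ) + 1)⌋₊ - 1) + 1 := by
        omega
      exact_mod_cast h4
    nlinarith
  · intro n
    have hpos : (0 : ℝ) < ((C.w n).length : ℝ) := by exact_mod_cast C.hpos n
    dsimp only
    rw [div_le_iff₀ hpos, add_mul, div_mul_cancel₀ _ hpos.ne']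
    have hr : ratPos (C.w n).length q ≤ ⌊q * (((C.w n).length : ℚ) + 1)⌋₊ := min_le_left _ _
    have h2 : (⌊q * (((C.w n).length : ℚ) + 1)⌋₊ : ℚ) ≤ q * (((C.w n).length : ℚ) + 1) :=
      Nat.floor_le (by positivity)
    have h2' : (⌊q * (((C.w n).length : ℚ) + 1)⌋₊ : ℝ) ≤ (q : ℝ) * (((C.w n).length : ℝ) + 1) := by
      exact_mod_cast h2
    have h3 : ((ratPos (C.w n).length q - 1 : ℕ) : ℝ) ≤
        (⌊q * (((C.w n).length : ℚ) + 1)⌋₊ : ℝ) := by
      exact_mod_cast (Nat.sub_le _ _).trans hr
    nlinarith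

lemma Q_cdf {q : ℚ} (h0 : 0 ≤ q) (h1 : q ≤ 1) :
    ((C.Q : Measure Dt) {D | ltD D .var (.rat q)}).toReal = q := by
  refine tendsto_nhds_unique (C.Q_clopen (isClopen_ltD .var (.rat q))) ?_
  refine (C.tendsto_aux h0 h1).congr fun n => ?_
  have : C.datn n ⁻¹' {D | ltD D .var (.rat q)} =
      {x : C.Xn n | x.1.1 < ratPos (C.w n).length q} := by
    ext x
    change dat (C.w n) x.1.1 (.inl (.var, .rat q, ⟨0, 1⟩)) = true ↔ _
    simp only [dat, decide_eq_true_eq]
    change (x.1.1 < ratPos (C.w n).length q ∧ _) ↔ x.1.1 < ratPos (C.w n).length q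
    rw [and_iff_left_iff_imp]
    intro _
    exact Subsingleton.elim _ _
  rw [this, unif_real, card_lt _ (ratPos (C.w n).length q) (min_le_right _ _), card_pt]

lemma Q_rank_null (r : ℝ) : (C.Q : Measure Dt) {D | C.Re D ∧ rk D .var = r} = 0 := by
  by_cases hr0 : r < 0
  · have : {D : Dt | C.Re D ∧ rk D .var = r} = ∅ := by
      ext D
      simp only [Set.mem_empty_iff_false, iff_false]
      rintro ⟨_, h⟩
      have := rk_nonneg D .var
      linarith
    rw [this, measure_empty]
  push Not at hr0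
  by_cases hr1 : 1 < r
  · have : {D : Dt | C.Re D ∧ rk D .var = r} = ∅ := by
      ext D
      simp only [Set.mem_empty_iff_false, iff_false]
      rintro ⟨_, h⟩
      have := rk_le_one D .var
      linarith
    rw [this, measure_empty]
  push Not at hr1
  have key : ∀ ε > 0, ((C.Q : Measure Dt) {D | C.Re D ∧ rk D .var = r}).toReal ≤ ε := by
    intro ε hε
    rcases hr0.eq_or_lt with h0 | h0
    · -- r = 0
      obtain ⟨q, g1, g2⟩ := exists_rat_btwn (show (0 : ℝ) < min 1 ε from lt_min one_pos hε)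
      have q0 : 0 ≤ q := by exact_mod_cast g1.le
      have q1 : q ≤ 1 := by exact_mod_cast (g2.le.trans (min_le_left _ _))
      have hsub : {D : Dt | C.Re D ∧ rk D .var = r} ⊆ {D | ltD D .var (.rat q)} := by
        rintro D ⟨hD, hr⟩
        exact lt_of_rk_lt hD q1 (by rw [hr, ← h0]; exact g1)
      calc ((C.Q : Measure Dt) {D | C.Re D ∧ rk D .var = r}).toReal
          ≤ ((C.Q : Measure Dt) {D | ltD D .var (.rat q)}).toReal :=
            ENNReal.toReal_mono (measure_ne_top _ _) (measure_mono hsub)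
        _ = q := C.Q_cdf q0 q1
        _ ≤ ε := g2.le.trans (min_le_right _ _)
    · rcases hr1.eq_or_lt with h1 | h1
      · -- r = 1
        obtain ⟨q, g1, g2⟩ := exists_rat_btwn (show max (0 : ℝ) (1 - ε) < 1 from
          max_lt one_pos (by linarith))
        have q0 : 0 ≤ q := by exact_mod_cast ((le_max_left _ _).trans g1.le)
        have q1 : q ≤ 1 := by exact_mod_cast g2.le
        have hsub : {D : Dt | C.Re D ∧ rk D .var = r} ⊆ {D | ltD D .var (.rat q)}ᶜ := by
          rintro D ⟨hD, hr⟩ hcon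
          have := le_rk q0 q1 (lt_of_lt_rk hD q0 (by rw [hr, h1]; exact g2))
          exact RealD.lt_asymm hD hcon (lt_of_lt_rk hD q0 (by rw [hr, h1]; exact g2))
        have hc : ((C.Q : Measure Dt) ({D | ltD D .var (.rat q)}ᶜ)).toReal = 1 - q := by
          rw [prob_compl_eq_one_sub (meas_ltD _ _), ENNReal.toReal_sub_of_le prob_le_one
            ENNReal.one_ne_top, C.Q_cdf q0 q1, ENNReal.toReal_one]
        calc ((C.Q : Measure Dt) {D | C.Re D ∧ rk D .var = r}).toReal
            ≤ ((C.Q : Measure Dt) ({D | ltD D .var (.rat q)}ᶜ)).toReal :=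
              ENNReal.toReal_mono (measure_ne_top _ _) (measure_mono hsub)
          _ = 1 - q := hc
          _ ≤ ε := by linarith [(le_max_right _ _).trans g1.le]
      · obtain ⟨q, g1, g2⟩ := exists_rat_btwn (show max (0 : ℝ) (r - ε / 2) < r from
          max_lt h0 (by linarith))
        obtain ⟨q', g3, g4⟩ := exists_rat_btwn (show r < min (1 : ℝ) (r + ε / 2) from
          lt_min h1 (by linarith))
        have q0 : 0 ≤ q := by exact_mod_cast ((le_max_left _ _).trans g1.le)
        have q1 : q' ≤ 1 := by exact_mod_cast (g4.le.trans (min_le_left _ _))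
        have hqq : q < q' := by exact_mod_cast g2.trans g3
        have hq1 : q ≤ 1 := hqq.le.trans q1
        have hq0' : 0 ≤ q' := q0.trans hqq.le
        have hsub : {D : Dt | C.Re D ∧ rk D .var = r} ⊆
            {D | ltD D .var (.rat q')} \ {D | ltD D .var (.rat q)} := by
          rintro D ⟨hD, hr⟩
          refine ⟨lt_of_rk_lt hD q1 (by rw [hr]; exact g3), fun hcon => ?_⟩
          exact RealD.lt_asymm hD hcon (lt_of_lt_rk hD q0 (by rw [hr]; exact g2))
        have hss : (C.Q : Measure Dt) {D | C.Re D ∧ rk D .var = r} +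
            (C.Q : Measure Dt) ({D | ltD D .var (.rat q)} ∩ {D | C.Re D}) ≤
            (C.Q : Measure Dt) {D | ltD D .var (.rat q')} := by
          rw [← measure_union _ ((meas_ltD _ _).inter C.meas_Re)]
          · apply measure_mono
            rintro D (hD | ⟨hD, hre⟩)
            · exact (hsub hD).1
            · exact RealD.lt_trans hre hD (rat_lt hre q0 hqq q1)
          · rw [Set.disjoint_left]
            rintro D hD hD'
            exact (hsub hD).2 hD'.1
        have hcap : (C.Q : Measure Dt) ({D | ltD D .var (.rat q)} ∩ {D | C.Re D}) =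
            (C.Q : Measure Dt) {D | ltD D .var (.rat q)} := by
          apply measure_inter_conull
          exact C.Q_Re
        rw [hcap] at hss
        have h5 := ENNReal.toReal_mono (measure_ne_top _ _) hss
        rw [ENNReal.toReal_add (measure_ne_top _ _) (measure_ne_top _ _), C.Q_cdf q0 hq1,
          C.Q_cdf hq0' q1] at h5
        have e1 : r - ε / 2 < q := (le_max_right _ _).trans_lt g1
        have e2 : (q' : ℝ) < r + ε / 2 := g4.trans_le (min_le_right _ _)
        linarith
  have h0 : ((C.Q : Measure Dt) {D | C.Re D ∧ rk D .var = r}).toReal ≤ 0 :=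
    le_of_forall_pos_le_add fun ε hε => by simpa using key ε hε
  have h1 := le_antisymm h0 ENNReal.toReal_nonneg
  exact (ENNReal.toReal_eq_zero_iff _).mp h1 |>.resolve_right (measure_ne_top _ _)

/-- generic data -/
def GD : Set Dt := {D | C.Re D ∧ C.Gen (rk D .var)}

lemma meas_GD : MeasurableSet C.GD := C.meas_Re.inter ((meas_rk .var) C.meas_Gen)

lemma Q_GD : (C.Q : Measure Dt) (C.GD)ᶜ = 0 := by
  have hsub : (C.GD)ᶜ ⊆ {D | ¬ C.Re D} ∪ ({D | C.Re D ∧ rk D .var = 0} ∪
      ({D | C.Re D ∧ rk D .var = 1} ∪ ⋃ r ∈ {r : ℝ | 0 < r ∧ r < 1 ∧ ¬ C.Gen r},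
        {D | C.Re D ∧ rk D .var = r})) := by
    intro D hD
    by_cases h : C.Re D
    · right
      by_cases h0 : rk D .var = 0
      · exact Or.inl ⟨h, h0⟩
      · right
        by_cases h1 : rk D .var = 1
        · exact Or.inl ⟨h, h1⟩
        · right
          rw [Set.mem_iUnion₂]
          refine ⟨rk D .var, ⟨lt_of_le_of_ne (rk_nonneg _ _) (Ne.symm h0),
            lt_of_le_of_ne (rk_le_one _ _) h1, fun hg => hD ⟨h, hg⟩⟩, h, rfl⟩
    · exact Or.inl h
  apply measure_mono_null hsub
  rw [measure_union_null_iff, measure_union_null_iff, measure_union_null_iff]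
  refine ⟨C.Q_Re, C.Q_rank_null 0, C.Q_rank_null 1, ?_⟩
  rw [measure_biUnion_null_iff C.bad_countable]
  intro r _
  exact C.Q_rank_null r

end Ctx

end Pool.Agent.Work.MP_44611a_co
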