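import Pool.Agent.Work.MP_44611a_co.Code

set_option autoImplicit false
set_option linter.all false

/-! The grid and the random point in the limit structure. -/

namespace Pool.Agent.Work.MP_44611a_co

open Filter Topology MeasureTheory

namespace Ctx

variable {C : Ctx}

lemma Eqv'.symm {p p' : C.P} (h : Eqv' p p') : Eqv' p' p :=
  ⟨h.1.symm, by rw [← key_eq_dd h.1]; exact ⟨h.2.2, h.2.1⟩⟩

lemma Eqv'.trans {p p' p'' : C.P} (h : Eqv' p p') (h' : Eqv' p' p'') : Eqv' p p'' :=
  ⟨h.1.trans h'.1, RealD.eq_trans p.2.re h.2 (by rw [key_eq_dd h.1]; exact h'.2)⟩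

variable (C) in
/-- the element of a closed name -/
noncomputable def clE (u : Nm) (hu : Closed u) : C.E := Classical.choose (exists_canon (C.clP u hu))

lemma clE_spec (u : Nm) (hu : Closed u) : Eqv' (C.clP u hu) (C.clE u hu).1 :=
  Classical.choose_spec (exists_canon (C.clP u hu))

lemma clE_congr {u v : Nm} (hu : Closed u) (hv : Closed v) (h : eqD C.D0 u v) :
    C.clE u hu = C.clE v hv := by
  apply canon_unique
  refine (clE_spec u hu).symm.trans (Eqv'.trans ?_ (clE_spec v hv))
  refine ⟨?_, h⟩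
  rw [key_eq_iff]
  exact ⟨rk_congr C.D0_real h, rfl, rfl, rfl⟩

lemma Ty_closed (k : ℕ) {u v : Nm} (hu : Closed u) (hv : Closed v) (h : ltD C.D0 u v) :
    Ty k (C.clP u hu) (C.clP v hv) (tauD C.D0 k u v) := by
  have hle : C.rho (C.clP u hu).1 ≤ C.rho (C.clP v hv).1 := rk_mono' C.D0_real h
  rcases hle.lt_or_eq with hlt | heq
  · obtain ⟨q, g1, g2⟩ := exists_rat_btwn hlt
    have q0 := (pt (C.clP u hu)).q_nonneg g1
    have q1 := (pt (C.clP v hv)).q_le_one g2
    have e1 := (pt (C.clP u hu)).ltR_of g1 q1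
    have e2 := (pt (C.clP v hv)).Rlt_of q0 g2
    refine Or.inl ⟨hlt, q, q0, q1, e1, e2, ?_⟩
    have e3 := RealD.T1 C.D0_real k (u := u) (v := .rat q) (t := v) e1 e2
    rw [e3]
    rfl
  · refine Or.inr (Or.inl ⟨?_, rfl, h, rfl⟩)
    rw [key_eq_iff]
    exact ⟨heq, rfl, rfl, rfl⟩

lemma clE_lt_iff {u v : Nm} (hu : Closed u) (hv : Closed v) :
    C.clE u hu < C.clE v hv ↔ ltD C.D0 u v := by
  have main : ∀ {u v : Nm} (hu : Closed u) (hv : Closed v), ltD C.D0 u v →
      C.clE u hu < C.clE v hv := fun {u v} hu hv h =>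
    (E_lt_iff _ _).mpr ((Ty_closed 0 hu hv h).congr (clE_spec u hu) (clE_spec v hv)).lt
  constructor
  · intro h
    by_contra hc
    by_cases hc' : ltD C.D0 v u
    · exact lt_asymm h (main hv hu hc')
    · exact absurd (clE_congr hu hv ⟨hc, hc'⟩) h.ne
  · exact main hu hv

lemma clE_tau (k : ℕ) {u v : Nm} (hu : Closed u) (hv : Closed v) (h : ltD C.D0 u v) :
    (C.S).tau k (C.clE u hu) (C.clE v hv) = tauD C.D0 k u v :=
  tauE_eq ((Ty_closed k hu hv h).congr (clE_spec u hu) (clE_spec v hv))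

lemma clE_col {u : Nm} (hu : Closed u) : (C.S).col (C.clE u hu) = colD C.D0 u :=
  (clE_spec u hu).c.symm

lemma eqD_rat0 {D : Dt} (hD : C.Re D) : eqD D (.rat 0) .bot := by
  obtain ⟨n, x, h⟩ := RealD.ex hD {.rat 0, .bot} (Set.toFinite _) 0
  rw [RealD.eq_iff_ev hD h (by simp) (by simp)]
  exact ratPos_zero _

lemma eqD_rat1 {D : Dt} (hD : C.Re D) : eqD D (.rat 1) .top := by
  obtain ⟨n, x, h⟩ := RealD.ex hD {.rat 1, .top} (Set.toFinite _) 0
  rw [RealD.eq_iff_ev hD h (by simp) (by simp)]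
  exact ratPos_one _

lemma closed_rat (q : ℚ) : Closed (.rat q) := trivial

variable (C) in
/-- the grid in the limit -/
noncomputable def gridE (j : ℕ) (i : Fin (j + 1)) : C.E := C.clE (.rat (gq j i)) (closed_rat _)

lemma gridE_zero (j : ℕ) : C.gridE j 0 = ⊥ := by
  have h := eqD_rat0 C.D0_real
  have : eqD C.D0 (.rat (gq j 0)) .bot := by rw [gq_zero]; exact h
  exact clE_congr (C := C) (u := .rat (gq j 0)) (v := .bot) (closed_rat _) trivial this

lemma gridE_last (j : ℕ) (hj : 0 < j) : C.gridE j (Fin.last j) = ⊤ := by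
  have h := eqD_rat1 C.D0_real
  have : eqD C.D0 (.rat (gq j (Fin.last j))) .top := by rw [gq_last j hj]; exact h
  exact clE_congr (C := C) (u := .rat (gq j (Fin.last j))) (v := .top) (closed_rat _) trivial this

/-- the grids are similar -/
lemma grid_sim (k j : ℕ) : ∀ᶠ n in (C.U : Filter ℕ),
    TS.Sim C.S (TSw (C.w n)) k (C.gridE j) (gridW (C.w n) j) := by
  filter_upwards [RealD.approx C.D0_real (Set.range (fun i => Nm.rat (gq j i)))
    (Set.finite_range _) k] with n hn
  obtain ⟨x, h1, h2, h3, h4⟩ := hn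
  refine ⟨?_, ?_, ?_⟩
  · intro i i'
    have e := (h4 (.rat (gq j i)) ⟨i, rfl⟩ (.rat (gq j i')) ⟨i', rfl⟩).1
    unfold gridE
    rw [clE_lt_iff, e]
    rfl
  · intro i
    unfold gridE
    rw [clE_col]
    exact h3 (.rat (gq j i)) ⟨i, rfl⟩
  · intro i i' hii
    have e := h4 (.rat (gq j i)) ⟨i, rfl⟩ (.rat (gq j i')) ⟨i', rfl⟩
    unfold gridE at hii ⊢
    rw [clE_lt_iff] at hii
    rw [clE_tau k (closed_rat _) (closed_rat _) hii]
    exact e.2 hii k le_rfl

/-- the point of the limit structure given by generic data -/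
noncomputable def elP (D : C.GD) : C.P :=
  ⟨(D.1, 0, 0, .var), Or.inr ⟨D.2.1, D.2.2, fun _ => rfl, D.2.1, rfl⟩⟩

lemma rho_elP (D : C.GD) : C.rho (elP D).1 = rk D.1 .var := rfl

/-- the element -/
noncomputable def elE (D : C.GD) : C.E := ⟨elP D, fun v _ _ => by
  change code .var ≤ code v
  rw [code_var]
  exact Nat.zero_le _⟩

lemma bot_lt_elE (D : C.GD) : ⊥ < elE D := by
  rw [E_lt_iff]
  left
  rw [key_lt_iff]
  left
  change C.rho C.botE.1.1 < rk D.1 .var
  rw [rho_botE]
  exact D.2.2.1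

lemma elE_lt_top (D : C.GD) : elE D < ⊤ := by
  rw [E_lt_iff]
  left
  rw [key_lt_iff]
  left
  change rk D.1 .var < C.rho C.topE.1.1
  rw [rho_topE]
  exact D.2.2.2.1

/-- the point -/
noncomputable def elX (D : C.GD) : Pt C.E := ⟨elE D, bot_lt_elE D, elE_lt_top D⟩

lemma meas_elX : Measurable (elX (C := C)) := by
  apply Measurable.subtype_mk
  apply Measurable.subtype_mk
  apply Measurable.subtype_mk
  exact measurable_subtype_coe.prodMk measurable_const

lemma rat_lt_el {D : C.GD} {q : ℚ} (h0 : 0 ≤ q) (h1 : q ≤ 1) :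
    C.clE (.rat q) (closed_rat q) < elE D ↔ ltD D.1 (.rat q) .var := by
  have hr : C.rho (C.clE (.rat q) (closed_rat q)).1.1 = q := by
    rw [← (key_eq_iff.mp (clE_spec (C := C) (.rat q) (closed_rat q)).1).1]
    exact rk_rat C.D0_real h0 h1
  constructor
  · intro h
    have hle := rho_le_of_key (show C.key (C.clE (.rat q) (closed_rat q)).1.1 ≤ C.key (elE D).1.1 by
      rcases (E_lt_iff _ _).mp h with h | h
      · exact h.le
      · exact h.1.le)
    rw [hr] at hle
    change (q : ℝ) ≤ rk D.1 .var at hle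
    apply lt_of_lt_rk D.2.1 h0
    refine lt_of_le_of_ne hle fun hc => ?_
    have hg := D.2.2
    rw [← hc] at hg
    exact not_gen_rat h0 h1 hg
  · intro h
    have hty := Ty_rat_left 0 (elP D) h0 h1 h
    exact (E_lt_iff _ _).mpr (hty.congr (clE_spec (C := C) (.rat q) (closed_rat q)) (Eqv'.refl _)).lt

lemma el_lt_rat {D : C.GD} {q : ℚ} (h0 : 0 ≤ q) (h1 : q ≤ 1) :
    elE D < C.clE (.rat q) (closed_rat q) ↔ ltD D.1 .var (.rat q) := by
  have hr : C.rho (C.clE (.rat q) (closed_rat q)).1.1 = q := by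
    rw [← (key_eq_iff.mp (clE_spec (C := C) (.rat q) (closed_rat q)).1).1]
    exact rk_rat C.D0_real h0 h1
  constructor
  · intro h
    have hle := rho_le_of_key (show C.key (elE D).1.1 ≤ C.key (C.clE (.rat q) (closed_rat q)).1.1 by
      rcases (E_lt_iff _ _).mp h with h | h
      · exact h.le
      · exact h.1.le)
    rw [hr] at hle
    change rk D.1 .var ≤ (q : ℝ) at hle
    apply lt_of_rk_lt D.2.1 h1
    refine lt_of_le_of_ne hle fun hc => ?_
    have hg := D.2.2
    rw [hc] at hg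
    exact not_gen_rat h0 h1 hg
  · intro h
    have hty := Ty_rat_right 0 (elP D) h0 h1 h
    exact (E_lt_iff _ _).mpr (hty.congr (Eqv'.refl _) (clE_spec (C := C) (.rat q) (closed_rat q))).lt

lemma gcode_limit (k j : ℕ) (hj : 0 < j) (D : C.GD) :
    gcode C.S k (C.gridE j) (elX D) = gcD k j D.1 := by
  have e1 : ∀ i, C.gridE j i < (elX D).1 ↔ ltD D.1 (.rat (gq j i)) .var := fun i =>
    rat_lt_el (gq_nonneg j i) (gq_le_one j hj i)
  have e2 : ∀ i, (elX D).1 < C.gridE j i ↔ ltD D.1 .var (.rat (gq j i)) := fun i =>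
    el_lt_rat (gq_nonneg j i) (gq_le_one j hj i)
  unfold gcode gcD
  classical
  refine Prod.ext ?_ (Prod.ext ?_ (Prod.ext ?_ (Prod.ext ?_ ?_)))
  · funext i
    exact decide_eq_decide.mpr (e1 i)
  · funext i
    exact decide_eq_decide.mpr (e2 i)
  · rfl
  · funext i
    by_cases h : C.gridE j i < (elX D).1
    · change (if C.gridE j i < (elX D).1 then _ else _) = (if _ then _ else _)
      rw [if_pos h, if_pos ((e1 i).mp h)]
      have hty := Ty_rat_left k (elP D) (gq_nonneg j i) (gq_le_one j hj i) ((e1 i).mp h)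
      exact tauE_eq (hty.congr (clE_spec (C := C) (.rat (gq j i)) (closed_rat _)) (Eqv'.refl _))
    · change (if C.gridE j i < (elX D).1 then _ else _) = (if _ then _ else _)
      rw [if_neg h, if_neg (fun h' => h ((e1 i).mpr h'))]
  · funext i
    by_cases h : (elX D).1 < C.gridE j i
    · change (if (elX D).1 < C.gridE j i then _ else _) = (if _ then _ else _)
      rw [if_pos h, if_pos ((e2 i).mp h)]
      have hty := Ty_rat_right k (elP D) (gq_nonneg j i) (gq_le_one j hj i) ((e2 i).mp h)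
      exact tauE_eq (hty.congr (Eqv'.refl _) (clE_spec (C := C) (.rat (gq j i)) (closed_rat _)))
    · change (if (elX D).1 < C.gridE j i then _ else _) = (if _ then _ else _)
      rw [if_neg h, if_neg (fun h' => h ((e2 i).mpr h'))]

lemma GD_nonempty : (C.GD).Nonempty := by
  by_contra h
  rw [Set.not_nonempty_iff_eq_empty] at h
  have h1 := C.Q_GD
  rw [h, Set.compl_empty, measure_univ] at h1
  exact one_ne_zero h1

variable (C)

instance : Nonempty (Pt C.E) := ⟨elX ⟨GD_nonempty.some, GD_nonempty.some_mem⟩⟩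

open Classical in
/-- the random point -/
noncomputable def elF (D : Dt) : Pt C.E :=
  if h : D ∈ C.GD then elX ⟨D, h⟩ else Classical.choice inferInstance

lemma meas_elF : Measurable C.elF := by
  classical
  unfold elF
  exact Measurable.dite (s := C.GD) meas_elX (g := fun _ => Classical.choice inferInstance)
    measurable_const C.meas_GD

/-- the measure of the modeling -/
noncomputable def mu : Measure (Pt C.E) := (C.Q : Measure Dt).map C.elF

instance : IsProbabilityMeasure C.mu := Measure.isProbabilityMeasure_map C.meas_elF.aemeasurable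

lemma mu_apply {A : Set (Pt C.E)} (hA : MeasurableSet A) (B : Set Dt)
    (hAB : ∀ D : C.GD, elX D ∈ A ↔ D.1 ∈ B) : C.mu A = (C.Q : Measure Dt) B := by
  unfold mu
  rw [Measure.map_apply C.meas_elF hA]
  apply measure_congr
  have h : ∀ᵐ D ∂(C.Q : Measure Dt), D ∈ C.GD := by
    rw [ae_iff]
    exact C.Q_GD
  filter_upwards [h] with D hD
  apply propext
  change C.elF D ∈ A ↔ D ∈ B
  unfold elF
  rw [dif_pos hD]
  exact hAB ⟨D, hD⟩

end Ctx

end Pool.Agent.Work.MP_44611a_co
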