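import Pool.Agent.Work.MP_44611a_co.Struct

set_option autoImplicit false
set_option linter.all false

/-! Measurability of the limit structure. -/

namespace Pool.Agent.Work.MP_44611a_co

open Filter Topology MeasureTheory

section gen

variable {X Y Z : Type} [MeasurableSpace X] [MeasurableSpace Y] [MeasurableSpace Z] [Countable Y]
  [MeasurableSingletonClass Y]

lemma meas_ct {n : X → Y} (hn : Measurable n) {A : Y → Set X} (hA : ∀ y, MeasurableSet (A y)) :
    MeasurableSet {x | x ∈ A (n x)} := by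
  have : {x | x ∈ A (n x)} = ⋃ y, (n ⁻¹' {y} ∩ A y) := by
    ext x
    simp only [Set.mem_iUnion, Set.mem_inter_iff, Set.mem_preimage, Set.mem_singleton_iff]
    constructor
    · intro h
      exact ⟨n x, rfl, h⟩
    · rintro ⟨y, rfl, h⟩
      exact h
  rw [this]
  exact MeasurableSet.iUnion fun y => (hn (measurableSet_singleton y)).inter (hA y)

lemma meas_fun_ct {n : X → Y} (hn : Measurable n) {f : Y → X → Z} (hf : ∀ y, Measurable (f y)) :
    Measurable (fun x => f (n x) x) := by
  intro s hs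
  exact meas_ct hn (A := fun y => f y ⁻¹' s) (fun y => hf y hs)

end gen

instance (k : ℕ) : MeasurableSpace (T k) := ⊤
instance (k : ℕ) : DiscreteMeasurableSpace (T k) := ⟨fun _ => trivial⟩

lemma meas_ltD (u v : Nm) : MeasurableSet {D : Dt | ltD D u v} :=
  (Ctx.isClopen_ltD u v).1.measurableSet

lemma meas_tauD (k : ℕ) (u v : Nm) : Measurable (fun D : Dt => tauD D k u v) := by
  classical
  let G : (T k → Bool) → T k := fun f => if h : ∃ s : T k, f s = true then Classical.choose h else 1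
  have h1 : (fun D : Dt => tauD D k u v) =
      G ∘ (fun D : Dt => fun s : T k => D (.inl (u, v, ⟨k, s⟩))) := rfl
  rw [h1]
  apply (measurable_of_countable G).comp
  rw [measurable_pi_iff]
  intro s
  exact measurable_pi_apply _

lemma meas_colD (u : Nm) : Measurable (fun D : Dt => colD D u) := measurable_pi_apply _

lemma meas_rk (u : Nm) : Measurable (fun D : Dt => Ctx.rk D u) := by
  unfold Ctx.rk
  apply Measurable.iSup
  intro q
  apply Measurable.ite
  · exact (MeasurableSet.const _).inter ((MeasurableSet.const _).inter (meas_ltD _ _))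
  · exact measurable_const
  · exact measurable_const

namespace Ctx

variable (C : Ctx)

lemma meas_Re : MeasurableSet {D : Dt | C.Re D} := C.isClosed_Re.measurableSet

lemma meas_Gen : MeasurableSet {r : ℝ | C.Gen r} := by
  have : {r : ℝ | C.Gen r} = Set.Ioo 0 1 \ {r : ℝ | 0 < r ∧ r < 1 ∧ ¬ C.Gen r} := by
    ext r
    constructor
    · intro h
      exact ⟨⟨h.1, h.2.1⟩, fun h' => h'.2.2 h⟩
    · rintro ⟨h1, h2⟩
      by_contra h
      exact h2 ⟨h1.1, h1.2, h⟩
  rw [this]
  exact measurableSet_Ioo.diff C.bad_countable.measurableSet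

lemma meas_Good (k : ℕ) (s : T k) (a a' : ℚ) : MeasurableSet {r : ℝ | C.Good k r s a a'} := by
  have : {r : ℝ | C.Good k r s a a'} = {r | 0 ≤ a ∧ a' ≤ 1} ∩ (Set.Ioi (a : ℝ) ∩ (Set.Iio (a' : ℝ) ∩
      ⋂ q : ℚ, ⋂ q' : ℚ, (Set.Iic (q : ℝ) ∪ (Set.Ici (q' : ℝ) ∪
        {r | a ≤ q → q' ≤ a' → JEq (C.I k q q') s})))) := by
    ext r
    simp only [Set.mem_inter_iff, Set.mem_Ioi, Set.mem_Iio, Set.mem_iInter, Set.mem_union,
      Set.mem_Iic, Set.mem_Ici]
    constructor
    · rintro ⟨h1, h2, h3, h4, h5⟩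
      refine ⟨⟨h1, h4⟩, h2, h3, fun q q' => ?_⟩
      by_cases g1 : r ≤ q
      · exact Or.inl g1
      · by_cases g2 : (q' : ℝ) ≤ r
        · exact Or.inr (Or.inl g2)
        · exact Or.inr (Or.inr fun g3 g4 => h5 q q' g3 (not_le.mp g1) (not_le.mp g2) g4)
    · rintro ⟨⟨h1, h4⟩, h2, h3, h5⟩
      refine ⟨h1, h2, h3, h4, fun q q' g1 g2 g3 g4 => ?_⟩
      rcases h5 q q' with h | h | h
      · exact absurd h (not_le.mpr g2)
      · exact absurd h (not_le.mpr g3)
      · exact h g1 g4
  rw [this]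
  refine (MeasurableSet.const _).inter (measurableSet_Ioi.inter (measurableSet_Iio.inter ?_))
  exact MeasurableSet.iInter fun q => MeasurableSet.iInter fun q' =>
    measurableSet_Iic.union (measurableSet_Ici.union (MeasurableSet.const _))

lemma meas_ddf (m : ℕ) : Measurable (fun D => C.ddf D m) := by
  cases m with
  | zero => exact measurable_id
  | succ m => exact (C.W_meas m).comp (meas_rk .var)

lemma meas_dd : Measurable (fun p : Raw => C.dd p) := by
  exact meas_fun_ct (n := fun p : Raw => p.2.1) (measurable_fst.comp measurable_snd)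
    (f := fun m p => C.ddf p.1 m) (fun m => (C.meas_ddf m).comp measurable_fst)

lemma meas_nm : Measurable (fun p : Raw => p.2.2.2) :=
  measurable_snd.comp (measurable_snd.comp measurable_snd)

lemma meas_rho : Measurable (fun p : Raw => C.rho p) := by
  exact meas_fun_ct (n := fun p : Raw => p.2.2.2) meas_nm
    (f := fun u p => rk (C.dd p) u) (fun u => (meas_rk u).comp C.meas_dd)

lemma meas_zz : Measurable (fun p : Raw => zz p.2.1 p.2.2.1) := by
  have h : Measurable (fun x : ℕ × ℚ => zz x.1 x.2) := measurable_of_countable _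
  exact h.comp ((measurable_fst.comp measurable_snd).prodMk
    (measurable_fst.comp (measurable_snd.comp measurable_snd)))

lemma meas_Clo : MeasurableSet {p : Raw | C.Clo p} := by
  have h1 : MeasurableSet {p : Raw | p.1 = C.D0} := measurable_fst (measurableSet_singleton C.D0)
  have h2 : MeasurableSet {p : Raw | p.2.1 = 0} :=
    (measurable_fst.comp measurable_snd) (measurableSet_singleton 0)
  have h3 : MeasurableSet {p : Raw | p.2.2.1 = 0} :=
    (measurable_fst.comp (measurable_snd.comp measurable_snd)) (measurableSet_singleton 0)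
  have h4 : MeasurableSet {p : Raw | Closed p.2.2.2} :=
    meas_nm (show MeasurableSet {u : Nm | Closed u} from trivial)
  exact h1.inter (h2.inter (h3.inter h4))

lemma meas_Gn : MeasurableSet {p : Raw | C.Gn p} := by
  have h1 : MeasurableSet {p : Raw | C.Re p.1} := measurable_fst C.meas_Re
  have h2 : MeasurableSet {p : Raw | C.Gen (rk p.1 .var)} :=
    ((meas_rk .var).comp measurable_fst) C.meas_Gen
  have h3 : MeasurableSet {p : Raw | p.2.1 = 0 → p.2.2.1 = 0} := by
    have : Measurable (fun p : Raw => (p.2.1, p.2.2.1)) :=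
      (measurable_fst.comp measurable_snd).prodMk
        (measurable_fst.comp (measurable_snd.comp measurable_snd))
    exact this (Set.to_countable {x : ℕ × ℚ | x.1 = 0 → x.2 = 0}).measurableSet
  have h4 : MeasurableSet {p : Raw | C.Re (C.dd p)} := C.meas_dd C.meas_Re
  have h5 : MeasurableSet {p : Raw | rk (C.dd p) p.2.2.2 = rk p.1 .var} :=
    measurableSet_eq_fun C.meas_rho ((meas_rk .var).comp measurable_fst)
  exact h1.inter (h2.inter (h3.inter (h4.inter h5)))

lemma meas_Val : MeasurableSet {p : Raw | C.Val p} := C.meas_Clo.union C.meas_Gn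

lemma meas_Canon : MeasurableSet {p : Raw | C.Canon p} := by
  have : {p : Raw | C.Canon p} = ⋂ v : Nm, {p : Raw | eqD (C.dd p) p.2.2.2 v →
      (Closed p.2.2.2 → Closed v) → code p.2.2.2 ≤ code v} := by
    ext p
    rw [Set.mem_iInter]
    rfl
  rw [this]
  apply MeasurableSet.iInter
  intro v
  apply meas_ct (n := fun p : Raw => p.2.2.2) meas_nm
    (A := fun u => {p : Raw | eqD (C.dd p) u v → (Closed u → Closed v) → code u ≤ code v})
  intro u
  have h1 : MeasurableSet {p : Raw | eqD (C.dd p) u v} :=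
    C.meas_dd ((meas_ltD u v).compl.inter (meas_ltD v u).compl)
  have h2 : {p : Raw | eqD (C.dd p) u v → (Closed u → Closed v) → code u ≤ code v} =
      {p : Raw | eqD (C.dd p) u v}ᶜ ∪ {p : Raw | (Closed u → Closed v) → code u ≤ code v} := by
    ext p
    exact imp_iff_not_or
  rw [h2]
  exact h1.compl.union (MeasurableSet.const _)

instance : StandardBorelSpace Nm := inferInstance
instance : StandardBorelSpace C.P := C.meas_Val.standardBorel
instance : StandardBorelSpace C.E :=
  (measurable_subtype_coe C.meas_Canon).standardBorel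

/-- pairs of raw elements -/
abbrev RR : Type := Raw × Raw

lemma meas_keylt : MeasurableSet {x : RR | C.key x.1 < C.key x.2} := by
  have : {x : RR | C.key x.1 < C.key x.2} = {x : RR | C.rho x.1 < C.rho x.2} ∪
      ({x : RR | C.rho x.1 = C.rho x.2} ∩ ({x : RR | embD x.1.1 < embD x.2.1} ∪
      ({x : RR | embD x.1.1 = embD x.2.1} ∩
        {x : RR | zz x.1.2.1 x.1.2.2.1 < zz x.2.2.1 x.2.2.2.1}))) := by
    ext x
    exact key_lt_iff
  rw [this]
  have r1 : Measurable (fun x : RR => C.rho x.1) := C.meas_rho.comp measurable_fst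
  have r2 : Measurable (fun x : RR => C.rho x.2) := C.meas_rho.comp measurable_snd
  have e1 : Measurable (fun x : RR => embD x.1.1) :=
    embD_spec.measurable.comp (measurable_fst.comp measurable_fst)
  have e2 : Measurable (fun x : RR => embD x.2.1) :=
    embD_spec.measurable.comp (measurable_fst.comp measurable_snd)
  have z1 : Measurable (fun x : RR => zz x.1.2.1 x.1.2.2.1) := meas_zz.comp measurable_fst
  have z2 : Measurable (fun x : RR => zz x.2.2.1 x.2.2.2.1) := meas_zz.comp measurable_snd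
  exact (measurableSet_lt r1 r2).union ((measurableSet_eq_fun r1 r2).inter
    ((measurableSet_lt e1 e2).union ((measurableSet_eq_fun e1 e2).inter (measurableSet_lt z1 z2))))

lemma meas_keyeq : MeasurableSet {x : RR | C.key x.1 = C.key x.2} := by
  have : {x : RR | C.key x.1 = C.key x.2} = {x : RR | C.key x.1 < C.key x.2}ᶜ ∩
      {x : RR | C.key x.2 < C.key x.1}ᶜ := by
    ext x
    simp only [Set.mem_inter_iff, Set.mem_compl_iff]
    change C.key x.1 = C.key x.2 ↔ ¬ (C.key x.1 < C.key x.2) ∧ ¬ (C.key x.2 < C.key x.1)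
    rw [not_lt, not_lt]
    exact ⟨fun h => ⟨h.ge, h.le⟩, fun h => le_antisymm h.2 h.1⟩
  rw [this]
  exact C.meas_keylt.compl.inter (measurable_swap C.meas_keylt).compl

lemma meas_pairD {B : Dt → Nm → Nm → Prop} (hB : ∀ u v, MeasurableSet {D | B D u v}) :
    MeasurableSet {x : RR | B (C.dd x.1) x.1.2.2.2 x.2.2.2.2} := by
  apply meas_ct (n := fun x : RR => x.1.2.2.2) (meas_nm.comp measurable_fst)
    (A := fun u => {x : RR | B (C.dd x.1) u x.2.2.2.2})
  intro u
  apply meas_ct (n := fun x : RR => x.2.2.2.2) (meas_nm.comp measurable_snd)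
    (A := fun v => {x : RR | B (C.dd x.1) u v})
  intro v
  exact (C.meas_dd.comp measurable_fst) (hB u v)

lemma meas_oneD {B : Dt → Nm → Prop} (hB : ∀ u, MeasurableSet {D | B D u}) :
    MeasurableSet {x : Raw | B (C.dd x) x.2.2.2} := by
  apply meas_ct (n := fun x : Raw => x.2.2.2) meas_nm
    (A := fun u => {x : Raw | B (C.dd x) u})
  intro u
  exact C.meas_dd (hB u)

lemma meas_lt : MeasurableSet {x : RR | C.lt x.1 x.2} :=
  C.meas_keylt.union (C.meas_keyeq.inter (C.meas_pairD (fun u v => meas_ltD u v)))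

lemma meas_R (k : ℕ) (q : ℚ) : Measurable (fun p : Raw => tauD (C.dd p) k p.2.2.2 (.rat q)) := by
  exact meas_fun_ct (n := fun p : Raw => p.2.2.2) meas_nm
    (f := fun u p => tauD (C.dd p) k u (.rat q)) (fun u => (meas_tauD k u _).comp C.meas_dd)

lemma meas_L (k : ℕ) (q : ℚ) : Measurable (fun p : Raw => tauD (C.dd p) k (.rat q) p.2.2.2) := by
  exact meas_fun_ct (n := fun p : Raw => p.2.2.2) meas_nm
    (f := fun u p => tauD (C.dd p) k (.rat q) u) (fun u => (meas_tauD k _ u).comp C.meas_dd)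

/-- raw version of the type relation -/
def TyR (k : ℕ) (t : T k) (x : RR) : Prop :=
  (C.rho x.1 < C.rho x.2 ∧ ∃ q : ℚ, 0 ≤ q ∧ q ≤ 1 ∧ ltD (C.dd x.1) x.1.2.2.2 (.rat q) ∧
    ltD (C.dd x.2) (.rat q) x.2.2.2.2 ∧
    t = tauD (C.dd x.1) k x.1.2.2.2 (.rat q) * cls k [C.cR q] *
      tauD (C.dd x.2) k (.rat q) x.2.2.2.2) ∨
  (C.key x.1 = C.key x.2 ∧ ltD (C.dd x.1) x.1.2.2.2 x.2.2.2.2 ∧
    tauD (C.dd x.1) k x.1.2.2.2 x.2.2.2.2 = t) ∨
  (C.rho x.1 = C.rho x.2 ∧ C.key x.1 < C.key x.2 ∧ ∃ (s : T k) (a a' : ℚ),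
    C.Good k (C.rho x.1) s a a' ∧ Box (tauD (C.dd x.1) k x.1.2.2.2 (.rat a'))
      (tauD (C.dd x.2) k (.rat a) x.2.2.2.2) t)

lemma meas_two (k : ℕ) (q q' : ℚ) (Φ : T k → T k → Prop) :
    MeasurableSet {x : RR | Φ (tauD (C.dd x.1) k x.1.2.2.2 (.rat q))
      (tauD (C.dd x.2) k (.rat q') x.2.2.2.2)} := by
  have h1 : Measurable (fun x : RR => (tauD (C.dd x.1) k x.1.2.2.2 (.rat q),
      tauD (C.dd x.2) k (.rat q') x.2.2.2.2)) :=
    ((C.meas_R k q).comp measurable_fst).prodMk ((C.meas_L k q').comp measurable_snd)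
  exact h1 (Set.to_countable {y : T k × T k | Φ y.1 y.2}).measurableSet

lemma meas_TyR (k : ℕ) (t : T k) : MeasurableSet {x : RR | C.TyR k t x} := by
  have r1 : Measurable (fun x : RR => C.rho x.1) := C.meas_rho.comp measurable_fst
  have r2 : Measurable (fun x : RR => C.rho x.2) := C.meas_rho.comp measurable_snd
  refine MeasurableSet.union ?_ (MeasurableSet.union ?_ ?_)
  · apply (measurableSet_lt r1 r2).inter
    have : {x : RR | ∃ q : ℚ, 0 ≤ q ∧ q ≤ 1 ∧ ltD (C.dd x.1) x.1.2.2.2 (.rat q) ∧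
        ltD (C.dd x.2) (.rat q) x.2.2.2.2 ∧
        t = tauD (C.dd x.1) k x.1.2.2.2 (.rat q) * cls k [C.cR q] *
        tauD (C.dd x.2) k (.rat q) x.2.2.2.2} = ⋃ q : ℚ, ({x : RR | 0 ≤ q} ∩ ({x : RR | q ≤ 1} ∩
        ({x : RR | ltD (C.dd x.1) x.1.2.2.2 (.rat q)} ∩
        ({x : RR | ltD (C.dd x.2) (.rat q) x.2.2.2.2} ∩
        {x : RR | t = tauD (C.dd x.1) k x.1.2.2.2 (.rat q) * cls k [C.cR q] *
        tauD (C.dd x.2) k (.rat q) x.2.2.2.2})))) := by
      ext x
      rw [Set.mem_iUnion]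
      rfl
    change MeasurableSet {x : RR | ∃ q : ℚ, 0 ≤ q ∧ q ≤ 1 ∧ ltD (C.dd x.1) x.1.2.2.2 (.rat q) ∧
        ltD (C.dd x.2) (.rat q) x.2.2.2.2 ∧
        t = tauD (C.dd x.1) k x.1.2.2.2 (.rat q) * cls k [C.cR q] *
        tauD (C.dd x.2) k (.rat q) x.2.2.2.2}
    rw [this]
    apply MeasurableSet.iUnion
    intro q
    refine (MeasurableSet.const _).inter ((MeasurableSet.const _).inter (MeasurableSet.inter ?_
      (MeasurableSet.inter ?_ ?_)))
    · exact measurable_fst (C.meas_oneD (B := fun D u => ltD D u (.rat q)) (fun u => meas_ltD u _))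
    · exact measurable_snd (C.meas_oneD (B := fun D u => ltD D (.rat q) u) (fun u => meas_ltD _ u))
    · exact C.meas_two k q q (fun a b => t = a * cls k [C.cR q] * b)
  · exact C.meas_keyeq.inter ((C.meas_pairD (fun u v => meas_ltD u v)).inter
      (C.meas_pairD (B := fun D u v => tauD D k u v = t)
        (fun u v => meas_tauD k u v (measurableSet_singleton t))))
  · refine (measurableSet_eq_fun r1 r2).inter (C.meas_keylt.inter ?_)
    have : {x : RR | ∃ (s : T k) (a a' : ℚ),
        C.Good k (C.rho x.1) s a a' ∧ Box (tauD (C.dd x.1) k x.1.2.2.2 (.rat a'))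
        (tauD (C.dd x.2) k (.rat a) x.2.2.2.2) t} = ⋃ (s : T k), ⋃ (a : ℚ), ⋃ (a' : ℚ),
        ({x : RR | C.Good k (C.rho x.1) s a a'} ∩ {x : RR | Box (tauD (C.dd x.1) k x.1.2.2.2
        (.rat a')) (tauD (C.dd x.2) k (.rat a) x.2.2.2.2) t}) := by
      ext x
      simp only [Set.mem_iUnion]
      rfl
    change MeasurableSet {x : RR | ∃ (s : T k) (a a' : ℚ),
        C.Good k (C.rho x.1) s a a' ∧ Box (tauD (C.dd x.1) k x.1.2.2.2 (.rat a'))
        (tauD (C.dd x.2) k (.rat a) x.2.2.2.2) t}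
    rw [this]
    refine MeasurableSet.iUnion fun s => MeasurableSet.iUnion fun a => MeasurableSet.iUnion fun a' =>
      MeasurableSet.inter ?_ ?_
    · exact r1 (C.meas_Good k s a a')
    · exact C.meas_two k a' a (fun x y => Box x y t)

lemma Ty_iff (k : ℕ) (t : T k) (p p' : C.P) : Ty k p p' t ↔ C.TyR k t (p.1, p'.1) := by
  unfold TyR
  constructor
  · rintro (h | ⟨h1, h2⟩ | h)
    · exact Or.inl h
    · exact Or.inr (Or.inl ⟨h1, h2.2.1, h2.2.2.symm⟩)
    · exact Or.inr (Or.inr h)
  · rintro (h | ⟨h1, h2⟩ | h)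
    · exact Or.inl h
    · exact Or.inr (Or.inl ⟨h1, key_eq_dd h1, h2.1, h2.2.symm⟩)
    · exact Or.inr (Or.inr h)

/-- coercion of pairs -/
def cpr (x : C.E × C.E) : RR := (x.1.1.1, x.2.1.1)

lemma meas_cpr : Measurable C.cpr :=
  (measurable_subtype_coe.comp (measurable_subtype_coe.comp measurable_fst)).prodMk
    (measurable_subtype_coe.comp (measurable_subtype_coe.comp measurable_snd))

lemma meas_ltE : MeasurableSet {x : C.E × C.E | x.1 < x.2} := C.meas_cpr C.meas_lt

lemma meas_tauE (k : ℕ) (t : T k) : MeasurableSet {x : C.E × C.E | x.1 < x.2 ∧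
    (C.S).tau k x.1 x.2 = t} := by
  have : {x : C.E × C.E | x.1 < x.2 ∧ (C.S).tau k x.1 x.2 = t} =
      C.cpr ⁻¹' {x : RR | C.TyR k t x} := by
    ext x
    change (x.1 < x.2 ∧ tauE k x.1 x.2 = t) ↔ C.TyR k t (x.1.1.1, x.2.1.1)
    rw [← Ty_iff]
    constructor
    · rintro ⟨h1, rfl⟩
      exact tauE_spec k h1
    · intro h
      exact ⟨(E_lt_iff _ _).mpr h.lt, tauE_eq h⟩
  rw [this]
  exact C.meas_cpr (C.meas_TyR k t)

lemma meas_colE : Measurable (fun e : C.E => (C.S).col e) := by
  have : Measurable (fun p : Raw => colD (C.dd p) p.2.2.2) :=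
    meas_fun_ct (n := fun p : Raw => p.2.2.2) meas_nm
      (f := fun u p => colD (C.dd p) u) (fun u => (meas_colD u).comp C.meas_dd)
  exact this.comp (measurable_subtype_coe.comp measurable_subtype_coe)

lemma meas_PtE : MeasurableSet {e : C.E | ⊥ < e ∧ e < ⊤} := by
  have h1 : Measurable (fun e : C.E => ((⊥ : C.E), e)) := measurable_const.prodMk measurable_id
  have h2 : Measurable (fun e : C.E => (e, (⊤ : C.E))) := measurable_id.prodMk measurable_const
  exact (h1 C.meas_ltE).inter (h2 C.meas_ltE)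

instance : StandardBorelSpace (Pt C.E) := C.meas_PtE.standardBorel

end Ctx

end Pool.Agent.Work.MP_44611a_co
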