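import Pool.Agent.Work.MP_44611a_co.Word
import Pool.Agent.Work.MP_44611a_co.Green

set_option autoImplicit false
set_option linter.all false

/-! Names (Skolem terms), their evaluation in words and limit data. -/

namespace Pool.Agent.Work.MP_44611a_co

open Filter

/-- Names of positions: end points, rational positions, one variable, least witnesses. -/
inductive Nm : Type
  | var : Nm
  | bot : Nm
  | top : Nm
  | rat (q : ℚ) : Nm
  | sk (u v : Nm) (j : ℕ) : Nm
  deriving DecidableEq, Countable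

/-- parameters of a witness name -/
abbrev Prm : Type := Σ k : ℕ, T k × Bool × T k

instance : Nonempty Prm := ⟨⟨0, 1, true, 1⟩⟩

/-- enumeration of the parameters -/
noncomputable def prm : ℕ → Prm := Classical.choose (exists_surjective_nat Prm)

lemma prm_surj : Function.Surjective prm := Classical.choose_spec (exists_surjective_nat Prm)

/-- `m` is a witness between `i` and `i'` for the parameter `p`. -/
def Wit (w : List Bool) (i i' : ℕ) (p : Prm) (m : ℕ) : Prop :=
  i < m ∧ m < i' ∧ tauW w p.1 i m = p.2.1 ∧ colAt w m = p.2.2.1 ∧ tauW w p.1 m i' = p.2.2.2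

/-- position of a rational -/
noncomputable def ratPos (N : ℕ) (q : ℚ) : ℕ := min ⌊q * ((N : ℚ) + 1)⌋₊ (N + 1)

open Classical in
/-- evaluation of names in a word, `x` is the value of the variable -/
noncomputable def ev (w : List Bool) (x : ℕ) : Nm → ℕ
  | .var => x
  | .bot => 0
  | .top => w.length + 1
  | .rat q => ratPos w.length q
  | .sk u v j => if h : ∃ m, Wit w (ev w x u) (ev w x v) (prm j) m then
      @Nat.find _ (Classical.decPred _) h else 0

lemma ev_le (w : List Bool) (x : ℕ) (hx : x ≤ w.length + 1) (u : Nm) :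
    ev w x u ≤ w.length + 1 := by
  induction u with
  | var => exact hx
  | bot => exact Nat.zero_le _
  | top => exact le_rfl
  | rat q => exact min_le_right _ _
  | sk u v j ih1 ih2 =>
    simp only [ev]
    split_ifs with h
    · have := @Nat.find_spec _ (Classical.decPred _) h
      exact this.2.1.le.trans ih2
    · exact Nat.zero_le _

/-- names without the variable -/
def Closed : Nm → Prop
  | .var => False
  | .bot => True
  | .top => True
  | .rat _ => True
  | .sk u v _ => Closed u ∧ Closed v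

lemma ev_closed (w : List Bool) {u : Nm} (hu : Closed u) (x y : ℕ) : ev w x u = ev w y u := by
  induction u with
  | var => exact hu.elim
  | bot => rfl
  | top => rfl
  | rat q => rfl
  | sk u v j ih1 ih2 =>
    simp only [ev]
    rw [ih1 hu.1, ih2 hu.2]

/-- atomic statements -/
abbrev At : Type := (Nm × Nm × (Σ k : ℕ, T k)) ⊕ Nm

/-- data -/
abbrev Dt : Type := At → Bool

open Classical in
/-- truth values of the atomic statements in a word -/
noncomputable def dat (w : List Bool) (x : ℕ) : Dt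
  | .inl (u, v, s) => decide (ev w x u < ev w x v ∧ tauW w s.1 (ev w x u) (ev w x v) = s.2)
  | .inr u => colAt w (ev w x u)

/-- the strict order coded by data -/
def ltD (D : Dt) (u v : Nm) : Prop := D (.inl (u, v, ⟨0, 1⟩)) = true

open Classical in
/-- interval types coded by data -/
noncomputable def tauD (D : Dt) (k : ℕ) (u v : Nm) : T k :=
  if h : ∃ s : T k, D (.inl (u, v, ⟨k, s⟩)) = true then Classical.choose h else 1

/-- colours coded by data -/
def colD (D : Dt) (u : Nm) : Bool := D (.inr u)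

instance : Subsingleton (T 0) := by
  constructor
  intro x y
  obtain ⟨X, rfl⟩ := cls_surj x
  obtain ⟨Y, rfl⟩ := cls_surj y
  rw [cls_eq_iff]
  trivial

variable (U : Filter ℕ) (w : ℕ → List Bool)

/-- data that are finitely satisfiable along the filter -/
def RealD (D : Dt) : Prop :=
  ∀ F : Finset At, ∀ᶠ n in U, ∃ x, 1 ≤ x ∧ x ≤ (w n).length ∧ ∀ α ∈ F, D α = dat (w n) x α

variable {U w}

/-- approximation on finitely many names, up to level `K` -/
def Approx (D : Dt) (s : Set Nm) (K : ℕ) (W : List Bool) (x : ℕ) : Prop :=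
  1 ≤ x ∧ x ≤ W.length ∧ (∀ u ∈ s, colD D u = colAt W (ev W x u)) ∧
  ∀ u ∈ s, ∀ v ∈ s, (ltD D u v ↔ ev W x u < ev W x v) ∧
    (ltD D u v → ∀ k ≤ K, tauD D k u v = tauW W k (ev W x u) (ev W x v))

lemma approx_of_eq {D : Dt} {s : Set Nm} {K : ℕ} {W : List Bool} {x : ℕ} (h1 : 1 ≤ x)
    (h2 : x ≤ W.length) (h3 : ∀ u ∈ s, D (.inr u) = dat W x (.inr u))
    (h4 : ∀ u ∈ s, ∀ v ∈ s, ∀ k ≤ K, ∀ t : T k,
      D (.inl (u, v, ⟨k, t⟩)) = dat W x (.inl (u, v, ⟨k, t⟩))) : Approx D s K W x := by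
  refine ⟨h1, h2, fun u hu => h3 u hu, fun u hu v hv => ?_⟩
  have e1 : ltD D u v ↔ ev W x u < ev W x v := by
    unfold ltD
    rw [h4 u hu v hv 0 (Nat.zero_le _) 1]
    simp only [dat, decide_eq_true_eq, and_iff_left_iff_imp]
    intro _
    exact Subsingleton.elim _ _
  refine ⟨e1, fun hlt k hk => ?_⟩
  have hex : ∃ t : T k, D (.inl (u, v, ⟨k, t⟩)) = true := by
    refine ⟨tauW W k (ev W x u) (ev W x v), ?_⟩
    rw [h4 u hu v hv k hk]
    simp only [dat, decide_eq_true_eq, and_true]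
    exact e1.mp hlt
  unfold tauD
  rw [dif_pos hex]
  have := Classical.choose_spec hex
  rw [h4 u hu v hv k hk] at this
  simp only [dat, decide_eq_true_eq] at this
  exact this.2.symm

lemma RealD.approx {D : Dt} (hD : RealD U w D) (s : Set Nm) (hs : s.Finite) (K : ℕ) :
    ∀ᶠ n in U, ∃ x, Approx D s K (w n) x := by
  classical
  -- the finite set of atoms
  have hfin : ({α : At | (∃ u ∈ s, α = .inr u) ∨ ∃ u ∈ s, ∃ v ∈ s, ∃ k ≤ K, ∃ t : T k,
      α = .inl (u, v, ⟨k, t⟩)} : Set At).Finite := by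
    have h1 : ((fun u : Nm => (Sum.inr u : At)) '' s).Finite := hs.image _
    have h2 : ((fun p : Nm × Nm × (Σ k : ℕ, T k) => (Sum.inl p : At)) ''
        (s ×ˢ s ×ˢ (⋃ k ∈ Set.Iic K, Set.range (fun t : T k => (⟨k, t⟩ : Σ k : ℕ, T k))))).Finite := by
      apply Set.Finite.image
      apply hs.prod
      apply hs.prod
      apply Set.Finite.biUnion (Set.finite_Iic K)
      intro k _
      exact Set.finite_range _
    refine (h1.union h2).subset ?_
    rintro α (⟨u, hu, rfl⟩ | ⟨u, hu, v, hv, k, hk, t, rfl⟩)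
    · left
      exact ⟨u, hu, rfl⟩
    · right
      refine ⟨(u, v, ⟨k, t⟩), ⟨hu, hv, ?_⟩, rfl⟩
      simp only [Set.mem_iUnion]
      exact ⟨k, hk, t, rfl⟩
  filter_upwards [hD hfin.toFinset] with n hn
  obtain ⟨x, h1, h2, h3⟩ := hn
  refine ⟨x, approx_of_eq h1 h2 (fun u hu => h3 _ ?_) (fun u hu v hv k hk t => h3 _ ?_)⟩
  · rw [Set.Finite.mem_toFinset]
    exact Or.inl ⟨u, hu, rfl⟩
  · rw [Set.Finite.mem_toFinset]
    exact Or.inr ⟨u, hu, v, hv, k, hk, t, rfl⟩

section facts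

variable [NeBot U] {D : Dt} (hD : RealD U w D)

include hD

lemma RealD.ex (s : Set Nm) (hs : s.Finite) (K : ℕ) : ∃ n x, Approx D s K (w n) x := by
  obtain ⟨n, x, h⟩ := (hD.approx s hs K).exists
  exact ⟨n, x, h⟩

lemma RealD.lt_irrefl (u : Nm) : ¬ ltD D u u := by
  obtain ⟨n, x, h⟩ := hD.ex {u} (Set.toFinite _) 0
  have := (h.2.2.2 u (by simp) u (by simp)).1
  simp [this]

lemma RealD.lt_trans {u v t : Nm} (h1 : ltD D u v) (h2 : ltD D v t) : ltD D u t := by
  obtain ⟨n, x, h⟩ := hD.ex {u, v, t} (Set.toFinite _) 0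
  have e1 := (h.2.2.2 u (by simp) v (by simp)).1
  have e2 := (h.2.2.2 v (by simp) t (by simp)).1
  have e3 := (h.2.2.2 u (by simp) t (by simp)).1
  rw [e3]; exact (e1.mp h1).trans (e2.mp h2)

lemma RealD.lt_asymm {u v : Nm} (h1 : ltD D u v) : ¬ ltD D v u := fun h2 =>
  hD.lt_irrefl u (hD.lt_trans h1 h2)

/-- `u < t` implies `u < v` or `v < t`. -/
lemma RealD.lt_or {u t : Nm} (h1 : ltD D u t) (v : Nm) : ltD D u v ∨ ltD D v t := by
  obtain ⟨n, x, h⟩ := hD.ex {u, v, t} (Set.toFinite _) 0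
  have e1 := (h.2.2.2 u (by simp) v (by simp)).1
  have e2 := (h.2.2.2 v (by simp) t (by simp)).1
  have e3 := (h.2.2.2 u (by simp) t (by simp)).1
  rw [e1, e2]
  rw [e3] at h1
  omega

lemma RealD.T0 (k : ℕ) {u v : Nm} (h1 : ltD D u v) :
    pr k (tauD D (k + 1) u v) = tauD D k u v := by
  obtain ⟨n, x, h⟩ := hD.ex {u, v} (Set.toFinite _) (k + 1)
  have e1 := (h.2.2.2 u (by simp) v (by simp)).2 h1
  rw [e1 (k + 1) le_rfl, e1 k (Nat.le_succ k)]
  rfl

lemma RealD.T1 (k : ℕ) {u v t : Nm} (h1 : ltD D u v) (h2 : ltD D v t) :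
    tauD D k u t = tauD D k u v * cls k [colD D v] * tauD D k v t := by
  obtain ⟨n, x, h⟩ := hD.ex {u, v, t} (Set.toFinite _) k
  have e1 := h.2.2.2 u (by simp) v (by simp)
  have e2 := h.2.2.2 v (by simp) t (by simp)
  have e3 := h.2.2.2 u (by simp) t (by simp)
  have hu := h.2.2.1 v (by simp)
  rw [e1.2 h1 k le_rfl, e2.2 h2 k le_rfl, e3.2 (hD.lt_trans h1 h2) k le_rfl, hu]
  apply tauW_T1 _ _ (e1.1.mp h1) (e2.1.mp h2)
  exact ev_le _ _ (h.2.1.trans (Nat.le_succ _)) _

lemma RealD.mem_Tr (k : ℕ) {u v t : Nm} (h1 : ltD D u v) (h2 : ltD D v t) :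
    (tauD D k u v, colD D v, tauD D k v t) ∈ Tr (tauD D (k + 1) u t) := by
  rw [hD.T1 (k + 1) h1 h2, mem_Tr_mul3]
  right; left
  rw [hD.T0 k h1, hD.T0 k h2]

/-- Skolem property -/
lemma RealD.skolem (k : ℕ) {u v : Nm} (h1 : ltD D u v) (t : T k × Bool × T k)
    (ht : t ∈ Tr (tauD D (k + 1) u v)) : ∃ j, ltD D u (.sk u v j) ∧ ltD D (.sk u v j) v ∧
      t = (tauD D k u (.sk u v j), colD D (.sk u v j), tauD D k (.sk u v j) v) := by
  obtain ⟨j, hj⟩ := prm_surj ⟨k, t⟩
  refine ⟨j, ?_⟩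
  obtain ⟨n, x, h⟩ := hD.ex {u, .sk u v j, v} (Set.toFinite _) (k + 1)
  have e1 := h.2.2.2 u (by simp) (.sk u v j) (by simp)
  have e2 := h.2.2.2 (.sk u v j) (by simp) v (by simp)
  have e3 := h.2.2.2 u (by simp) v (by simp)
  have hc := h.2.2.1 (.sk u v j) (by simp)
  rw [e3.2 h1 (k + 1) le_rfl] at ht
  have hle : ev (w n) x v ≤ (w n).length + 1 := ev_le _ _ (h.2.1.trans (Nat.le_succ _)) _
  obtain ⟨m, hm1, hm2, hm3⟩ := tauW_T2 (w n) k hle t ht
  have hex : ∃ m, Wit (w n) (ev (w n) x u) (ev (w n) x v) (prm j) m := by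
    rw [hj]
    exact ⟨m, hm1, hm2, by rw [hm3], by rw [hm3], by rw [hm3]⟩
  have hev : ev (w n) x (.sk u v j) = @Nat.find _ (Classical.decPred _) hex := by
    simp only [ev]
    rw [dif_pos hex]
  have hspec := @Nat.find_spec _ (Classical.decPred _) hex
  rw [← hev, hj] at hspec
  obtain ⟨s1, s2, s3, s4, s5⟩ := hspec
  have l1 : ltD D u (.sk u v j) := e1.1.mpr s1
  have l2 : ltD D (.sk u v j) v := e2.1.mpr s2
  refine ⟨l1, l2, ?_⟩
  rw [e1.2 l1 k (Nat.le_succ k), e2.2 l2 k (Nat.le_succ k), hc]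
  simp only at s3 s4 s5
  rw [s3, s4, s5]

lemma RealD.bot_lt_var : ltD D .bot .var := by
  obtain ⟨n, x, h⟩ := hD.ex {.bot, .var} (Set.toFinite _) 0
  rw [(h.2.2.2 .bot (by simp) .var (by simp)).1]
  exact h.1

lemma RealD.var_lt_top : ltD D .var .top := by
  obtain ⟨n, x, h⟩ := hD.ex {.var, .top} (Set.toFinite _) 0
  rw [(h.2.2.2 .var (by simp) .top (by simp)).1]
  exact Nat.lt_succ_of_le h.2.1

lemma RealD.not_lt_bot (u : Nm) : ¬ ltD D u .bot := by
  obtain ⟨n, x, h⟩ := hD.ex {u, .bot} (Set.toFinite _) 0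
  rw [(h.2.2.2 u (by simp) .bot (by simp)).1]
  exact Nat.not_lt_zero _

lemma RealD.not_top_lt (u : Nm) : ¬ ltD D .top u := by
  obtain ⟨n, x, h⟩ := hD.ex {u, .top} (Set.toFinite _) 0
  rw [(h.2.2.2 .top (by simp) u (by simp)).1, not_lt]
  exact ev_le _ _ (h.2.1.trans (Nat.le_succ _)) _

/-- the atom for the type holds exactly for `tauD` -/
lemma RealD.atom_iff (k : ℕ) (u v : Nm) (t : T k) :
    D (.inl (u, v, ⟨k, t⟩)) = true ↔ ltD D u v ∧ tauD D k u v = t := by
  classical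
  have hfin : ({α : At | α = .inl (u, v, ⟨k, t⟩) ∨ α = .inl (u, v, ⟨0, 1⟩) ∨
      ∃ t' : T k, α = .inl (u, v, ⟨k, t'⟩)} : Set At).Finite := by
    have h1 : (Set.range (fun t' : T k => (Sum.inl (u, v, ⟨k, t'⟩) : At))).Finite :=
      Set.finite_range _
    refine ((Set.finite_singleton (Sum.inl (u, v, ⟨k, t⟩) : At)).union
      ((Set.finite_singleton (Sum.inl (u, v, ⟨0, 1⟩) : At)).union h1)).subset ?_
    rintro α (h | h | ⟨t', h⟩)
    · left; exact h
    · right; left; exact h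
    · right; right; exact ⟨t', h.symm⟩
  obtain ⟨n, x, h1, h2, h3⟩ := (hD hfin.toFinset).exists
  have e0 : ltD D u v ↔ ev (w n) x u < ev (w n) x v := by
    unfold ltD
    rw [h3 _ (by rw [Set.Finite.mem_toFinset]; right; left; rfl)]
    simp only [dat, decide_eq_true_eq, and_iff_left_iff_imp]
    intro _
    exact Subsingleton.elim _ _
  have e1 : ∀ t' : T k, D (.inl (u, v, ⟨k, t'⟩)) = true ↔
      (ev (w n) x u < ev (w n) x v ∧ tauW (w n) k (ev (w n) x u) (ev (w n) x v) = t') := by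
    intro t'
    rw [h3 _ (by rw [Set.Finite.mem_toFinset]; right; right; exact ⟨t', rfl⟩)]
    simp only [dat, decide_eq_true_eq]
  rw [e1 t, ← e0]
  refine and_congr_right fun hlt => ?_
  have hex : ∃ t : T k, D (.inl (u, v, ⟨k, t⟩)) = true := by
    refine ⟨tauW (w n) k (ev (w n) x u) (ev (w n) x v), ?_⟩
    rw [e1]
    exact ⟨e0.mp hlt, rfl⟩
  have hch := Classical.choose_spec hex
  rw [e1] at hch
  have : tauD D k u v = tauW (w n) k (ev (w n) x u) (ev (w n) x v) := by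
    unfold tauD
    rw [dif_pos hex]
    exact hch.2.symm
  rw [this]

end facts

/-- equality coded by data -/
def eqD (D : Dt) (u v : Nm) : Prop := ¬ ltD D u v ∧ ¬ ltD D v u

section eqfacts

variable [NeBot U] {D : Dt} (hD : RealD U w D)

include hD

lemma RealD.eq_iff_ev {n x K : ℕ} {s : Set Nm} (h : Approx D s K (w n) x) {u v : Nm}
    (hu : u ∈ s) (hv : v ∈ s) : eqD D u v ↔ ev (w n) x u = ev (w n) x v := by
  unfold eqD
  rw [(h.2.2.2 u hu v hv).1, (h.2.2.2 v hv u hu).1]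
  omega

lemma RealD.eq_refl (u : Nm) : eqD D u u := ⟨hD.lt_irrefl u, hD.lt_irrefl u⟩

lemma RealD.eq_trans {u v t : Nm} (h1 : eqD D u v) (h2 : eqD D v t) : eqD D u t := by
  obtain ⟨n, x, h⟩ := hD.ex {u, v, t} (Set.toFinite _) 0
  rw [hD.eq_iff_ev h (by simp) (by simp)] at h1 h2 ⊢
  exact h1.trans h2

lemma RealD.lt_congr_left {u v t : Nm} (h1 : eqD D u v) : ltD D u t ↔ ltD D v t := by
  obtain ⟨n, x, h⟩ := hD.ex {u, v, t} (Set.toFinite _) 0
  rw [hD.eq_iff_ev h (by simp) (by simp)] at h1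
  rw [(h.2.2.2 u (by simp) t (by simp)).1, (h.2.2.2 v (by simp) t (by simp)).1, h1]

lemma RealD.lt_congr_right {u v t : Nm} (h1 : eqD D u v) : ltD D t u ↔ ltD D t v := by
  obtain ⟨n, x, h⟩ := hD.ex {u, v, t} (Set.toFinite _) 0
  rw [hD.eq_iff_ev h (by simp) (by simp)] at h1
  rw [(h.2.2.2 t (by simp) u (by simp)).1, (h.2.2.2 t (by simp) v (by simp)).1, h1]

lemma RealD.col_congr {u v : Nm} (h1 : eqD D u v) : colD D u = colD D v := by
  obtain ⟨n, x, h⟩ := hD.ex {u, v} (Set.toFinite _) 0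
  rw [hD.eq_iff_ev h (by simp) (by simp)] at h1
  rw [h.2.2.1 u (by simp), h.2.2.1 v (by simp), h1]

lemma RealD.tau_congr_left (k : ℕ) {u v t : Nm} (h1 : eqD D u v) (h2 : ltD D u t) :
    tauD D k u t = tauD D k v t := by
  have h3 := (hD.lt_congr_left h1).mp h2
  obtain ⟨n, x, h⟩ := hD.ex {u, v, t} (Set.toFinite _) k
  rw [hD.eq_iff_ev h (by simp) (by simp)] at h1
  rw [(h.2.2.2 u (by simp) t (by simp)).2 h2 k le_rfl,
    (h.2.2.2 v (by simp) t (by simp)).2 h3 k le_rfl, h1]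

lemma RealD.tau_congr_right (k : ℕ) {u v t : Nm} (h1 : eqD D u v) (h2 : ltD D t u) :
    tauD D k t u = tauD D k t v := by
  have h3 := (hD.lt_congr_right h1).mp h2
  obtain ⟨n, x, h⟩ := hD.ex {u, v, t} (Set.toFinite _) k
  rw [hD.eq_iff_ev h (by simp) (by simp)] at h1
  rw [(h.2.2.2 t (by simp) u (by simp)).2 h2 k le_rfl,
    (h.2.2.2 t (by simp) v (by simp)).2 h3 k le_rfl, h1]

lemma RealD.tau_not_lt (k : ℕ) {u v : Nm} (h1 : ¬ ltD D u v) : tauD D k u v = 1 := by
  unfold tauD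
  rw [dif_neg]
  rintro ⟨s, hs⟩
  rw [hD.atom_iff] at hs
  exact h1 hs.1

lemma RealD.tau_congr_left' (k : ℕ) {u v : Nm} (h1 : eqD D u v) (t : Nm) :
    tauD D k u t = tauD D k v t := by
  by_cases h : ltD D u t
  · exact hD.tau_congr_left k h1 h
  · rw [hD.tau_not_lt k h, hD.tau_not_lt k (fun h' => h ((hD.lt_congr_left h1).mpr h'))]

lemma RealD.tau_congr_right' (k : ℕ) {u v : Nm} (h1 : eqD D u v) (t : Nm) :
    tauD D k t u = tauD D k t v := by
  by_cases h : ltD D t u
  · exact hD.tau_congr_right k h1 h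
  · rw [hD.tau_not_lt k h, hD.tau_not_lt k (fun h' => h ((hD.lt_congr_right h1).mpr h'))]

end eqfacts

/-- atoms about closed names -/
def ClosedAt : At → Prop
  | .inl (u, v, _) => Closed u ∧ Closed v
  | .inr u => Closed u

lemma dat_closed (W : List Bool) {α : At} (hα : ClosedAt α) (x y : ℕ) : dat W x α = dat W y α := by
  rcases α with ⟨u, v, s⟩ | u
  · have e1 := ev_closed W hα.1 x y
    have e2 := ev_closed W hα.2 x y
    simp only [dat]
    rw [e1, e2]
  · have h : Closed u := hα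
    simp only [dat, ev_closed W h x y]

lemma RealD.closed_eq [NeBot U] {D D' : Dt} (hD : RealD U w D) (hD' : RealD U w D') {α : At}
    (hα : ClosedAt α) : D α = D' α := by
  obtain ⟨n, ⟨x, _, _, h1⟩, ⟨y, _, _, h2⟩⟩ := ((hD {α}).and (hD' {α})).exists
  rw [h1 α (by simp), h2 α (by simp), dat_closed _ hα x y]

section closed

variable [NeBot U] {D D' : Dt} (hD : RealD U w D) (hD' : RealD U w D')

include hD hD'

lemma RealD.ltD_closed {u v : Nm} (hu : Closed u) (hv : Closed v) : ltD D u v ↔ ltD D' u v := by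
  unfold ltD
  rw [hD.closed_eq hD' (α := .inl (u, v, ⟨0, 1⟩)) ⟨hu, hv⟩]

lemma RealD.tauD_closed (k : ℕ) {u v : Nm} (hu : Closed u) (hv : Closed v) :
    tauD D k u v = tauD D' k u v := by
  have h : ∀ s : T k, D (.inl (u, v, ⟨k, s⟩)) = D' (.inl (u, v, ⟨k, s⟩)) := fun s =>
    hD.closed_eq hD' (α := .inl (u, v, ⟨k, s⟩)) ⟨hu, hv⟩
  have h' : (fun s : T k => D (.inl (u, v, ⟨k, s⟩))) = fun s => D' (.inl (u, v, ⟨k, s⟩)) :=
    funext h
  classical
  have key : ∀ f g : T k → Bool, f = g →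
      (if h : ∃ s : T k, f s = true then Classical.choose h else 1) =
      (if h : ∃ s : T k, g s = true then Classical.choose h else 1) := by
    rintro f g rfl; rfl
  exact key _ _ h'

lemma RealD.colD_closed {u : Nm} (hu : Closed u) : colD D u = colD D' u :=
  hD.closed_eq hD' (α := .inr u) hu

lemma RealD.eqD_closed {u v : Nm} (hu : Closed u) (hv : Closed v) : eqD D u v ↔ eqD D' u v := by
  unfold eqD
  rw [hD.ltD_closed hD' hu hv, hD.ltD_closed hD' hv hu]

end closed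

end Pool.Agent.Work.MP_44611a_co
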