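import Pool.Agent.Work.MP_44611a_co.Names

set_option autoImplicit false
set_option linter.all false

/-! Limit data, ranks of names, local J-classes and generic points. -/

namespace Pool.Agent.Work.MP_44611a_co

open Filter Topology

/-- The sequence of words and the ultrafilter. -/
structure Ctx where
  U : Ultrafilter ℕ
  w : ℕ → List Bool
  hlen : Tendsto (fun n => (w n).length) U atTop
  hpos : ∀ n, 1 ≤ (w n).length

namespace Ctx

variable (C : Ctx)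

/-- realised data -/
abbrev Re (D : Dt) : Prop := RealD (C.U : Filter ℕ) C.w D

open Classical in
/-- limit of data along positions -/
noncomputable def limD (x : ℕ → ℕ) : Dt :=
  fun α => decide (∀ᶠ n in (C.U : Filter ℕ), dat (C.w n) (x n) α = true)

lemma limD_eq (x : ℕ → ℕ) (α : At) :
    ∀ᶠ n in (C.U : Filter ℕ), C.limD x α = dat (C.w n) (x n) α := by
  by_cases h : ∀ᶠ n in (C.U : Filter ℕ), dat (C.w n) (x n) α = true
  · filter_upwards [h] with n hn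
    rw [hn]
    simp only [limD, decide_eq_true_eq]
    exact h
  · have h' := Ultrafilter.eventually_not.mpr h
    filter_upwards [h'] with n hn
    have : dat (C.w n) (x n) α = false := by simpa using hn
    rw [this]
    simp only [limD, decide_eq_false_iff_not]
    exact h

lemma limD_real (x : ℕ → ℕ)
    (hx : ∀ᶠ n in (C.U : Filter ℕ), 1 ≤ x n ∧ x n ≤ (C.w n).length) : C.Re (C.limD x) := by
  intro F
  have h := (Filter.eventually_all_finset F).mpr (fun α _ => C.limD_eq x α)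
  filter_upwards [h, hx] with n hn hxn
  exact ⟨x n, hxn.1, hxn.2, hn⟩

/-- reference data -/
noncomputable def D0 : Dt := C.limD (fun _ => 1)

lemma D0_real : C.Re C.D0 := by
  apply C.limD_real
  filter_upwards [C.hlen.eventually_ge_atTop 1] with n hn
  exact ⟨le_rfl, hn⟩

lemma ratPos_lt {q q' : ℚ} (h0 : 0 ≤ q) (h : q < q') (h1 : q' ≤ 1) :
    ∀ᶠ n in (C.U : Filter ℕ), ratPos (C.w n).length q < ratPos (C.w n).length q' := by
  obtain ⟨m, hm⟩ := exists_nat_gt (1 / (q' - q))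
  filter_upwards [C.hlen.eventually_ge_atTop m] with n hn
  have hd : 0 < q' - q := sub_pos.mpr h
  have hN : (1 : ℚ) ≤ (q' - q) * (((C.w n).length : ℚ) + 1) := by
    have h2 : (m : ℚ) ≤ ((C.w n).length : ℚ) := by exact_mod_cast hn
    have h3 : 1 / (q' - q) < ((C.w n).length : ℚ) + 1 := by linarith
    rw [div_lt_iff₀ hd] at h3
    linarith [mul_comm (q' - q) (((C.w n).length : ℚ) + 1)]
  have hNn : (0 : ℚ) ≤ ((C.w n).length : ℚ) + 1 := by positivity
  have e1 : ⌊q * (((C.w n).length : ℚ) + 1)⌋₊ + 1 ≤ ⌊q' * (((C.w n).length : ℚ) + 1)⌋₊ := by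
    rw [← Nat.floor_add_one (mul_nonneg h0 hNn)]
    apply Nat.floor_le_floor
    nlinarith
  have e2 : ⌊q' * (((C.w n).length : ℚ) + 1)⌋₊ ≤ (C.w n).length + 1 := by
    apply Nat.floor_le_of_le
    push_cast
    nlinarith
  unfold ratPos
  rw [min_eq_left e2]
  exact lt_of_le_of_lt (min_le_left _ _) (by omega)

variable {C}

section rk

variable {D : Dt} (hD : C.Re D)

include hD

lemma rat_lt {q q' : ℚ} (h0 : 0 ≤ q) (h : q < q') (h1 : q' ≤ 1) : ltD D (.rat q) (.rat q') := by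
  obtain ⟨n, ⟨x, hx⟩, hn⟩ := ((RealD.approx hD {.rat q, .rat q'} (Set.toFinite _) 0).and
    (C.ratPos_lt h0 h h1)).exists
  rw [(hx.2.2.2 (.rat q) (by simp) (.rat q') (by simp)).1]
  exact hn

omit hD in
/-- rank of a name -/
noncomputable def rk (D : Dt) (u : Nm) : ℝ :=
  ⨆ q : ℚ, @ite ℝ (0 ≤ q ∧ q ≤ 1 ∧ ltD D (.rat q) u) (Classical.propDecidable _) (q : ℝ) 0

omit hD in
lemma rk_bdd (D : Dt) (u : Nm) : BddAbove (Set.range fun q : ℚ =>
    @ite ℝ (0 ≤ q ∧ q ≤ 1 ∧ ltD D (.rat q) u) (Classical.propDecidable _) (q : ℝ) 0) := by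
  refine ⟨1, ?_⟩
  rintro _ ⟨q, rfl⟩
  dsimp only
  split_ifs with h
  · exact_mod_cast h.2.1
  · exact zero_le_one

omit hD in
lemma rk_nonneg (D : Dt) (u : Nm) : 0 ≤ rk D u := by
  refine le_trans ?_ (le_ciSup (rk_bdd D u) 0)
  split_ifs <;> simp

omit hD in
lemma rk_le_one (D : Dt) (u : Nm) : rk D u ≤ 1 := by
  apply ciSup_le
  intro q
  split_ifs with h
  · exact_mod_cast h.2.1
  · exact zero_le_one

omit hD in
lemma le_rk {q : ℚ} {u : Nm} (h0 : 0 ≤ q) (h1 : q ≤ 1) (h : ltD D (.rat q) u) :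
    (q : ℝ) ≤ rk D u := by
  refine le_trans ?_ (le_ciSup (rk_bdd D u) q)
  rw [if_pos ⟨h0, h1, h⟩]

lemma lt_of_lt_rk {q : ℚ} {u : Nm} (h0 : 0 ≤ q) (h : (q : ℝ) < rk D u) : ltD D (.rat q) u := by
  obtain ⟨q', hq'⟩ := exists_lt_of_lt_ciSup h
  split_ifs at hq' with hc
  · have h2 : q < q' := by exact_mod_cast hq'
    exact RealD.lt_trans hD (rat_lt hD h0 h2 hc.2.1) hc.2.2
  · exfalso
    have : q < 0 := by exact_mod_cast hq'
    linarith

lemma lt_of_rk_lt {q : ℚ} {u : Nm} (h1 : q ≤ 1) (h : rk D u < q) : ltD D u (.rat q) := by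
  obtain ⟨q', h2, h3⟩ := exists_rat_btwn h
  have h3' : q' < q := by exact_mod_cast h3
  have h0 : 0 ≤ q' := by
    have := (rk_nonneg D u).trans h2.le
    exact_mod_cast this
  rcases RealD.lt_or hD (rat_lt hD h0 h3' h1) u with h4 | h4
  · exact absurd (le_rk h0 (h3'.le.trans h1) h4) (not_le.mpr h2)
  · exact h4

lemma rk_mono {u v : Nm} (h : ¬ ltD D v u) : rk D u ≤ rk D v := by
  by_contra hc
  push Not at hc
  obtain ⟨q, h2, h3⟩ := exists_rat_btwn hc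
  have h0 : 0 ≤ q := by
    have := (rk_nonneg D v).trans h2.le
    exact_mod_cast this
  have h1 : q ≤ 1 := by
    have := h3.le.trans (rk_le_one D u)
    exact_mod_cast this
  exact h (RealD.lt_trans hD (lt_of_rk_lt hD h1 h2) (lt_of_lt_rk hD h0 h3))

lemma rk_mono' {u v : Nm} (h : ltD D u v) : rk D u ≤ rk D v :=
  rk_mono hD (RealD.lt_asymm hD h)

lemma lt_of_rk {u v : Nm} (h : rk D u < rk D v) : ltD D u v := by
  by_contra hc
  exact absurd (rk_mono hD hc) (not_le.mpr h)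

lemma rk_congr {u v : Nm} (h : eqD D u v) : rk D u = rk D v :=
  le_antisymm (rk_mono hD h.2) (rk_mono hD h.1)

lemma rk_bot : rk D .bot = 0 := by
  apply le_antisymm _ (rk_nonneg _ _)
  apply ciSup_le
  intro q
  rw [if_neg]
  rintro ⟨_, _, h⟩
  exact RealD.not_lt_bot hD _ h

lemma rk_top : rk D .top = 1 := by
  apply le_antisymm (rk_le_one _ _)
  by_contra hc
  push Not at hc
  obtain ⟨q, h2, h3⟩ := exists_rat_btwn hc
  have h0 : 0 ≤ q := by
    have := (rk_nonneg D .top).trans h2.le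
    exact_mod_cast this
  have h1 : q < 1 := by exact_mod_cast h3
  rcases RealD.lt_or hD (rat_lt hD h0 h1 le_rfl) .top with h4 | h4
  · exact absurd (le_rk h0 h1.le h4) (not_le.mpr h2)
  · exact RealD.not_top_lt hD _ h4

lemma rk_rat {q : ℚ} (h0 : 0 ≤ q) (h1 : q ≤ 1) : rk D (.rat q) = q := by
  apply le_antisymm
  · by_contra hc
    push Not at hc
    exact RealD.lt_irrefl hD _ (lt_of_lt_rk hD h0 hc)
  · by_contra hc
    push Not at hc
    exact RealD.lt_irrefl hD _ (lt_of_rk_lt hD h1 hc)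

end rk

lemma rk_closed {D D' : Dt} (hD : C.Re D) (hD' : C.Re D') {u : Nm} (hu : Closed u) :
    rk D u = rk D' u := by
  unfold rk
  congr 1
  funext q
  have h : ltD D (.rat q) u ↔ ltD D' (.rat q) u := RealD.ltD_closed hD hD' trivial hu
  by_cases hc : 0 ≤ q ∧ q ≤ 1 ∧ ltD D (.rat q) u
  · rw [if_pos hc, if_pos ⟨hc.1, hc.2.1, h.mp hc.2.2⟩]
  · rw [if_neg hc, if_neg (fun hc' => hc ⟨hc'.1, hc'.2.1, h.mpr hc'.2.2⟩)]

variable (C)

/-- interval types between rationals -/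
noncomputable def I (k : ℕ) (q q' : ℚ) : T k := tauD C.D0 k (.rat q) (.rat q')

/-- colour at a rational -/
noncomputable def cR (q : ℚ) : Bool := colD C.D0 (.rat q)

variable {C}

lemma I_eq {D : Dt} (hD : C.Re D) (k : ℕ) (q q' : ℚ) : tauD D k (.rat q) (.rat q') = C.I k q q' :=
  RealD.tauD_closed hD C.D0_real k trivial trivial

lemma cR_eq {D : Dt} (hD : C.Re D) (q : ℚ) : colD D (.rat q) = C.cR q :=
  RealD.colD_closed hD C.D0_real trivial

lemma I_T1 (k : ℕ) {q q1 q' : ℚ} (h0 : 0 ≤ q) (h1 : q < q1) (h2 : q1 < q') (h3 : q' ≤ 1) :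
    C.I k q q' = C.I k q q1 * cls k [C.cR q1] * C.I k q1 q' :=
  RealD.T1 C.D0_real k (rat_lt C.D0_real h0 h1 (h2.le.trans h3))
    (rat_lt C.D0_real (h0.trans h1.le) h2 h3)

lemma I_T0 (k : ℕ) {q q' : ℚ} (h0 : 0 ≤ q) (h1 : q < q') (h3 : q' ≤ 1) :
    pr k (C.I (k + 1) q q') = C.I k q q' :=
  RealD.T0 C.D0_real k (rat_lt C.D0_real h0 h1 h3)

lemma I_JLe (k : ℕ) {q q1 q1' q' : ℚ} (h0 : 0 ≤ q) (h1 : q ≤ q1) (h : q1 < q1') (h2 : q1' ≤ q')
    (h3 : q' ≤ 1) : JLe (C.I k q q') (C.I k q1 q1') := by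
  have e1 : JLe (C.I k q q') (C.I k q1 q') := by
    rcases h1.eq_or_lt with h1 | h1
    · rw [h1]; exact JLe.refl _
    · rw [I_T1 k h0 h1 (h.trans_le h2) h3]
      exact (LLe.mul _ _).J
  have e2 : JLe (C.I k q1 q') (C.I k q1 q1') := by
    rcases h2.eq_or_lt with h2 | h2
    · rw [h2]; exact JLe.refl _
    · rw [I_T1 k (h0.trans h1) h h2 h3, mul_assoc]
      exact (RLe.mul _ _).J
  exact e1.trans e2

variable (C)

/-- `(a,a')` is a good neighbourhood of `r` at level `k` with class `s`. -/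
def Good (k : ℕ) (r : ℝ) (s : T k) (a a' : ℚ) : Prop :=
  0 ≤ a ∧ (a : ℝ) < r ∧ r < a' ∧ a' ≤ 1 ∧
    ∀ q q' : ℚ, a ≤ q → (q : ℝ) < r → r < q' → q' ≤ a' → JEq (C.I k q q') s

/-- the local J-class at `r` is the class of `s` -/
def Jat (k : ℕ) (r : ℝ) (s : T k) : Prop := ∃ a a' : ℚ, C.Good k r s a a'

variable {C}

lemma Good.mono {k : ℕ} {r : ℝ} {s : T k} {a a' b b' : ℚ} (h : C.Good k r s a a') (h1 : a ≤ b)
    (h2 : (b : ℝ) < r) (h3 : r < b') (h4 : b' ≤ a') : C.Good k r s b b' :=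
  ⟨h.1.trans h1, h2, h3, h4.trans h.2.2.2.1,
    fun q q' g1 g2 g3 g4 => h.2.2.2.2 q q' (h1.trans g1) g2 g3 (g4.trans h4)⟩

lemma Good.congr {k : ℕ} {r : ℝ} {s s' : T k} {a a' : ℚ} (h : C.Good k r s a a')
    (h' : JEq s s') : C.Good k r s' a a' :=
  ⟨h.1, h.2.1, h.2.2.1, h.2.2.2.1, fun q q' g1 g2 g3 g4 =>
    (h.2.2.2.2 q q' g1 g2 g3 g4).trans h'⟩

lemma Jat.congr {k : ℕ} {r : ℝ} {s s' : T k} (h : C.Jat k r s) (h' : JEq s s') : C.Jat k r s' := by
  obtain ⟨a, a', h⟩ := h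
  exact ⟨a, a', h.congr h'⟩

lemma exists_rat_pair {r : ℝ} (h0 : 0 < r) (h1 : r < 1) :
    ∃ a a' : ℚ, 0 ≤ a ∧ (a : ℝ) < r ∧ r < a' ∧ a' ≤ 1 := by
  obtain ⟨a, ha1, ha2⟩ := exists_rat_btwn h0
  obtain ⟨b, hb1, hb2⟩ := exists_rat_btwn h1
  exact ⟨a, b, by exact_mod_cast ha1.le, ha2, hb1, by exact_mod_cast hb2.le⟩

variable (C)

lemma exists_Jat (k : ℕ) {r : ℝ} (h0 : 0 < r) (h1 : r < 1) : ∃ s, C.Jat k r s := by
  classical
  -- maximise the number of elements below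
  let P : ℚ × ℚ → Prop := fun p => 0 ≤ p.1 ∧ (p.1 : ℝ) < r ∧ r < p.2 ∧ p.2 ≤ 1
  let f : ℚ × ℚ → ℕ := fun p => Set.ncard {x : T k | JLe x (C.I k p.1 p.2)}
  have hbd : ∀ p, f p ≤ Nat.card (T k) := fun p => by
    rw [← Set.ncard_univ]
    exact Set.ncard_le_ncard (Set.subset_univ _) (Set.toFinite _)
  obtain ⟨a0, a0', ha0⟩ := exists_rat_pair h0 h1
  have hne : ∃ m, ∃ p, P p ∧ Nat.card (T k) - f p = m := ⟨_, (a0, a0'), ha0, rfl⟩
  obtain ⟨⟨a, a'⟩, hp, hm⟩ := Nat.find_spec hne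
  refine ⟨C.I k a a', a, a', hp.1, hp.2.1, hp.2.2.1, hp.2.2.2, ?_⟩
  intro q q' g1 g2 g3 g4
  have hqq : q < q' := by exact_mod_cast g2.trans g3
  have hJ : JLe (C.I k a a') (C.I k q q') := I_JLe k hp.1 g1 hqq g4 hp.2.2.2
  refine ⟨?_, hJ⟩
  have hsub : {x : T k | JLe x (C.I k a a')} ⊆ {x : T k | JLe x (C.I k q q')} :=
    fun x hx => JLe.trans hx hJ
  have hP' : P (q, q') := ⟨hp.1.trans g1, g2, g3, g4.trans hp.2.2.2⟩
  have hmin : Nat.card (T k) - f (a, a') ≤ Nat.card (T k) - f (q, q') := by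
    rw [hm]
    exact Nat.find_min' hne ⟨(q, q'), hP', rfl⟩
  have hle : f (q, q') ≤ f (a, a') := by
    have := hbd (q, q')
    have := hbd (a, a')
    omega
  have heq := Set.eq_of_subset_of_ncard_le hsub hle (Set.toFinite _)
  have hmem : C.I k q q' ∈ {x : T k | JLe x (C.I k q q')} := JLe.refl _
  rw [← heq] at hmem
  exact hmem

variable {C}

lemma Jat.unique {k : ℕ} {r : ℝ} {s s' : T k} (h : C.Jat k r s) (h' : C.Jat k r s') : JEq s s' := by
  obtain ⟨a, a', h⟩ := h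
  obtain ⟨b, b', h'⟩ := h'
  have e1 : ((max a b : ℚ) : ℝ) < r := by
    rw [Rat.cast_max]; exact max_lt h.2.1 h'.2.1
  have e2 : r < ((min a' b' : ℚ) : ℝ) := by
    rw [Rat.cast_min]; exact lt_min h.2.2.1 h'.2.2.1
  have g1 := h.2.2.2.2 (max a b) (min a' b') (le_max_left _ _) e1 e2 (min_le_left _ _)
  have g2 := h'.2.2.2.2 (max a b) (min a' b') (le_max_right _ _) e1 e2 (min_le_right _ _)
  exact g1.symm.trans g2

lemma Good.pr {k : ℕ} {r : ℝ} {s : T (k + 1)} {a a' : ℚ} (h : C.Good (k + 1) r s a a') :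
    C.Good k r (pr k s) a a' := by
  refine ⟨h.1, h.2.1, h.2.2.1, h.2.2.2.1, fun q q' g1 g2 g3 g4 => ?_⟩
  have := h.2.2.2.2 q q' g1 g2 g3 g4
  have hqq : q < q' := by exact_mod_cast g2.trans g3
  rw [← I_T0 k (h.1.trans g1) hqq (g4.trans h.2.2.2.1)]
  exact ⟨this.1.map _, this.2.map _⟩

lemma Good.Jat {k : ℕ} {r : ℝ} {s : T k} {a a' : ℚ} (h : C.Good k r s a a') : C.Jat k r s :=
  ⟨a, a', h⟩

variable (C)

/-- generic points -/
def Gen (r : ℝ) : Prop :=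
  0 < r ∧ r < 1 ∧ (∀ u, Closed u → rk C.D0 u ≠ r) ∧
  ∀ (k : ℕ) (s : T k), C.Jat k r s →
    (∀ y > r, ∃ r', r < r' ∧ r' < y ∧ C.Jat k r' s) ∧
    (∀ y < r, ∃ r', y < r' ∧ r' < r ∧ C.Jat k r' s)

lemma isolated_right_countable (X : Set ℝ) :
    {x ∈ X | ∃ y > x, ∀ r', x < r' → r' < y → r' ∉ X}.Countable := by
  refine (countable_setOfPred_isolated_right_within (s := X)).mono ?_
  rintro x ⟨hx, y, hy, h⟩
  refine ⟨hx, ?_⟩
  rw [← Filter.empty_mem_iff_bot, mem_nhdsWithin]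
  refine ⟨Set.Iio y, isOpen_Iio, hy, ?_⟩
  rintro z ⟨hz1, hz2, hz3⟩
  exact h z hz3 hz1 hz2

lemma isolated_left_countable (X : Set ℝ) :
    {x ∈ X | ∃ y < x, ∀ r', y < r' → r' < x → r' ∉ X}.Countable := by
  refine (countable_setOfPred_isolated_left_within (s := X)).mono ?_
  rintro x ⟨hx, y, hy, h⟩
  refine ⟨hx, ?_⟩
  rw [← Filter.empty_mem_iff_bot, mem_nhdsWithin]
  refine ⟨Set.Ioi y, isOpen_Ioi, hy, ?_⟩
  rintro z ⟨hz1, hz2, hz3⟩
  exact h z hz1 hz3 hz2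

/-- the set of non-generic points is countable -/
lemma bad_countable : {r : ℝ | 0 < r ∧ r < 1 ∧ ¬ C.Gen r}.Countable := by
  have h1 : (⋃ u : Nm, {rk C.D0 u}).Countable := Set.countable_iUnion fun u =>
    Set.countable_singleton _
  have h2 : (⋃ k : ℕ, ⋃ s : T k, {x ∈ {r | C.Jat k r s} |
      ∃ y > x, ∀ r', x < r' → r' < y → r' ∉ {r | C.Jat k r s}}).Countable := by
    apply Set.countable_iUnion
    intro k
    apply Set.countable_iUnion
    intro s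
    exact isolated_right_countable _
  have h3 : (⋃ k : ℕ, ⋃ s : T k, {x ∈ {r | C.Jat k r s} |
      ∃ y < x, ∀ r', y < r' → r' < x → r' ∉ {r | C.Jat k r s}}).Countable := by
    apply Set.countable_iUnion
    intro k
    apply Set.countable_iUnion
    intro s
    exact isolated_left_countable _
  refine ((h1.union h2).union h3).mono ?_
  rintro r ⟨h0, h1, hng⟩
  by_contra hcon
  apply hng
  simp only [Set.mem_union, not_or, Set.mem_iUnion, not_exists] at hcon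
  obtain ⟨⟨c1, c2⟩, c3⟩ := hcon
  refine ⟨h0, h1, fun u _ h => c1 u h.symm, fun k s hs => ⟨fun y hy => ?_, fun y hy => ?_⟩⟩
  · by_contra hc
    push Not at hc
    exact c2 k s ⟨hs, y, hy, fun r' g1 g2 g3 => hc r' g1 g2 g3⟩
  · by_contra hc
    push Not at hc
    exact c3 k s ⟨hs, y, hy, fun r' g1 g2 g3 => hc r' g1 g2 g3⟩

end Ctx

end Pool.Agent.Work.MP_44611a_co
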