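import Pool.Agent.Work.MP_44611a_co.Rank

set_option autoImplicit false
set_option linter.all false

/-! A measurable selection lemma and the selected data. -/

namespace Pool.Agent.Work.MP_44611a_co

open Filter Topology

section sel

variable {ι : Type} [Countable ι] {X : Type} [TopologicalSpace X] [MeasurableSpace X]
  [OpensMeasurableSpace X]

/-- points over which a prefix is possible -/
def selK (Cs : Set (X × (ι → Bool))) (e : ι → ℕ) (l : List Bool) : Set X :=
  {x | ∃ D, (x, D) ∈ Cs ∧ ∀ i, e i < l.length → D i = l.getD (e i) false}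

open Classical in
/-- greedy prefixes -/
noncomputable def selP (Cs : Set (X × (ι → Bool))) (e : ι → ℕ) : ℕ → X → List Bool
  | 0, _ => []
  | n + 1, x => selP Cs e n x ++ [decide (x ∈ selK Cs e (selP Cs e n x ++ [true]))]

lemma selP_length (Cs : Set (X × (ι → Bool))) (e : ι → ℕ) (n : ℕ) (x : X) :
    (selP Cs e n x).length = n := by
  induction n with
  | zero => rfl
  | succ n ih => simp [selP, ih]

lemma selP_getD (Cs : Set (X × (ι → Bool))) (e : ι → ℕ) (x : X) (j : ℕ) : ∀ n, j < n →
    (selP Cs e n x).getD j false = (selP Cs e (j + 1) x).getD j false := by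
  intro n hn
  induction n with
  | zero => omega
  | succ n ih =>
    rcases Nat.lt_succ_iff_lt_or_eq.mp hn with h | h
    · rw [← ih h]
      rw [selP, List.getD_append _ _ _ _ (by rw [selP_length]; exact h)]
    · rw [h]

lemma isClosed_selK {Cs : Set (X × (ι → Bool))} (hC : IsClosed Cs) (e : ι → ℕ) (l : List Bool) :
    IsClosed (selK Cs e l) := by
  have h1 : IsClosed {p : X × (ι → Bool) | p ∈ Cs ∧ ∀ i, e i < l.length →
      p.2 i = l.getD (e i) false} := by
    apply hC.inter
    have : {p : X × (ι → Bool) | ∀ i, e i < l.length → p.2 i = l.getD (e i) false} =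
        ⋂ i, {p : X × (ι → Bool) | e i < l.length → p.2 i = l.getD (e i) false} := by
      ext p; simp
    change IsClosed {p : X × (ι → Bool) | ∀ i, e i < l.length → p.2 i = l.getD (e i) false}
    rw [this]
    apply isClosed_iInter
    intro i
    by_cases h : e i < l.length
    · simp only [h, forall_const]
      exact isClosed_eq ((continuous_apply i).comp continuous_snd) continuous_const
    · simp only [h, false_imp_iff]
      exact isClosed_univ
  have h2 : selK Cs e l = Prod.fst '' {p : X × (ι → Bool) | p ∈ Cs ∧ ∀ i, e i < l.length →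
      p.2 i = l.getD (e i) false} := by
    ext x
    constructor
    · rintro ⟨D, hD⟩
      exact ⟨(x, D), hD, rfl⟩
    · rintro ⟨⟨x', D⟩, hD, rfl⟩
      exact ⟨D, hD⟩
  rw [h2]
  exact isClosedMap_fst_of_compactSpace _ h1

lemma selK_step {Cs : Set (X × (ι → Bool))} {e : ι → ℕ} (he : Function.Injective e)
    {l : List Bool} {x : X} (h : x ∈ selK Cs e l) (h' : x ∉ selK Cs e (l ++ [true])) :
    x ∈ selK Cs e (l ++ [false]) := by
  obtain ⟨D, hD, hl⟩ := h
  refine ⟨D, hD, fun i hi => ?_⟩
  simp only [List.length_append, List.length_cons, List.length_nil, zero_add] at hi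
  rcases Nat.lt_succ_iff_lt_or_eq.mp hi with h1 | h1
  · rw [List.getD_append _ _ _ _ h1]
    exact hl i h1
  · by_contra hc
    apply h'
    refine ⟨D, hD, fun i' hi' => ?_⟩
    simp only [List.length_append, List.length_cons, List.length_nil, zero_add] at hi'
    rcases Nat.lt_succ_iff_lt_or_eq.mp hi' with h2 | h2
    · rw [List.getD_append _ _ _ _ h2]
      exact hl i' h2
    · have hii : i' = i := he (h2.trans h1.symm)
      rw [hii]
      rw [List.getD_append_right _ _ _ _ (by rw [h1])] at hc ⊢
      simp only [h1, Nat.sub_self] at hc ⊢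
      simpa using hc

lemma mem_selK_selP {Cs : Set (X × (ι → Bool))} {e : ι → ℕ} (he : Function.Injective e)
    {x : X} (h : ∃ D, (x, D) ∈ Cs) (n : ℕ) : x ∈ selK Cs e (selP Cs e n x) := by
  classical
  induction n with
  | zero =>
    obtain ⟨D, hD⟩ := h
    exact ⟨D, hD, fun i hi => absurd hi (by simp [selP])⟩
  | succ n ih =>
    rw [selP]
    by_cases h1 : x ∈ selK Cs e (selP Cs e n x ++ [true])
    · rw [decide_eq_true h1]; exact h1
    · rw [decide_eq_false h1]; exact selK_step he ih h1

theorem exists_selection (Cs : Set (X × (ι → Bool))) (hC : IsClosed Cs) :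
    ∃ f : X → (ι → Bool), Measurable f ∧ ∀ x, (∃ D, (x, D) ∈ Cs) → (x, f x) ∈ Cs := by
  classical
  obtain ⟨e, he⟩ := exists_injective_nat ι
  refine ⟨fun x i => (selP Cs e (e i + 1) x).getD (e i) false, ?_, ?_⟩
  · have hm : ∀ n l, MeasurableSet {x | selP Cs e n x = l} := by
      intro n
      induction n with
      | zero =>
        intro l
        simp only [selP]
        exact MeasurableSet.const _
      | succ n ih =>
        intro l
        have : {x | selP Cs e (n + 1) x = l} = ⋃ l' : List Bool, ({x | selP Cs e n x = l'} ∩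
            {x | l' ++ [decide (x ∈ selK Cs e (l' ++ [true]))] = l}) := by
          ext x
          simp only [Set.mem_iUnion, Set.mem_inter_iff]
          constructor
          · intro h
            exact ⟨_, rfl, h⟩
          · rintro ⟨l', h1, h2⟩
            change selP Cs e (n + 1) x = l
            change selP Cs e n x = l' at h1
            rw [selP, h1]
            exact h2
        rw [this]
        apply MeasurableSet.iUnion
        intro l'
        apply (ih l').inter
        have h2 : {x | l' ++ [decide (x ∈ selK Cs e (l' ++ [true]))] = l} =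
            (selK Cs e (l' ++ [true]) ∩ {x | l' ++ [true] = l}) ∪
            ((selK Cs e (l' ++ [true]))ᶜ ∩ {x | l' ++ [false] = l}) := by
          ext x
          by_cases hx : x ∈ selK Cs e (l' ++ [true])
          · simp [hx]
          · simp [hx]
        rw [h2]
        have h3 := (isClosed_selK hC e (l' ++ [true])).measurableSet
        exact (h3.inter (MeasurableSet.const _)).union (h3.compl.inter (MeasurableSet.const _))
    rw [measurable_pi_iff]
    intro i
    apply measurable_to_bool
    have : (fun x => (selP Cs e (e i + 1) x).getD (e i) false) ⁻¹' {true} =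
        ⋃ l : List Bool, ({x | selP Cs e (e i + 1) x = l} ∩ {x | l.getD (e i) false = true}) := by
      ext x
      simp only [Set.mem_preimage, Set.mem_singleton_iff, Set.mem_iUnion, Set.mem_inter_iff]
      constructor
      · intro h
        exact ⟨_, rfl, h⟩
      · rintro ⟨l', h1, h2⟩
        change selP Cs e (e i + 1) x = l' at h1
        rw [h1]
        exact h2
    rw [this]
    apply MeasurableSet.iUnion
    intro l
    exact (hm _ l).inter (MeasurableSet.const _)
  · intro x hx
    have hne : (⋂ n : ℕ, {D : ι → Bool | (x, D) ∈ Cs ∧ ∀ i, e i < n →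
        D i = (selP Cs e n x).getD (e i) false}).Nonempty := by
      apply IsCompact.nonempty_iInter_of_sequence_nonempty_isCompact_isClosed
      · intro n D hD
        refine ⟨hD.1, fun i hi => ?_⟩
        rw [hD.2 i (by omega), selP_getD Cs e x (e i) (n + 1) (by omega),
          selP_getD Cs e x (e i) n hi]
      · intro n
        obtain ⟨D, hD, h⟩ := mem_selK_selP he hx n
        exact ⟨D, hD, fun i hi => h i (by rw [selP_length]; exact hi)⟩
      · apply IsClosed.isCompact
        apply IsClosed.inter
        · exact hC.preimage (Continuous.prodMk_right x)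
        · have : {D : ι → Bool | ∀ i, e i < 0 → D i = (selP Cs e 0 x).getD (e i) false} =
            Set.univ := by
            ext D; simp
          change IsClosed {D : ι → Bool | ∀ i, e i < 0 → D i = (selP Cs e 0 x).getD (e i) false}
          rw [this]
          exact isClosed_univ
      · intro n
        apply IsClosed.inter
        · exact hC.preimage (Continuous.prodMk_right x)
        · have : {D : ι → Bool | ∀ i, e i < n → D i = (selP Cs e n x).getD (e i) false} =
              ⋂ i, {D : ι → Bool | e i < n → D i = (selP Cs e n x).getD (e i) false} := by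
            ext p; simp
          change IsClosed {D : ι → Bool | ∀ i, e i < n → D i = (selP Cs e n x).getD (e i) false}
          rw [this]
          apply isClosed_iInter
          intro i
          by_cases h : e i < n
          · simp only [h, forall_const]
            exact isClosed_eq (continuous_apply i) continuous_const
          · simp only [h, false_imp_iff]
            exact isClosed_univ
    obtain ⟨D, hD⟩ := hne
    rw [Set.mem_iInter] at hD
    have : (fun i => (selP Cs e (e i + 1) x).getD (e i) false) = D := by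
      funext i
      exact ((hD (e i + 1)).2 i (by omega)).symm
    change (x, (fun i => (selP Cs e (e i + 1) x).getD (e i) false)) ∈ Cs
    rw [this]
    exact (hD 0).1

end sel

lemma isClopen_of_dep {ι : Type} (F : Finset ι) (Q : (ι → Bool) → Prop)
    (h : ∀ D D', (∀ α ∈ F, D α = D' α) → (Q D → Q D')) : IsClopen {D | Q D} := by
  have hop : ∀ Q : (ι → Bool) → Prop, (∀ D D', (∀ α ∈ F, D α = D' α) → (Q D → Q D')) →
      IsOpen {D | Q D} := by
    intro Q h
    rw [isOpen_iff_mem_nhds]
    intro D hD
    have h1 : (⋂ α ∈ F, {D' : ι → Bool | D' α = D α}) ∈ 𝓝 D := by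
      rw [Filter.biInter_finset_mem]
      intro α hα
      apply IsOpen.mem_nhds
      · have h3 : IsOpen ((fun D' : ι → Bool => D' α) ⁻¹' {D α}) :=
          (isOpen_discrete ({D α} : Set Bool)).preimage (continuous_apply α)
        exact h3
      · rfl
    filter_upwards [h1] with D' hD'
    rw [Set.mem_iInter₂] at hD'
    exact h D D' (fun α hα => (hD' α hα).symm) hD
  refine ⟨?_, hop Q h⟩
  rw [← isOpen_compl_iff]
  exact hop (fun D => ¬ Q D) (fun D D' hDD hD hD' => hD (h D' D (fun α hα => (hDD α hα).symm) hD'))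

namespace Ctx

variable (C : Ctx)

lemma isClosed_Re : IsClosed {D : Dt | C.Re D} := by
  have : {D : Dt | C.Re D} = ⋂ F : Finset At, {D | ∀ᶠ n in (C.U : Filter ℕ),
      ∃ x, 1 ≤ x ∧ x ≤ (C.w n).length ∧ ∀ α ∈ F, D α = dat (C.w n) x α} := by
    ext D
    rw [Set.mem_iInter]
    rfl
  rw [this]
  apply isClosed_iInter
  intro F
  refine (isClopen_of_dep F _ ?_).1
  intro D D' hDD hD
  filter_upwards [hD] with n hn
  obtain ⟨x, h1, h2, h3⟩ := hn
  exact ⟨x, h1, h2, fun α hα => by rw [← hDD α hα, h3 α hα]⟩

lemma isClopen_ltD (u v : Nm) : IsClopen {D : Dt | ltD D u v} := by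
  apply isClopen_of_dep {(.inl (u, v, ⟨0, 1⟩) : At)}
  intro D D' h hD
  unfold ltD at *
  rw [← h _ (by simp)]
  exact hD

/-- the rank condition -/
def RkC (r : ℝ) (D : Dt) (u : Nm) : Prop :=
  ∀ q : ℚ, 0 ≤ q → q ≤ 1 → ((q : ℝ) < r → ltD D (.rat q) u) ∧ (r < q → ltD D u (.rat q))

variable {C}

lemma rk_iff {D : Dt} (hD : C.Re D) (u : Nm) (r : ℝ) :
    (0 ≤ r ∧ r ≤ 1 ∧ RkC r D u) ↔ rk D u = r := by
  constructor
  · rintro ⟨h0, h1, h⟩
    apply le_antisymm
    · by_contra hc
      push Not at hc
      obtain ⟨q, g1, g2⟩ := exists_rat_btwn hc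
      have q0 : 0 ≤ q := by have := h0.trans g1.le; exact_mod_cast this
      have q1 : q ≤ 1 := by have := g2.le.trans (rk_le_one D u); exact_mod_cast this
      exact RealD.lt_asymm hD (lt_of_lt_rk hD q0 g2) ((h q q0 q1).2 g1)
    · by_contra hc
      push Not at hc
      obtain ⟨q, g1, g2⟩ := exists_rat_btwn hc
      have q0 : 0 ≤ q := by have := (rk_nonneg D u).trans g1.le; exact_mod_cast this
      have q1 : q ≤ 1 := by have := g2.le.trans h1; exact_mod_cast this
      exact RealD.lt_asymm hD (lt_of_rk_lt hD q1 g1) ((h q q0 q1).1 g2)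
  · rintro rfl
    exact ⟨rk_nonneg _ _, rk_le_one _ _, fun q h0 h1 =>
      ⟨fun h => lt_of_lt_rk hD h0 h, fun h => lt_of_rk_lt hD h1 h⟩⟩

variable (C)

/-- the closed relation between ranks and data with a finite pattern -/
def Cs (l : List (At × Bool)) : Set (ℝ × Dt) :=
  {p | (0 ≤ p.1 ∧ p.1 ≤ 1) ∧ C.Re p.2 ∧ RkC p.1 p.2 .var ∧ ∀ a ∈ l, p.2 a.1 = a.2}

lemma isClosed_Cs (l : List (At × Bool)) : IsClosed (C.Cs l) := by
  have h1 : IsClosed {p : ℝ × Dt | 0 ≤ p.1 ∧ p.1 ≤ 1} :=
    (isClosed_le continuous_const continuous_fst).inter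
      (isClosed_le continuous_fst continuous_const)
  have h2 : IsClosed {p : ℝ × Dt | C.Re p.2} := C.isClosed_Re.preimage continuous_snd
  have h3 : IsClosed {p : ℝ × Dt | RkC p.1 p.2 .var} := by
    have : {p : ℝ × Dt | RkC p.1 p.2 .var} = ⋂ q : ℚ, {p : ℝ × Dt | 0 ≤ q → q ≤ 1 →
        ((q : ℝ) < p.1 → ltD p.2 (.rat q) .var) ∧ (p.1 < q → ltD p.2 .var (.rat q))} := by
      ext p
      rw [Set.mem_iInter]
      rfl
    rw [this]
    apply isClosed_iInter
    intro q
    by_cases h0 : 0 ≤ q
    · by_cases h1 : q ≤ 1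
      · simp only [h0, h1, forall_const]
        have e1 : IsClosed {p : ℝ × Dt | (q : ℝ) < p.1 → ltD p.2 (.rat q) .var} := by
          have : {p : ℝ × Dt | (q : ℝ) < p.1 → ltD p.2 (.rat q) .var} =
              {p : ℝ × Dt | p.1 ≤ q} ∪ {p | ltD p.2 (.rat q) .var} := by
            ext p
            change ((q : ℝ) < p.1 → ltD p.2 (.rat q) .var) ↔ (p.1 ≤ q ∨ ltD p.2 (.rat q) .var)
            rw [← not_lt]
            exact imp_iff_not_or
          rw [this]
          exact (isClosed_le continuous_fst continuous_const).union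
            ((isClopen_ltD _ _).1.preimage continuous_snd)
        have e2 : IsClosed {p : ℝ × Dt | p.1 < (q : ℝ) → ltD p.2 .var (.rat q)} := by
          have : {p : ℝ × Dt | p.1 < (q : ℝ) → ltD p.2 .var (.rat q)} =
              {p : ℝ × Dt | (q : ℝ) ≤ p.1} ∪ {p | ltD p.2 .var (.rat q)} := by
            ext p
            change (p.1 < (q : ℝ) → ltD p.2 .var (.rat q)) ↔
              ((q : ℝ) ≤ p.1 ∨ ltD p.2 .var (.rat q))
            rw [← not_lt]
            exact imp_iff_not_or
          rw [this]
          exact (isClosed_le continuous_const continuous_fst).union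
            ((isClopen_ltD _ _).1.preimage continuous_snd)
        exact e1.inter e2
      · simp only [h0, h1, forall_const, false_imp_iff]
        exact isClosed_univ
    · simp only [h0, false_imp_iff]
      exact isClosed_univ
  have h4 : IsClosed {p : ℝ × Dt | ∀ a ∈ l, p.2 a.1 = a.2} := by
    have : {p : ℝ × Dt | ∀ a ∈ l, p.2 a.1 = a.2} = ⋂ a ∈ l, {p : ℝ × Dt | p.2 a.1 = a.2} := by
      ext p
      simp only [Set.mem_iInter]
      rfl
    rw [this]
    apply isClosed_biInter
    intro a _
    exact isClosed_eq ((continuous_apply a.1).comp continuous_snd) continuous_const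
  exact h1.inter (h2.inter (h3.inter h4))

instance : Countable (List (At × Bool)) := inferInstance
instance : Nonempty (List (At × Bool)) := ⟨[]⟩

/-- enumeration of patterns -/
noncomputable def pat : ℕ → List (At × Bool) :=
  Classical.choose (exists_surjective_nat (List (At × Bool)))

lemma pat_surj : Function.Surjective pat :=
  Classical.choose_spec (exists_surjective_nat (List (At × Bool)))

/-- the selected data -/
noncomputable def W (m : ℕ) : ℝ → Dt := Classical.choose (exists_selection _ (C.isClosed_Cs (pat m)))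

lemma W_meas (m : ℕ) : Measurable (C.W m) :=
  (Classical.choose_spec (exists_selection _ (C.isClosed_Cs (pat m)))).1

lemma W_mem (m : ℕ) (r : ℝ) (h : ∃ D, (r, D) ∈ C.Cs (pat m)) : (r, C.W m r) ∈ C.Cs (pat m) :=
  (Classical.choose_spec (exists_selection _ (C.isClosed_Cs (pat m)))).2 r h

/-- if a pattern occurs arbitrarily close to `r`, it occurs at `r`. -/
lemma exists_W (l : List (At × Bool)) (r : ℝ) (h0 : 0 < r) (h1 : r < 1)
    (h : ∀ ε > 0, ∃ r' D, |r' - r| < ε ∧ C.Re D ∧ rk D .var = r' ∧ ∀ a ∈ l, D a.1 = a.2) :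
    ∃ m, C.Re (C.W m r) ∧ rk (C.W m r) .var = r ∧ ∀ a ∈ l, C.W m r a.1 = a.2 := by
  obtain ⟨m, hm⟩ := pat_surj l
  have hcl : IsClosed (Prod.fst '' C.Cs l) := isClosedMap_fst_of_compactSpace _ (C.isClosed_Cs l)
  have hr : r ∈ Prod.fst '' C.Cs l := by
    rw [← hcl.closure_eq, Metric.mem_closure_iff]
    intro ε hε
    obtain ⟨r', D, g1, g2, g3, g4⟩ := h ε hε
    refine ⟨r', ⟨(r', D), ?_, rfl⟩, by rw [dist_comm, Real.dist_eq]; exact g1⟩
    have := (rk_iff g2 .var r').mpr g3
    exact ⟨⟨this.1, this.2.1⟩, g2, this.2.2, g4⟩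
  obtain ⟨⟨r', D⟩, hD, hrr⟩ := hr
  simp only at hrr
  subst hrr
  rw [← hm] at hD ⊢
  have := C.W_mem m r' ⟨D, hD⟩
  exact ⟨m, this.2.1, (rk_iff this.2.1 .var r').mp ⟨this.1.1, this.1.2, this.2.2.1⟩, this.2.2.2⟩

end Ctx

end Pool.Agent.Work.MP_44611a_co
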