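
import Pool.Agent.Work.MP_44611a_co.Fin

set_option autoImplicit false
open Filter Topology


namespace Pool.Agent.Work.MP_44611a_co.Spare

/-- Every FO-convergent sequence of finite nonempty linear orders with a unary color predicate has a modeling limit: a standard Borel probability structure, all definable sets measurable, whose measures of φ-sets are the limits of φ-tuple densities. -/
theorem result :
  ∀ (L : FirstOrder.Language.{0, 0}) (lt : L.Relations 2) (col : L.Relations 1),
    (∀ n, IsEmpty (L.Functions n)) →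
    (∀ r : L.Relations 2, r = lt) →
    (∀ r : L.Relations 1, r = col) →
    (∀ n, n ≠ 1 → n ≠ 2 → IsEmpty (L.Relations n)) →
    ∀ (A : ℕ → Type) [∀ n, Finite (A n)] [∀ n, Nonempty (A n)] [∀ n, L.Structure (A n)],
      (∀ n (x : A n), ¬ FirstOrder.Language.Structure.RelMap lt ![x, x]) →
      (∀ n (x y z : A n), FirstOrder.Language.Structure.RelMap lt ![x, y] →
          FirstOrder.Language.Structure.RelMap lt ![y, z] →
          FirstOrder.Language.Structure.RelMap lt ![x, z]) →
      (∀ n (x y : A n), x ≠ y → FirstOrder.Language.Structure.RelMap lt ![x, y] ∨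
          FirstOrder.Language.Structure.RelMap lt ![y, x]) →
      (∀ (p : ℕ) (φ : L.Formula (Fin p)), ∃ ℓ : ℝ,
          Tendsto (fun n : ℕ => (Nat.card {v : Fin p → A n // φ.Realize v} : ℝ) /
            (Nat.card (A n) : ℝ) ^ p) atTop (𝓝 ℓ)) →
      ∃ (M : Type) (_ : MeasurableSpace M) (_ : StandardBorelSpace M) (_ : L.Structure M)
        (μ : MeasureTheory.Measure M) (_ : MeasureTheory.IsProbabilityMeasure μ),
        (∀ (p : ℕ) (φ : L.Formula (Fin p)), MeasurableSet {v : Fin p → M | φ.Realize v}) ∧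
        ∀ (p : ℕ) (φ : L.Formula (Fin p)),
          Tendsto (fun n : ℕ => (Nat.card {v : Fin p → A n // φ.Realize v} : ℝ) /
            (Nat.card (A n) : ℝ) ^ p) atTop
            (𝓝 ((MeasureTheory.Measure.pi (fun _ : Fin p => μ)) {v : Fin p → M | φ.Realize v}).toReal) := by
  intro L lt col hfun hr2 hr1 hrn A _ _ _ hirr htr htot hconv
  have hw := fun n => Pool.Agent.Work.MP_44611a_co.exists_word L lt col (A n) (hirr n) (htr n)
    (htot n)
  choose w f hf1 hf2 using hw
  have hcardA : ∀ n, Nat.card (A n) = (w n).length := fun n => by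
    rw [Nat.card_congr (f n), Pool.Agent.Work.MP_44611a_co.card_pt]
  have hpos : ∀ n, 1 ≤ (w n).length := fun n => by
    rw [← hcardA n]
    exact Nat.card_pos
  have hne : ∀ n, Nonempty (Pool.Agent.Work.MP_44611a_co.Pt (Fin ((w n).length + 2))) := fun n =>
    (f n).nonempty_congr.mp inferInstance
  -- densities
  have hdens : ∀ (n : ℕ) (p : ℕ) (φ : L.Formula (Fin p)),
      (Nat.card {v : Fin p → A n // φ.Realize v} : ℝ) / (Nat.card (A n) : ℝ) ^ p =
      ((MeasureTheory.Measure.pi fun _ : Fin p => Pool.Agent.Work.MP_44611a_co.unif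
        (Pool.Agent.Work.MP_44611a_co.Pt (Fin ((w n).length + 2))))
        {v | Pool.Agent.Work.MP_44611a_co.Tru L hfun
          (Pool.Agent.Work.MP_44611a_co.TSw (w n)) φ v}).toReal := by
    intro n p φ
    rw [Pool.Agent.Work.MP_44611a_co.pi_unif, ← Pool.Agent.Work.MP_44611a_co.card_realize L lt col
      hfun hr2 hr1 hrn (f n) (hf1 n) (hf2 n) φ, Pool.Agent.Work.MP_44611a_co.card_pt, hcardA n]
  have hU : (hyperfilter ℕ : Filter ℕ) ≤ atTop := by
    rw [← Nat.cofinite_eq_atTop]
    exact hyperfilter_le_cofinite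
  by_cases hlen : Tendsto (fun n => (w n).length) (hyperfilter ℕ : Filter ℕ) atTop
  · -- unbounded lengths
    let C : Pool.Agent.Work.MP_44611a_co.Ctx := ⟨hyperfilter ℕ, w, hlen, hpos⟩
    refine ⟨Pool.Agent.Work.MP_44611a_co.Pt C.E, inferInstance, inferInstance,
      Pool.Agent.Work.MP_44611a_co.mkStr L hfun C.S, C.mu, inferInstance, ?_, ?_⟩
    · intro p φ
      exact Pool.Agent.Work.MP_44611a_co.meas_Tru L lt col hfun hr2 hr1 hrn C φ
    · intro p φ
      obtain ⟨ℓ, hℓ⟩ := hconv p φ
      have h1 : Tendsto (fun n => Pool.Agent.Work.MP_44611a_co.dens L hfun C n φ)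
          (C.U : Filter ℕ) (𝓝 ℓ) := by
        refine (hℓ.mono_left hU).congr fun n => ?_
        exact hdens n p φ
      have h2 := Pool.Agent.Work.MP_44611a_co.stone_eq L lt col hfun hr2 hr1 hrn C φ ℓ h1
      have h3 : ((MeasureTheory.Measure.pi (fun _ : Fin p => C.mu))
          {v | Pool.Agent.Work.MP_44611a_co.Tru L hfun C.S φ v}).toReal = ℓ := h2
      rw [← h3] at hℓ
      exact hℓ
  · -- bounded lengths
    rw [tendsto_atTop] at hlen
    push Not at hlen
    obtain ⟨B, hB⟩ := hlen
    have hB' : ∀ᶠ n in (hyperfilter ℕ : Filter ℕ), (w n).length < B := hB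
    have hfin : {l : List Bool | l.length < B}.Finite := List.finite_length_lt Bool B
    have hmem : (⋃ l ∈ {l : List Bool | l.length < B}, {n | w n = l}) ∈ hyperfilter ℕ := by
      filter_upwards [hB'] with n hn
      rw [Set.mem_iUnion₂]
      exact ⟨w n, hn, rfl⟩
    rw [Ultrafilter.finite_biUnion_mem_iff hfin] at hmem
    obtain ⟨w0, _, hw0⟩ := hmem
    have hw0' : ∀ᶠ n in (hyperfilter ℕ : Filter ℕ), w n = w0 := hw0
    obtain ⟨n0, hn0⟩ := hw0'.exists
    have hne0 : Nonempty (Pool.Agent.Work.MP_44611a_co.Pt (Fin (w0.length + 2))) := by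
      rw [← hn0]; exact hne n0
    refine ⟨Pool.Agent.Work.MP_44611a_co.Pt (Fin (w0.length + 2)), inferInstance, inferInstance,
      Pool.Agent.Work.MP_44611a_co.mkStr L hfun (Pool.Agent.Work.MP_44611a_co.TSw w0),
      Pool.Agent.Work.MP_44611a_co.unif _, inferInstance, ?_, ?_⟩
    · intro p φ
      exact MeasurableSet.of_discrete
    · intro p φ
      obtain ⟨ℓ, hℓ⟩ := hconv p φ
      have h1 : Tendsto (fun _ : ℕ => ((MeasureTheory.Measure.pi fun _ : Fin p =>
          Pool.Agent.Work.MP_44611a_co.unif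
          (Pool.Agent.Work.MP_44611a_co.Pt (Fin (w0.length + 2))))
          {v | Pool.Agent.Work.MP_44611a_co.Tru L hfun
            (Pool.Agent.Work.MP_44611a_co.TSw w0) φ v}).toReal)
          (hyperfilter ℕ : Filter ℕ) (𝓝 ℓ) := by
        refine (hℓ.mono_left hU).congr' ?_
        filter_upwards [hw0'] with n hn
        rw [hdens n p φ]
        subst hn
        rfl
      have h3 := tendsto_nhds_unique h1 tendsto_const_nhds
      have h4 : ((MeasureTheory.Measure.pi (fun _ : Fin p => Pool.Agent.Work.MP_44611a_co.unif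
          (Pool.Agent.Work.MP_44611a_co.Pt (Fin (w0.length + 2)))))
          {v | Pool.Agent.Work.MP_44611a_co.Tru L hfun
            (Pool.Agent.Work.MP_44611a_co.TSw w0) φ v}).toReal = ℓ := h3.symm
      rw [← h4] at hℓ
      exact hℓ

end Pool.Agent.Work.MP_44611a_co.Spare
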