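import Pool.Agent.Work.MP_44611a_co.Glue
import Pool.Agent.Work.MP_44611a_co.Select

set_option autoImplicit false
set_option linter.all false

/-! Realisation of triples between two points. -/

namespace Pool.Agent.Work.MP_44611a_co

open Filter Topology

namespace Pnt

variable {C : Ctx}

lemma step_right (x : Pnt C) (k : ℕ) {q : ℚ} (h0 : 0 ≤ q) (h1 : q ≤ 1) (hx : x.ltR q)
    (t : T k × Bool × T k) (ht : t ∈ Tr (x.R (k + 1) q)) :
    ∃ w : Pnt C, ((IsS k x w t.1 ∧ w.r = x.r ∧ (Closed x.u → Closed w.u)) ∨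
      (w.D = C.D0 ∧ Closed w.u ∧ IsC k x w t.1)) ∧
      w.c = t.2.1 ∧ w.ltR q ∧ w.R k q = t.2.2 := by
  obtain ⟨j, hj1, hj2, rfl⟩ := RealD.skolem x.re k hx t ht
  obtain ⟨v, hv⟩ : ∃ v, v = Nm.sk x.u (.rat q) j := ⟨_, rfl⟩
  rw [← hv] at hj1 hj2 ⊢
  by_cases hr : Ctx.rk x.D v = x.r
  · exact ⟨⟨x.D, x.re, v⟩, Or.inl ⟨⟨rfl, hj1, rfl⟩, hr, fun h => by rw [hv]; exact ⟨h, trivial⟩⟩,
      rfl, hj2, rfl⟩
  · have hle : x.r ≤ Ctx.rk x.D v := Ctx.rk_mono' x.re hj1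
    have hlt : x.r < Ctx.rk x.D v := lt_of_le_of_ne hle (Ne.symm hr)
    obtain ⟨q1, g1, g2⟩ := exists_rat_btwn hlt
    have q10 : 0 ≤ q1 := x.q_nonneg g1
    have q11 : q1 ≤ 1 := by
      have := g2.le.trans (Ctx.rk_le_one x.D v)
      exact_mod_cast this
    have e1 : ltD x.D x.u (.rat q1) := Ctx.lt_of_rk_lt x.re q11 g1
    have e2 : ltD x.D (.rat q1) v := Ctx.lt_of_lt_rk x.re q10 g2
    have hm := RealD.mem_Tr x.re k e2 hj2
    have e3 : ltD C.D0 (.rat q1) (.rat q) :=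
      (RealD.ltD_closed x.re C.D0_real (u := .rat q1) (v := .rat q) trivial trivial).mp (RealD.lt_trans x.re e2 hj2)
    rw [Ctx.I_eq x.re] at hm
    obtain ⟨j', f1, f2, f3⟩ := RealD.skolem C.D0_real k e3 _ hm
    simp only [Prod.mk.injEq] at f3
    obtain ⟨f3, f4, f5⟩ := f3
    refine ⟨⟨C.D0, C.D0_real, .sk (.rat q1) (.rat q) j'⟩, Or.inr ⟨rfl, ⟨trivial, trivial⟩, ?_⟩,
      f4.symm, f2, f5.symm⟩
    refine ⟨q1, q10, q11, e1, f1, ?_⟩
    change tauD x.D k x.u v = _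
    rw [RealD.T1 x.re k e1 e2, f3, Ctx.cR_eq x.re]
    rfl

lemma step_left (y : Pnt C) (k : ℕ) {q : ℚ} (h0 : 0 ≤ q) (h1 : q ≤ 1) (hy : Rlt q y)
    (t : T k × Bool × T k) (ht : t ∈ Tr (y.Lf (k + 1) q)) :
    ∃ w : Pnt C, ((IsS k w y t.2.2 ∧ w.r = y.r ∧ (Closed y.u → Closed w.u)) ∨
      (w.D = C.D0 ∧ Closed w.u ∧ IsC k w y t.2.2)) ∧
      w.c = t.2.1 ∧ Rlt q w ∧ w.Lf k q = t.1 := by
  obtain ⟨j, hj1, hj2, rfl⟩ := RealD.skolem y.re k hy t ht
  obtain ⟨v, hv⟩ : ∃ v, v = Nm.sk (.rat q) y.u j := ⟨_, rfl⟩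
  rw [← hv] at hj1 hj2 ⊢
  by_cases hr : Ctx.rk y.D v = y.r
  · exact ⟨⟨y.D, y.re, v⟩, Or.inl ⟨⟨rfl, hj2, rfl⟩, hr, fun h => by rw [hv]; exact ⟨trivial, h⟩⟩,
      rfl, hj1, rfl⟩
  · have hle : Ctx.rk y.D v ≤ y.r := Ctx.rk_mono' y.re hj2
    have hlt : Ctx.rk y.D v < y.r := lt_of_le_of_ne hle hr
    obtain ⟨q1, g1, g2⟩ := exists_rat_btwn hlt
    have q10 : 0 ≤ q1 := by
      have := (Ctx.rk_nonneg y.D v).trans g1.le
      exact_mod_cast this
    have q11 : q1 ≤ 1 := y.q_le_one g2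
    have e1 : ltD y.D v (.rat q1) := Ctx.lt_of_rk_lt y.re q11 g1
    have e2 : ltD y.D (.rat q1) y.u := Ctx.lt_of_lt_rk y.re q10 g2
    have hm := RealD.mem_Tr y.re k hj1 e1
    have e3 : ltD C.D0 (.rat q) (.rat q1) :=
      (RealD.ltD_closed y.re C.D0_real (u := .rat q) (v := .rat q1) trivial trivial).mp (RealD.lt_trans y.re hj1 e1)
    rw [Ctx.I_eq y.re] at hm
    obtain ⟨j', f1, f2, f3⟩ := RealD.skolem C.D0_real k e3 _ hm
    simp only [Prod.mk.injEq] at f3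
    obtain ⟨f3, f4, f5⟩ := f3
    refine ⟨⟨C.D0, C.D0_real, .sk (.rat q) (.rat q1) j'⟩, Or.inr ⟨rfl, ⟨trivial, trivial⟩, ?_⟩,
      f4.symm, f1, f3.symm⟩
    refine ⟨q1, q10, q11, f2, e2, ?_⟩
    change tauD y.D k v y.u = _
    rw [RealD.T1 y.re k e1 e2, f5, Ctx.cR_eq y.re]
    rfl

/-- any right type at a generic rank is below the local class -/
lemma R_JLe (x : Pnt C) (hg : C.Gen x.r) {k : ℕ} {s : T k} (hs : C.Jat k x.r s) {q : ℚ}
    (h0 : 0 ≤ q) (h1 : q ≤ 1) (hq : x.ltR q) : JLe (x.R k q) s := by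
  have hqr : x.r < q := by
    rcases (hq.r_le h0 h1).eq_or_lt with h2 | h2
    · exfalso
      apply hg.2.2.1 (.rat q) trivial
      rw [Ctx.rk_rat C.D0_real h0 h1, h2]
    · exact h2
  obtain ⟨a, a', h⟩ := hs
  have h2 : x.r < ((min a' q : ℚ) : ℝ) := by
    rw [Rat.cast_min]; exact lt_min h.2.2.1 hqr
  have hgood := h.mono le_rfl h.2.1 h2 (min_le_left _ _)
  have hJ := x.halo_R_J hg hgood
  rcases (min_le_right a' q).eq_or_lt with h3 | h3
  · rw [h3] at hJ; exact hJ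
  · rw [x.R_split k h2 h3 h1, mul_assoc]
    exact (RLe.mul _ _).J.trans hJ

lemma L_JLe (x : Pnt C) (hg : C.Gen x.r) {k : ℕ} {s : T k} (hs : C.Jat k x.r s) {q : ℚ}
    (h0 : 0 ≤ q) (h1 : q ≤ 1) (hq : Rlt q x) : JLe (x.Lf k q) s := by
  have hqr : q < x.r := by
    rcases (hq.r_le h0 h1).eq_or_lt with h2 | h2
    · exfalso
      apply hg.2.2.1 (.rat q) trivial
      rw [Ctx.rk_rat C.D0_real h0 h1, h2]
    · exact h2
  obtain ⟨a, a', h⟩ := hs
  have h2 : ((max a q : ℚ) : ℝ) < x.r := by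
    rw [Rat.cast_max]; exact max_lt h.2.1 hqr
  have hgood := h.mono (le_max_left _ _) h2 h.2.2.1 le_rfl
  have hJ := x.halo_L_J hg hgood
  rcases (le_max_right a q).eq_or_lt with h3 | h3
  · rw [← h3] at hJ; exact hJ
  · rw [x.L_split k h0 h3 h2]
    exact (LLe.mul _ _).J.trans hJ

/-- a pattern realised by closed names close to `r` is realised by a selected datum at `r`. -/
lemma exists_W_of (r : ℝ) (k : ℕ) {a0 a0' : ℚ} (h0 : 0 ≤ a0) (ha : (a0 : ℝ) < r)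
    (ha' : r < a0') (h1 : a0' ≤ 1) (x0 y0 : T k) (b : Bool)
    (H : ∀ q1 q1' : ℚ, a0 < q1 → (q1 : ℝ) < r → r < q1' → q1' < a0' →
      ∃ v, Closed v ∧ ltD C.D0 (.rat q1) v ∧ ltD C.D0 v (.rat q1') ∧
        tauD C.D0 k (.rat a0) v = x0 ∧ colD C.D0 v = b ∧ tauD C.D0 k v (.rat a0') = y0) :
    ∃ (m : ℕ) (re : C.Re (C.W m r)), Ctx.rk (C.W m r) .var = r ∧
      tauD (C.W m r) k (.rat a0) .var = x0 ∧ colD (C.W m r) .var = b ∧
      tauD (C.W m r) k .var (.rat a0') = y0 := by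
  have hr0 : 0 < r := lt_of_le_of_lt (by exact_mod_cast h0) ha
  have hr1 : r < 1 := lt_of_lt_of_le ha' (by exact_mod_cast h1)
  obtain ⟨m, hm1, hm2, hm3⟩ := C.exists_W [(.inl (.rat a0, .var, ⟨k, x0⟩), true), (.inr .var, b),
    (.inl (.var, .rat a0', ⟨k, y0⟩), true)] r hr0 hr1 (by
    intro ε hε
    obtain ⟨q1, g1, g2⟩ := exists_rat_btwn (show max (a0 : ℝ) (r - ε) < r by
      apply max_lt ha; linarith)
    obtain ⟨q1', g3, g4⟩ := exists_rat_btwn (show r < min (a0' : ℝ) (r + ε) by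
      apply lt_min ha'; linarith)
    have e1 : a0 < q1 := by have := (le_max_left _ _).trans_lt g1; exact_mod_cast this
    have e2 : q1' < a0' := by have := g4.trans_le (min_le_left _ _); exact_mod_cast this
    have e1' : r - ε < q1 := (le_max_right _ _).trans_lt g1
    have e2' : (q1' : ℝ) < r + ε := g4.trans_le (min_le_right _ _)
    have q10 : 0 ≤ q1 := h0.trans e1.le
    have q1'1 : q1' ≤ 1 := e2.le.trans h1
    have q11 : q1 ≤ 1 := by have := g2.le.trans hr1.le; exact_mod_cast this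
    have q1'0 : 0 ≤ q1' := by have := hr0.le.trans g3.le; exact_mod_cast this
    obtain ⟨v, hv, hv1, hv2, hv3, hv4, hv5⟩ := H q1 q1' e1 g2 g3 e2
    -- the limit datum
    obtain ⟨D, hD⟩ : ∃ D, D = C.limD (fun n => ev (C.w n) 1 v) := ⟨_, rfl⟩
    have hpos : ∀ᶠ n in (C.U : Filter ℕ), 1 ≤ ev (C.w n) 1 v ∧ ev (C.w n) 1 v ≤ (C.w n).length := by
      filter_upwards [C.limD_eq (fun _ => 1) (.inl (.rat q1, v, ⟨0, 1⟩)),
        C.limD_eq (fun _ => 1) (.inl (v, .rat q1', ⟨0, 1⟩)),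
        C.hlen.eventually_ge_atTop 1] with n hn1 hn2 hn3
      have f1 : ev (C.w n) 1 (.rat q1) < ev (C.w n) 1 v := by
        have : C.limD (fun _ => 1) (.inl (.rat q1, v, ⟨0, 1⟩)) = true := hv1
        rw [hn1] at this
        simp only [dat, decide_eq_true_eq] at this
        exact this.1
      have f2 : ev (C.w n) 1 v < ev (C.w n) 1 (.rat q1') := by
        have : C.limD (fun _ => 1) (.inl (v, .rat q1', ⟨0, 1⟩)) = true := hv2
        rw [hn2] at this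
        simp only [dat, decide_eq_true_eq] at this
        exact this.1
      have f3 := ev_le (C.w n) 1 (by omega) (.rat q1')
      constructor <;> omega
    have hDre : C.Re D := by rw [hD]; exact C.limD_real _ hpos
    have hev : ∀ (n : ℕ) (q : ℚ), ev (C.w n) (ev (C.w n) 1 v) (.rat q) = ev (C.w n) 1 (.rat q) :=
      fun n q => rfl
    have hevv : ∀ (n : ℕ), ev (C.w n) (ev (C.w n) 1 v) .var = ev (C.w n) 1 v := fun n => rfl
    have sub1 : ∀ (q : ℚ) (s : Σ k : ℕ, T k), D (.inl (.rat q, .var, s)) = C.D0 (.inl (.rat q, v, s)) := by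
      intro q s
      obtain ⟨n, hn1, hn2⟩ := ((C.limD_eq (fun n => ev (C.w n) 1 v) (.inl (.rat q, .var, s))).and
        (C.limD_eq (fun _ => 1) (.inl (.rat q, v, s)))).exists
      rw [hD, hn1]
      change _ = C.limD (fun _ => 1) _
      rw [hn2]
      rfl
    have sub2 : ∀ (q : ℚ) (s : Σ k : ℕ, T k), D (.inl (.var, .rat q, s)) = C.D0 (.inl (v, .rat q, s)) := by
      intro q s
      obtain ⟨n, hn1, hn2⟩ := ((C.limD_eq (fun n => ev (C.w n) 1 v) (.inl (.var, .rat q, s))).and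
        (C.limD_eq (fun _ => 1) (.inl (v, .rat q, s)))).exists
      rw [hD, hn1]
      change _ = C.limD (fun _ => 1) _
      rw [hn2]
      rfl
    have sub3 : D (.inr .var) = C.D0 (.inr v) := by
      obtain ⟨n, hn1, hn2⟩ := ((C.limD_eq (fun n => ev (C.w n) 1 v) (.inr .var)).and
        (C.limD_eq (fun _ => 1) (.inr v))).exists
      rw [hD, hn1]
      change _ = C.limD (fun _ => 1) _
      rw [hn2]
      rfl
    have l1 : ltD D (.rat q1) .var := by unfold ltD; rw [sub1]; exact hv1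
    have l2 : ltD D .var (.rat q1') := by unfold ltD; rw [sub2]; exact hv2
    have r1 : (q1 : ℝ) ≤ Ctx.rk D .var := by
      rw [← Ctx.rk_rat hDre q10 q11]; exact Ctx.rk_mono' hDre l1
    have r2 : Ctx.rk D .var ≤ q1' := by
      rw [← Ctx.rk_rat hDre q1'0 q1'1]; exact Ctx.rk_mono' hDre l2
    refine ⟨Ctx.rk D .var, D, ?_, hDre, rfl, ?_⟩
    · rw [abs_lt]
      constructor <;> linarith
    · have a1 : ltD C.D0 (.rat a0) v :=
        RealD.lt_trans C.D0_real (Ctx.rat_lt C.D0_real h0 e1 q11) hv1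
      have a2 : ltD C.D0 v (.rat a0') :=
        RealD.lt_trans C.D0_real hv2 (Ctx.rat_lt C.D0_real q1'0 e2 h1)
      intro α hα
      simp only [List.mem_cons, List.not_mem_nil, or_false] at hα
      rcases hα with rfl | rfl | rfl
      · rw [sub1, RealD.atom_iff C.D0_real]
        exact ⟨a1, hv3⟩
      · change D (.inr .var) = b
        rw [sub3]; exact hv4
      · rw [sub2, RealD.atom_iff C.D0_real]
        exact ⟨a2, hv5⟩)
  refine ⟨m, hm1, hm2, ?_, ?_, ?_⟩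
  · have := hm3 (.inl (.rat a0, .var, ⟨k, x0⟩), true) (by simp)
    rw [RealD.atom_iff hm1] at this
    exact this.2
  · exact hm3 (.inr .var, b) (by simp)
  · have := hm3 (.inl (.var, .rat a0', ⟨k, y0⟩), true) (by simp)
    rw [RealD.atom_iff hm1] at this
    exact this.2

end Pnt

end Pool.Agent.Work.MP_44611a_co
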