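import Pool.Agent.Work.MP_44611a_co.Split

set_option autoImplicit false
set_option linter.all false

/-! Realisation of triples between two points of the same generic rank. -/

namespace Pool.Agent.Work.MP_44611a_co

open Filter Topology

namespace Pnt

variable {C : Ctx}

/-- near `r` there are closed names with prescribed one sided classes -/
lemma near (k : ℕ) {r : ℝ} {S m : T (k + 1)} {a0 a0' : ℚ} (h : C.Good (k + 1) r S a0 a0')
    (hm : JEq m S) (t : T k × Bool × T k) (ht : t ∈ Tr m) (hA : JLe t.1 (pr k S))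
    (hB : JLe t.2.2 (pr k S)) (q1 q1' : ℚ) (h1 : a0 < q1) (h2 : (q1 : ℝ) < r) (h3 : r < q1')
    (h4 : q1' < a0') :
    ∃ v, Closed v ∧ ltD C.D0 (.rat q1) v ∧ ltD C.D0 v (.rat q1') ∧ colD C.D0 v = t.2.1 ∧
      (LLe (tauD C.D0 k (.rat a0) v) t.1 ∧ LLe t.1 (tauD C.D0 k (.rat a0) v) ∧
        RLe (tauD C.D0 k (.rat a0) v) (C.I k a0 a0') ∧
        RLe (C.I k a0 a0') (tauD C.D0 k (.rat a0) v)) ∧
      (RLe (tauD C.D0 k v (.rat a0')) t.2.2 ∧ RLe t.2.2 (tauD C.D0 k v (.rat a0')) ∧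
        LLe (tauD C.D0 k v (.rat a0')) (C.I k a0 a0') ∧
        LLe (C.I k a0 a0') (tauD C.D0 k v (.rat a0'))) := by
  have hJ1 : JLe (C.I (k + 1) q1 q1') m := (h.2.2.2.2 q1 q1' h1.le h2 h3 h4.le).1.trans hm.2
  obtain ⟨α, β, hαβ⟩ := hJ1
  have hmem : (pr k α * t.1, t.2.1, t.2.2 * pr k β) ∈ Tr (C.I (k + 1) q1 q1') := by
    rw [hαβ, mem_Tr_mul]
    left
    refine ⟨(pr k α * t.1, t.2.1, t.2.2), ?_, rfl⟩
    rw [mem_Tr_mul]
    right
    exact ⟨t, ht, rfl⟩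
  have hq : q1 < q1' := by exact_mod_cast h2.trans h3
  have q10 : 0 ≤ q1 := h.1.trans h1.le
  have q11' : q1' ≤ 1 := h4.le.trans h.2.2.2.1
  have q11 : q1 ≤ 1 := hq.le.trans q11'
  have q10' : 0 ≤ q1' := q10.trans hq.le
  obtain ⟨j, f1, f2, f3⟩ := RealD.skolem C.D0_real k (Ctx.rat_lt C.D0_real q10 hq q11') _ hmem
  obtain ⟨v, hv⟩ : ∃ v, v = Nm.sk (.rat q1) (.rat q1') j := ⟨_, rfl⟩
  have hvc : Closed v := by rw [hv]; exact ⟨trivial, trivial⟩
  rw [← hv] at f1 f2 f3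
  simp only [Prod.mk.injEq] at f3
  obtain ⟨f3, f4, f5⟩ := f3
  let z : Pnt C := ⟨C.D0, C.D0_real, v⟩
  have z1 : Rlt q1 z := f1
  have z2 : z.ltR q1' := f2
  have z0 : Rlt a0 z := z1.mono h.1 h1 q11
  have z3 : z.ltR a0' := z2.mono q10' h4 h.2.2.2.1
  have hgJ := (h.pr).2.2.2.2 a0 a0' le_rfl h.2.1 h.2.2.1 le_rfl
  have eL : z.Lf k a0 = C.I k a0 q1 * cls k [C.cR q1] * z.Lf k q1 := z.L_split' k h.1 h1 z1 q11
  have eR : z.R k a0' = z.R k q1' * cls k [C.cR q1'] * C.I k q1' a0' :=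
    z.R_split' k z2 q10' h4 h.2.2.2.1
  have eI : C.I k a0 a0' = z.Lf k a0 * cls k [z.c] * z.R k a0' := z.I_split' k z0 z3
  have l1 : LLe (z.Lf k a0) t.1 := by
    have e : z.Lf k q1 = pr k α * t.1 := f3.symm
    rw [eL, e, ← mul_assoc]
    exact LLe.mul _ _
  have l2 : RLe (C.I k a0 a0') (z.Lf k a0) := by
    rw [eI, mul_assoc]
    exact RLe.mul _ _
  have r1 : RLe (z.R k a0') t.2.2 := by
    have e : z.R k q1' = t.2.2 * pr k β := f5.symm
    rw [eR, e, mul_assoc, mul_assoc]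
    exact RLe.mul _ _
  have r2 : LLe (C.I k a0 a0') (z.R k a0') := by
    rw [eI]
    exact LLe.mul _ _
  refine ⟨v, hvc, f1, f2, f4.symm, ⟨l1, ?_, ?_, l2⟩, ⟨r1, ?_, ?_, r2⟩⟩
  · exact stab_L (aperT k) l1 (hA.trans (hgJ.2.trans l2.J))
  · exact stab_R (aperT k) l2 (l1.J.trans (hA.trans hgJ.2))
  · exact stab_R (aperT k) r1 (hB.trans (hgJ.2.trans r2.J))
  · exact stab_L (aperT k) r2 (r1.J.trans (hB.trans hgJ.2))

theorem split_box {k : ℕ} {x y : Pnt C} (hg : C.Gen x.r) (hxy : x.r = y.r) {m : T (k + 1)}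
    (hm : IsB (k + 1) x y m) (t : T k × Bool × T k) (ht : t ∈ Tr m) :
    (∃ w : Pnt C, IsS k x w t.1 ∧ w.r = x.r ∧ w.c = t.2.1 ∧ IsB k w y t.2.2) ∨
    (∃ w : Pnt C, IsS k w y t.2.2 ∧ w.r = y.r ∧ w.c = t.2.1 ∧ IsB k x w t.1) ∨
    (∃ (m0 : ℕ) (re : C.Re (C.W m0 x.r)), Ctx.rk (C.W m0 x.r) .var = x.r ∧
      colD (C.W m0 x.r) .var = t.2.1 ∧ IsB k x ⟨_, re, .var⟩ t.1 ∧
      IsB k ⟨_, re, .var⟩ y t.2.2) := by
  have hgy : C.Gen y.r := hxy ▸ hg
  obtain ⟨S, a0, a0', h⟩ := C.exists_Jat (k + 1) hg.1 hg.2.1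
  have hB := hm.all hg hxy h
  have h' := h.pr
  have hpm := hm.pr hxy
  have hB' := hpm.all hg hxy h'
  have hJm : JEq (pr k m) (pr k S) := hpm.J hg h'.Jat
  have hprod : t.1 * cls k [t.2.1] * t.2.2 = pr k m := mul_of_mem_Tr ht
  have hmR : RLe (pr k m) t.1 := ⟨cls k [t.2.1] * t.2.2, by rw [← hprod, mul_assoc]⟩
  have hmL : LLe (pr k m) t.2.2 := ⟨t.1 * cls k [t.2.1], hprod.symm⟩
  have hs0 : JLe (pr k S) t.1 := hJm.2.trans hmR.J
  have ht0 : JLe (pr k S) t.2.2 := hJm.2.trans hmL.J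
  have a0'0 : 0 ≤ a0' := h.1.trans (by exact_mod_cast (h.2.1.trans h.2.2.1).le)
  have a01 : a0 ≤ 1 := (by exact_mod_cast (h.2.1.trans h.2.2.1).le : a0 ≤ a0').trans h.2.2.2.1
  by_cases hA : JLe t.1 (pr k S)
  · by_cases hBt : JLe t.2.2 (pr k S)
    · -- both in the class
      right; right
      have hmJ : JEq m S := hm.J hg h.Jat
      have near' := near k h hmJ t ht hA hBt
      obtain ⟨p1, hp1, hp1'⟩ := exists_rat_btwn h.2.1
      obtain ⟨p2, hp2, hp2'⟩ := exists_rat_btwn h.2.2.1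
      obtain ⟨v0, _, _, _, _, ⟨L1, L2, L3, L4⟩, ⟨R1, R2, R3, R4⟩⟩ :=
        near' p1 p2 (by exact_mod_cast hp1) hp1' hp2 (by exact_mod_cast hp2')
      obtain ⟨m0, re, w1, w2, w3, w4⟩ := exists_W_of x.r k h.1 h.2.1 h.2.2.1 h.2.2.2.1
        (tauD C.D0 k (.rat a0) v0) (tauD C.D0 k v0 (.rat a0')) t.2.1 (by
          intro q1 q1' g1 g2 g3 g4
          obtain ⟨v, v1, v2, v3, v4, ⟨M1, M2, M3, M4⟩, ⟨N1, N2, N3, N4⟩⟩ :=
            near' q1 q1' g1 g2 g3 g4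
          refine ⟨v, v1, v2, v3, ?_, v4, ?_⟩
          · exact eq_of_LR (aperT k) (M1.trans L2) (L3.trans M4)
          · exact eq_of_LR (aperT k) (N3.trans R4) (R1.trans N2))
      refine ⟨m0, re, w1, w3, ?_, ?_⟩
      · refine ⟨pr k S, a0, a0', h', ?_⟩
        have e : (Pnt.mk (C.W m0 x.r) re .var).Lf k a0 = tauD C.D0 k (.rat a0) v0 := w2
        rw [e]
        have f : RLe t.1 (pr k m) := stab_R (aperT k) hmR (hA.trans hJm.2)
        exact ⟨f.trans hB'.1, hB'.2.1.trans hmR, L2, L1⟩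
      · have hr : (Pnt.mk (C.W m0 x.r) re .var).r = x.r := w1
        refine ⟨pr k S, a0, a0', by rw [hr]; exact h', ?_⟩
        have e : (Pnt.mk (C.W m0 x.r) re .var).R k a0' = tauD C.D0 k v0 (.rat a0') := w4
        rw [e]
        have f : LLe t.2.2 (pr k m) := stab_L (aperT k) hmL (hBt.trans hJm.2)
        exact ⟨R2, R1, f.trans hB'.2.2.1, hB'.2.2.2.trans hmL⟩
    · -- near `y`
      right; left
      obtain ⟨y2, hy2⟩ := hB.2.2.1
      rw [hy2, mem_Tr_mul] at ht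
      rcases ht with ⟨r, hr, hr'⟩ | ⟨r, hr, hr'⟩
      · exfalso
        apply hBt
        rw [hr', y.L_T0 k h.1 (hxy ▸ h.2.1)]
        exact (LLe.mul _ _).J.trans (y.halo_L hgy (hxy ▸ h')).1.1
      · obtain ⟨w, hw, hwc, hwq, hwL⟩ := step_left y k h.1 a01 (y.Rlt_of h.1 (hxy ▸ h.2.1)) r hr
        have e1 : t.1 = pr k y2 * r.1 := by rw [hr']
        have e2 : t.2.1 = r.2.1 := by rw [hr']
        have e3 : t.2.2 = r.2.2 := by rw [hr']
        rcases hw with ⟨hw1, hw2, _⟩ | ⟨_, _, q1, g1, g2, g3, g4, g5⟩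
        · have hwr : w.r = x.r := hw2.trans hxy.symm
          have hgw : C.Gen w.r := hwr ▸ hg
          refine ⟨w, e3 ▸ hw1, hw2, hwc.trans e2.symm, pr k S, a0, a0', h', ?_⟩
          have hwJ := (w.halo_L hgw (hwr ▸ h')).1
          refine Box.of_J (aperT k) ?_ ?_ ((x.halo_R hg h').1.1.trans hs0) (hwJ.1.trans hs0)
          · have f : JLe t.1 (pr k m) := by
              rw [e1, ← hwL]
              exact (LLe.mul _ _).J.trans (hwJ.1.trans hJm.2)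
            exact (stab_R (aperT k) hmR f).trans hB'.1
          · rw [hwL, e1]
            exact LLe.mul _ _
        · exfalso
          apply hBt
          rw [e3, g5]
          exact (LLe.mul _ _).J.trans (y.L_JLe hgy (hxy ▸ h'.Jat) g1 g2 g4)
  · -- near `x`
    left
    obtain ⟨y1, hy1⟩ := hB.1
    rw [hy1, mem_Tr_mul] at ht
    rcases ht with ⟨r, hr, hr'⟩ | ⟨r, hr, hr'⟩
    · obtain ⟨w, hw, hwc, hwq, hwR⟩ := step_right x k a0'0 h.2.2.2.1
        (x.ltR_of h.2.2.1 h.2.2.2.1) r hr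
      have e1 : t.1 = r.1 := by rw [hr']
      have e2 : t.2.1 = r.2.1 := by rw [hr']
      have e3 : t.2.2 = r.2.2 * pr k y1 := by rw [hr']
      rcases hw with ⟨hw1, hw2, _⟩ | ⟨_, _, q1, g1, g2, g3, g4, g5⟩
      · have hgw : C.Gen w.r := hw2 ▸ hg
        have hwG : C.Good k w.r (pr k S) a0 a0' := by rw [hw2]; exact h'
        refine ⟨w, e1 ▸ hw1, hw2, hwc.trans e2.symm, pr k S, a0, a0', hwG, ?_⟩
        have hwJ := (w.halo_R hgw hwG).1
        refine Box.of_J (aperT k) ?_ ?_ (hwJ.1.trans ht0)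
          ((y.halo_L hgy (hxy ▸ h')).1.1.trans ht0)
        · rw [hwR, e3]
          exact RLe.mul _ _
        · have f : JLe t.2.2 (pr k m) := by
            rw [e3, ← hwR]
            exact (RLe.mul _ _).J.trans (hwJ.1.trans hJm.2)
          exact (stab_L (aperT k) hmL f).trans hB'.2.2.1
      · exfalso
        apply hA
        rw [e1, g5, mul_assoc]
        exact (RLe.mul _ _).J.trans (x.R_JLe hg h'.Jat g1 g2 g3)
    · exfalso
      apply hA
      rw [hr', x.R_T0 k h.2.2.1 h.2.2.2.1]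
      exact (RLe.mul _ _).J.trans (x.halo_R hg h').1.1

end Pnt

end Pool.Agent.Work.MP_44611a_co
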