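import Pool.Agent.Work.MP_44611a_co.Lim

set_option autoImplicit false
set_option linter.all false

/-! Measurability of definable sets and the Stone pairings of the limit structure. -/

namespace Pool.Agent.Work.MP_44611a_co

open Filter Topology MeasureTheory ProbabilityTheory

section

variable (L : FirstOrder.Language.{0, 0}) (lt : L.Relations 2) (col : L.Relations 1)
  (hfun : ∀ n, IsEmpty (L.Functions n)) (hr2 : ∀ r : L.Relations 2, r = lt)
  (hr1 : ∀ r : L.Relations 1, r = col) (hrn : ∀ n, n ≠ 1 → n ≠ 2 → IsEmpty (L.Relations n))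

/-- truth of a formula in a typed structure -/
def Tru {E : Type} [LinearOrder E] [BoundedOrder E] (S : TS E) {p : ℕ} (φ : L.Formula (Fin p))
    (v : Fin p → Pt E) : Prop :=
  @FirstOrder.Language.Formula.Realize L (Pt E) (mkStr L hfun S) (Fin p) φ v

include hr2 hr1 hrn in
lemma Tru_iff {E E' : Type} [LinearOrder E] [BoundedOrder E] [LinearOrder E'] [BoundedOrder E']
    {S : TS E} {S' : TS E'} {p : ℕ} (φ : L.Formula (Fin p)) {k : ℕ} (hk : qd φ ≤ k)
    {v : Fin p → Pt E} {v' : Fin p → Pt E'}
    (h : TS.Sim S S' k (extT v (default : Fin 0 → Pt E)) (extT v' (default : Fin 0 → Pt E'))) :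
    Tru L hfun S φ v ↔ Tru L hfun S' φ v' := by
  letI := mkStr L hfun S
  letI := mkStr L hfun S'
  exact transfer lt col hfun hr2 hr1 hrn (mkStr_compat L hfun S lt col)
    (mkStr_compat L hfun S' lt col) φ k hk v default v' default h

variable (C : Ctx)

/-- full codes of tuples -/
abbrev FC (k p : ℕ) : Type := ((Bool ⊕ (Fin p ⊕ Fin 0)) → (Bool ⊕ (Fin p ⊕ Fin 0)) → Bool) ×
  ((Bool ⊕ (Fin p ⊕ Fin 0)) → Bool) × ((Bool ⊕ (Fin p ⊕ Fin 0)) → (Bool ⊕ (Fin p ⊕ Fin 0)) → T k)

/-- the full code of a tuple -/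
noncomputable def fcode {E : Type} [LinearOrder E] [BoundedOrder E] (S : TS E) (k : ℕ) {p : ℕ}
    (v : Fin p → Pt E) : FC k p :=
  (fun i j => decide (extT v (default : Fin 0 → Pt E) i < extT v (default : Fin 0 → Pt E) j),
   fun i => S.col (extT v (default : Fin 0 → Pt E) i),
   fun i j => if extT v (default : Fin 0 → Pt E) i < extT v (default : Fin 0 → Pt E) j then
    S.tau k (extT v (default : Fin 0 → Pt E) i) (extT v (default : Fin 0 → Pt E) j) else 1)

lemma fcode_sim {E : Type} [LinearOrder E] [BoundedOrder E] (S : TS E) (k : ℕ) {p : ℕ}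
    {v v' : Fin p → Pt E} (h : fcode S k v = fcode S k v') :
    TS.Sim S S k (extT v (default : Fin 0 → Pt E)) (extT v' (default : Fin 0 → Pt E)) := by
  simp only [fcode, Prod.mk.injEq] at h
  obtain ⟨h1, h2, h3⟩ := h
  have e1 : ∀ i j, extT v (default : Fin 0 → Pt E) i < extT v (default : Fin 0 → Pt E) j ↔
      extT v' (default : Fin 0 → Pt E) i < extT v' (default : Fin 0 → Pt E) j := fun i j => by
    have := congrFun (congrFun h1 i) j
    simpa using this
  refine ⟨e1, fun i => congrFun h2 i, fun i j hij => ?_⟩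
  have := congrFun (congrFun h3 i) j
  rw [if_pos hij, if_pos ((e1 i j).mp hij)] at this
  exact this

lemma meas_ext {p : ℕ} (i : Bool ⊕ (Fin p ⊕ Fin 0)) :
    Measurable (fun v : Fin p → Pt C.E => extT v (default : Fin 0 → Pt C.E) i) := by
  rcases i with b | a | i
  · exact measurable_const
  · exact measurable_subtype_coe.comp (measurable_pi_apply a)
  · exact Fin.elim0 i

lemma meas_fcode (k p : ℕ) : Measurable (fun v : Fin p → Pt C.E => fcode C.S k v) := by
  have hpair : ∀ i j : Bool ⊕ (Fin p ⊕ Fin 0), Measurable (fun v : Fin p → Pt C.E =>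
      (extT v (default : Fin 0 → Pt C.E) i, extT v (default : Fin 0 → Pt C.E) j)) := fun i j =>
    (meas_ext C i).prodMk (meas_ext C j)
  have hlt : ∀ i j : Bool ⊕ (Fin p ⊕ Fin 0), MeasurableSet {v : Fin p → Pt C.E |
      extT v (default : Fin 0 → Pt C.E) i < extT v (default : Fin 0 → Pt C.E) j} := fun i j =>
    (hpair i j) C.meas_ltE
  refine Measurable.prodMk ?_ (Measurable.prodMk ?_ ?_)
  · rw [measurable_pi_iff]
    intro i
    rw [measurable_pi_iff]
    intro j
    apply measurable_to_bool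
    have : (fun v : Fin p → Pt C.E => decide (extT v (default : Fin 0 → Pt C.E) i <
        extT v (default : Fin 0 → Pt C.E) j)) ⁻¹' {true} = {v : Fin p → Pt C.E |
        extT v (default : Fin 0 → Pt C.E) i < extT v (default : Fin 0 → Pt C.E) j} := by
      ext v
      simp only [Set.mem_preimage, Set.mem_singleton_iff, decide_eq_true_eq]
      rfl
    rw [this]
    exact hlt i j
  · rw [measurable_pi_iff]
    intro i
    exact C.meas_colE.comp (meas_ext C i)
  · rw [measurable_pi_iff]
    intro i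
    rw [measurable_pi_iff]
    intro j
    apply measurable_to_countable'
    intro t
    have : (fun v : Fin p → Pt C.E => if extT v (default : Fin 0 → Pt C.E) i <
        extT v (default : Fin 0 → Pt C.E) j then C.S.tau k (extT v (default : Fin 0 → Pt C.E) i)
        (extT v (default : Fin 0 → Pt C.E) j) else 1) ⁻¹' {t} =
        {v : Fin p → Pt C.E | extT v (default : Fin 0 → Pt C.E) i <
          extT v (default : Fin 0 → Pt C.E) j ∧ C.S.tau k (extT v (default : Fin 0 → Pt C.E) i)
        (extT v (default : Fin 0 → Pt C.E) j) = t} ∪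
        ({v : Fin p → Pt C.E | extT v (default : Fin 0 → Pt C.E) i <
          extT v (default : Fin 0 → Pt C.E) j}ᶜ ∩ {v | 1 = t}) := by
      ext v
      simp only [Set.mem_preimage, Set.mem_singleton_iff, Set.mem_union, Set.mem_inter_iff,
        Set.mem_compl_iff]
      by_cases h : extT v (default : Fin 0 → Pt C.E) i < extT v (default : Fin 0 → Pt C.E) j
      · rw [if_pos h]
        exact ⟨fun h' => Or.inl ⟨h, h'⟩, fun h' => h'.elim (fun h => h.2) (fun h' => absurd h h'.1)⟩
      · rw [if_neg h]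
        exact ⟨fun h' => Or.inr ⟨h, h'⟩, fun h' => h'.elim (fun h' => absurd h'.1 h) (fun h => h.2)⟩
    rw [this]
    exact ((hpair i j) (C.meas_tauE k t)).union ((hlt i j).compl.inter (MeasurableSet.const _))

include hr2 hr1 hrn in
lemma meas_Tru {p : ℕ} (φ : L.Formula (Fin p)) :
    MeasurableSet {v : Fin p → Pt C.E | Tru L hfun C.S φ v} := by
  have : {v : Fin p → Pt C.E | Tru L hfun C.S φ v} = (fun v => fcode C.S (qd φ) v) ⁻¹'
      {c | ∃ v : Fin p → Pt C.E, fcode C.S (qd φ) v = c ∧ Tru L hfun C.S φ v} := by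
    ext v
    constructor
    · intro h
      exact ⟨v, rfl, h⟩
    · rintro ⟨v', h1, h2⟩
      exact (Tru_iff L lt col hfun hr2 hr1 hrn φ le_rfl (fcode_sim C.S _ h1)).mp h2
  rw [this]
  exact (meas_fcode C _ _) (Set.to_countable _).measurableSet

/-- rank of a point -/
noncomputable def rhoX (x : Pt C.E) : ℝ := C.rho x.1.1.1

lemma meas_rhoX : Measurable (rhoX C) :=
  C.meas_rho.comp (measurable_subtype_coe.comp (measurable_subtype_coe.comp measurable_subtype_coe))

lemma rho_clE {q : ℚ} (h0 : 0 ≤ q) (h1 : q ≤ 1) :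
    C.rho (C.clE (.rat q) (Ctx.closed_rat q)).1.1 = q := by
  rw [← (Ctx.key_eq_iff.mp (Ctx.clE_spec (C := C) (.rat q) (Ctx.closed_rat q)).1).1]
  exact Ctx.rk_rat C.D0_real h0 h1

lemma lt_of_rho {a b : C.E} (h : C.rho a.1.1 < C.rho b.1.1) : a < b := by
  rw [Ctx.E_lt_iff]
  left
  rw [Ctx.key_lt_iff]
  exact Or.inl h

/-- points of different ranks are separated by a fine grid -/
lemma sep_of_rho (k j : ℕ) (hj : 0 < j) {x y : Pt C.E} (h : 1 / (j : ℝ) < |rhoX C x - rhoX C y|) :
    sepC (gcode C.S k (C.gridE j) x) (gcode C.S k (C.gridE j) y) := by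
  have key : ∀ {x y : Pt C.E}, 1 / (j : ℝ) < rhoX C y - rhoX C x →
      ∃ i, x.1 < C.gridE j i ∧ C.gridE j i < y.1 := by
    intro x y h
    have hjr : (0 : ℝ) < j := by exact_mod_cast hj
    have hx0 : 0 ≤ rhoX C x := Ctx.rho_nonneg _
    have hy1 : rhoX C y ≤ 1 := Ctx.rho_le_one _
    have h1 : rhoX C x * j < ⌊rhoX C x * j⌋₊ + 1 := Nat.lt_floor_add_one _
    have h2 : (⌊rhoX C x * j⌋₊ : ℝ) ≤ rhoX C x * j := Nat.floor_le (by positivity)
    have h3 : rhoX C x * j + 1 < rhoX C y * j := by
      rw [div_lt_iff₀ hjr] at h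
      linarith
    have h4 : (⌊rhoX C x * j⌋₊ : ℝ) + 1 < j + 1 := by nlinarith
    have h5 : ⌊rhoX C x * j⌋₊ + 1 < j + 1 := by exact_mod_cast h4
    refine ⟨⟨⌊rhoX C x * j⌋₊ + 1, h5⟩, ?_, ?_⟩
    · apply lt_of_rho
      unfold Ctx.gridE
      rw [rho_clE C (gq_nonneg j _) (gq_le_one j hj _)]
      unfold gq
      push_cast
      rw [lt_div_iff₀ hjr]
      exact h1
    · apply lt_of_rho
      unfold Ctx.gridE
      rw [rho_clE C (gq_nonneg j _) (gq_le_one j hj _)]
      unfold gq
      push_cast
      rw [div_lt_iff₀ hjr]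
      change _ < rhoX C y * j
      linarith
  rw [sepC_iff]
  rcases lt_abs.mp h with h | h
  · right
    exact key h
  · left
    exact key (by linarith)

lemma mu_rho_null (r : ℝ) : (C.mu.map (rhoX C)) {r} = 0 := by
  rw [Measure.map_apply (meas_rhoX C) (measurableSet_singleton r)]
  rw [C.mu_apply ((meas_rhoX C) (measurableSet_singleton r)) {D | C.Re D ∧ Ctx.rk D .var = r}]
  · exact C.Q_rank_null r
  · intro D
    constructor
    · intro h
      exact ⟨D.2.1, h⟩
    · intro h
      exact h.2

lemma same_rho_null {p : ℕ} (a b : Fin p) (hab : a ≠ b) :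
    (Measure.pi (fun _ : Fin p => C.mu)) {v | rhoX C (v a) = rhoX C (v b)} = 0 := by
  have hind : IndepFun (fun v : Fin p → Pt C.E => rhoX C (v a))
      (fun v : Fin p → Pt C.E => rhoX C (v b)) (Measure.pi (fun _ : Fin p => C.mu)) := by
    have h := iIndepFun_pi (μ := fun _ : Fin p => C.mu) (X := fun _ : Fin p => rhoX C)
      (fun _ => (meas_rhoX C).aemeasurable)
    exact h.indepFun hab
  have ma : Measurable (fun v : Fin p → Pt C.E => rhoX C (v a)) :=
    (meas_rhoX C).comp (measurable_pi_apply a)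
  have mb : Measurable (fun v : Fin p → Pt C.E => rhoX C (v b)) :=
    (meas_rhoX C).comp (measurable_pi_apply b)
  have hmap := (indepFun_iff_map_prod_eq_prod_map_map ma.aemeasurable mb.aemeasurable).mp hind
  have hdiag : MeasurableSet {x : ℝ × ℝ | x.1 = x.2} :=
    measurableSet_eq_fun measurable_fst measurable_snd
  have h1 : (Measure.pi (fun _ : Fin p => C.mu)) {v | rhoX C (v a) = rhoX C (v b)} =
      (Measure.map (fun v : Fin p → Pt C.E => (rhoX C (v a), rhoX C (v b)))
        (Measure.pi (fun _ : Fin p => C.mu))) {x : ℝ × ℝ | x.1 = x.2} := by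
    rw [Measure.map_apply (ma.prodMk mb) hdiag]
    rfl
  rw [h1, hmap, Measure.measure_prod_null hdiag]
  have h2 : Measure.map (fun v : Fin p → Pt C.E => rhoX C (v b))
      (Measure.pi (fun _ : Fin p => C.mu)) = C.mu.map (rhoX C) := by
    have h3 := (measurePreserving_eval (fun _ : Fin p => C.mu) b).map_eq
    rw [← h3, Measure.map_map (meas_rhoX C) (measurable_pi_apply b), h3]
    rfl
  rw [h2]
  filter_upwards with x
  have : Prod.mk x ⁻¹' {x : ℝ × ℝ | x.1 = x.2} = {x} := by
    ext y
    simp only [Set.mem_preimage, Set.mem_singleton_iff]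
    exact eq_comm
  rw [this]
  exact mu_rho_null C x

/-- non-separated tuples -/
def NS (p j : ℕ) : Set (Fin p → Pt C.E) :=
  {v | ∃ a b, a ≠ b ∧ |rhoX C (v a) - rhoX C (v b)| ≤ 1 / ((j : ℝ) + 1)}

lemma meas_NS (p j : ℕ) : MeasurableSet (NS C p j) := by
  have : NS C p j = ⋃ a : Fin p, ⋃ b : Fin p, ({v | a ≠ b} ∩
      {v | |rhoX C (v a) - rhoX C (v b)| ≤ 1 / ((j : ℝ) + 1)}) := by
    ext v
    simp only [Set.mem_iUnion]
    rfl
  rw [this]
  refine MeasurableSet.iUnion fun a => MeasurableSet.iUnion fun b =>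
    (MeasurableSet.const _).inter ?_
  have ma : Measurable (fun v : Fin p → Pt C.E => rhoX C (v a)) :=
    (meas_rhoX C).comp (measurable_pi_apply a)
  have mb : Measurable (fun v : Fin p → Pt C.E => rhoX C (v b)) :=
    (meas_rhoX C).comp (measurable_pi_apply b)
  exact measurableSet_le (ma.sub mb).abs measurable_const

lemma NS_tendsto (p : ℕ) : Tendsto (fun j => (Measure.pi (fun _ : Fin p => C.mu)) (NS C p j))
    atTop (𝓝 0) := by
  have hanti : Antitone (NS C p) := by
    intro i j hij v hv
    obtain ⟨a, b, hab, h⟩ := hv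
    refine ⟨a, b, hab, h.trans ?_⟩
    apply one_div_le_one_div_of_le
    · positivity
    · have : (i : ℝ) ≤ j := by exact_mod_cast hij
      linarith
  have h := tendsto_measure_iInter_atTop (μ := Measure.pi (fun _ : Fin p => C.mu))
    (s := NS C p) (fun j => (meas_NS C p j).nullMeasurableSet) hanti ⟨0, measure_ne_top _ _⟩
  have h0 : (Measure.pi (fun _ : Fin p => C.mu)) (⋂ j, NS C p j) = 0 := by
    have hsub : (⋂ j, NS C p j) ⊆ ⋃ a : Fin p, ⋃ b : Fin p, ⋃ (_ : a ≠ b),
        {v | rhoX C (v a) = rhoX C (v b)} := by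
      intro v hv
      by_contra hcon
      simp only [Set.mem_iUnion, not_exists] at hcon
      -- a positive lower bound
      have hpos : ∃ j : ℕ, ∀ a b : Fin p, a ≠ b →
          1 / ((j : ℝ) + 1) < |rhoX C (v a) - rhoX C (v b)| := by
        have hab : ∀ x : Fin p × Fin p, ∃ j : ℕ, x.1 ≠ x.2 →
            1 / ((j : ℝ) + 1) < |rhoX C (v x.1) - rhoX C (v x.2)| := by
          intro x
          by_cases hx : x.1 = x.2
          · exact ⟨0, fun h => absurd hx h⟩
          · have hne : rhoX C (v x.1) - rhoX C (v x.2) ≠ 0 := by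
              intro h
              exact hcon x.1 x.2 hx (sub_eq_zero.mp h)
            obtain ⟨j, hj⟩ := exists_nat_one_div_lt (abs_pos.mpr hne)
            exact ⟨j, fun _ => hj⟩
        choose J hJ using hab
        refine ⟨Finset.univ.sup J, fun a b hne => ?_⟩
        refine lt_of_le_of_lt ?_ (hJ (a, b) hne)
        apply one_div_le_one_div_of_le
        · positivity
        · have : J (a, b) ≤ Finset.univ.sup J := Finset.le_sup (Finset.mem_univ _)
          have : (J (a, b) : ℝ) ≤ (Finset.univ.sup J : ℕ) := by exact_mod_cast this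
          linarith
      obtain ⟨j, hj⟩ := hpos
      rw [Set.mem_iInter] at hv
      obtain ⟨a, b, hab, h⟩ := hv j
      exact absurd h (not_le.mpr (hj a b hab))
    apply measure_mono_null hsub
    rw [measure_iUnion_null_iff]
    intro a
    rw [measure_iUnion_null_iff]
    intro b
    rw [measure_iUnion_null_iff]
    intro hab
    exact same_rho_null C a b hab
  rw [h0] at h
  exact h

end

end Pool.Agent.Work.MP_44611a_co
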