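import Pool.Agent.Work.MP_44611a_co.Elem

set_option autoImplicit false
set_option linter.all false

/-! The limit structure as a typed structure. -/

namespace Pool.Agent.Work.MP_44611a_co

open Filter Topology

open Classical in
/-- an injective code of the names, the variable has code zero -/
noncomputable def code (u : Nm) : ℕ :=
  if u = .var then 0 else Classical.choose (exists_injective_nat Nm) u + 1

lemma code_inj : Function.Injective code := by
  intro u v h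
  unfold code at h
  by_cases h1 : u = .var
  · by_cases h2 : v = .var
    · rw [h1, h2]
    · rw [if_pos h1, if_neg h2] at h
      omega
  · by_cases h2 : v = .var
    · rw [if_neg h1, if_pos h2] at h
      omega
    · rw [if_neg h1, if_neg h2] at h
      exact Classical.choose_spec (exists_injective_nat Nm) (Nat.succ_injective h)

lemma code_var : code .var = 0 := by unfold code; rw [if_pos rfl]

/-- equivalent points -/
def PEq {C : Ctx} (x x' : Pnt C) : Prop := x.D = x'.D ∧ eqD x.D x.u x'.u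

namespace PEq

variable {C : Ctx} {x x' : Pnt C}

lemma R (h : PEq x x') (k : ℕ) (q : ℚ) : x.R k q = x'.R k q := by
  obtain ⟨D, re, u⟩ := x
  obtain ⟨D', re', u'⟩ := x'
  obtain ⟨h1, h2⟩ := h
  simp only at h1 h2
  subst h1
  exact RealD.tau_congr_left' re k h2 _

lemma Lf (h : PEq x x') (k : ℕ) (q : ℚ) : x.Lf k q = x'.Lf k q := by
  obtain ⟨D, re, u⟩ := x
  obtain ⟨D', re', u'⟩ := x'
  obtain ⟨h1, h2⟩ := h
  simp only at h1 h2
  subst h1
  exact RealD.tau_congr_right' re k h2 _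

lemma c (h : PEq x x') : x.c = x'.c := by
  obtain ⟨D, re, u⟩ := x
  obtain ⟨D', re', u'⟩ := x'
  obtain ⟨h1, h2⟩ := h
  simp only at h1 h2
  subst h1
  exact RealD.col_congr re h2

lemma r (h : PEq x x') : x.r = x'.r := by
  obtain ⟨D, re, u⟩ := x
  obtain ⟨D', re', u'⟩ := x'
  obtain ⟨h1, h2⟩ := h
  simp only at h1 h2
  subst h1
  exact Ctx.rk_congr re h2

lemma ltR (h : PEq x x') {q : ℚ} (hq : x.ltR q) : x'.ltR q := by
  obtain ⟨D, re, u⟩ := x
  obtain ⟨D', re', u'⟩ := x'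
  obtain ⟨h1, h2⟩ := h
  simp only at h1 h2
  subst h1
  exact (RealD.lt_congr_left re h2).mp hq

lemma Rlt (h : PEq x x') {q : ℚ} (hq : Pnt.Rlt q x) : Pnt.Rlt q x' := by
  obtain ⟨D, re, u⟩ := x
  obtain ⟨D', re', u'⟩ := x'
  obtain ⟨h1, h2⟩ := h
  simp only at h1 h2
  subst h1
  exact (RealD.lt_congr_right re h2).mp hq

lemma symm (h : PEq x x') : PEq x' x := ⟨h.1.symm, by rw [← h.1]; exact ⟨h.2.2, h.2.1⟩⟩

lemma isC {y y' : Pnt C} (h : PEq x x') (h' : PEq y y') {k : ℕ} {t : T k} (ht : Pnt.IsC k x y t) :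
    Pnt.IsC k x' y' t := by
  obtain ⟨q, h0, h1, g1, g2, rfl⟩ := ht
  exact ⟨q, h0, h1, h.ltR g1, h'.Rlt g2, by rw [h.R, h'.Lf]⟩

lemma isS {y y' : Pnt C} (h : PEq x x') (h' : PEq y y') {k : ℕ} {t : T k} (ht : Pnt.IsS k x y t) :
    Pnt.IsS k x' y' t := by
  obtain ⟨D, re, u⟩ := x
  obtain ⟨D', re', u'⟩ := x'
  obtain ⟨E, se, v⟩ := y
  obtain ⟨E', se', v'⟩ := y'
  obtain ⟨h1, h2⟩ := h
  obtain ⟨h3, h4⟩ := h'
  obtain ⟨h5, h6, rfl⟩ := ht
  simp only at h1 h2 h3 h4 h5 h6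
  subst h1 h3 h5
  refine ⟨rfl, ?_, ?_⟩
  · exact (RealD.lt_congr_left re h2).mp ((RealD.lt_congr_right re h4).mp h6)
  · change tauD D k u v = tauD D k u' v'
    rw [RealD.tau_congr_left' re k h2, RealD.tau_congr_right' re k h4]

lemma isB {y y' : Pnt C} (h : PEq x x') (h' : PEq y y') {k : ℕ} {t : T k} (ht : Pnt.IsB k x y t) :
    Pnt.IsB k x' y' t := by
  obtain ⟨s, a, a', g1, g2⟩ := ht
  exact ⟨s, a, a', h.r ▸ g1, by rw [← h.R, ← h'.Lf]; exact g2⟩

end PEq

namespace Ctx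

variable (C : Ctx)

/-- canonical elements -/
def Canon (p : Raw) : Prop :=
  ∀ v, eqD (C.dd p) p.2.2.2 v → (Closed p.2.2.2 → Closed v) → code p.2.2.2 ≤ code v

/-- elements of the limit structure -/
abbrev E : Type := {p : C.P // C.Canon p.1}

variable {C}

/-- equivalence of pre-elements -/
def Eqv' (p p' : C.P) : Prop := C.key p.1 = C.key p'.1 ∧ eqD (C.dd p.1) p.1.2.2.2 p'.1.2.2.2

lemma Eqv'.pEq {p p' : C.P} (h : Eqv' p p') : PEq (pt p) (pt p') := ⟨key_eq_dd h.1, h.2⟩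

lemma Ty.congr {k : ℕ} {p p' w w' : C.P} {t : T k} (h : Ty k p p' t) (h1 : Eqv' p w)
    (h2 : Eqv' p' w') : Ty k w w' t := by
  have r1 : C.rho p.1 = C.rho w.1 := (key_eq_iff.mp h1.1).1
  have r2 : C.rho p'.1 = C.rho w'.1 := (key_eq_iff.mp h2.1).1
  rcases h with ⟨g1, g2⟩ | ⟨g1, g2⟩ | ⟨g1, g2, g3⟩
  · exact Or.inl ⟨by rw [← r1, ← r2]; exact g1, h1.pEq.isC h2.pEq g2⟩
  · exact Or.inr (Or.inl ⟨by rw [← h1.1, ← h2.1]; exact g1, h1.pEq.isS h2.pEq g2⟩)
  · exact Or.inr (Or.inr ⟨by rw [← r1, ← r2]; exact g1, by rw [← h1.1, ← h2.1]; exact g2,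
      h1.pEq.isB h2.pEq g3⟩)

lemma Eqv'.refl (p : C.P) : Eqv' p p := ⟨rfl, RealD.eq_refl p.2.re _⟩

lemma Eqv'.c {p p' : C.P} (h : Eqv' p p') : (pt p).c = (pt p').c := h.pEq.c

lemma exists_canon (p : C.P) : ∃ e : C.E, Eqv' p e.1 := by
  have hne : ∃ n, ∃ v, eqD (C.dd p.1) p.1.2.2.2 v ∧ (Closed p.1.2.2.2 → Closed v) ∧ code v = n :=
    ⟨_, p.1.2.2.2, RealD.eq_refl p.2.re _, id, rfl⟩
  classical
  obtain ⟨v, hv1, hv2, hv3⟩ := Nat.find_spec hne
  have hmin : ∀ v', eqD (C.dd p.1) p.1.2.2.2 v' → (Closed p.1.2.2.2 → Closed v') →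
      code v ≤ code v' := by
    intro v' h1 h2
    rw [hv3]
    exact Nat.find_min' hne ⟨v', h1, h2, rfl⟩
  obtain ⟨w, hw, hpt⟩ := exists_chain p v (rk_congr p.2.re hv1).symm hv2
  have hwD : C.dd w.1 = C.dd p.1 := congrArg Pnt.D hpt
  have hwu : w.1.2.2.2 = v := congrArg Pnt.u hpt
  refine ⟨⟨w, ?_⟩, hw.symm, by rw [hwu]; exact hv1⟩
  intro v' h1 h2
  rw [hwD, hwu] at h1
  rw [hwu] at h2 ⊢
  exact hmin v' (RealD.eq_trans p.2.re hv1 h1) (fun h => h2 (hv2 h))

lemma canon_unique {e e' : C.E} (h : Eqv' e.1 e'.1) : e = e' := by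
  obtain ⟨h1, h2⟩ := h
  have hk := key_eq_iff.mp h1
  have hD := key_eq_dd h1
  have hcl : Closed e.1.1.2.2.2 ↔ Closed e'.1.1.2.2.2 := by
    rcases e.1.2 with h3 | h3
    · have : ¬ C.Gen (C.rho e'.1.1) := by rw [← hk.1]; exact h3.not_gen
      exact ⟨fun _ => (clo_of_not_gen this).2.2.2, fun _ => h3.2.2.2⟩
    · have hg := h3.gen
      constructor
      · intro hc
        exact absurd (rk_closed C.D0_real e.1.2.re hc) (hg.2.2.1 _ hc)
      · intro hc
        rw [hk.1] at hg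
        exact absurd (rk_closed C.D0_real e'.1.2.re hc) (hg.2.2.1 _ hc)
  have hc1 := e.2 e'.1.1.2.2.2 h2 hcl.mp
  have hc2 := e'.2 e.1.1.2.2.2 (by rw [← hD]; exact ⟨h2.2, h2.1⟩) hcl.mpr
  have hu := code_inj (le_antisymm hc1 hc2)
  apply Subtype.ext
  apply Subtype.ext
  exact Prod.ext hk.2.1 (Prod.ext hk.2.2.1 (Prod.ext hk.2.2.2 hu))

lemma isSTO : IsStrictTotalOrder C.E (fun a b => C.lt a.1.1 b.1.1) :=
  { trichotomous := fun a b h h' => canon_unique (lt_tri a.1 b.1 h h')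
    irrefl := fun a => lt_irrefl' a.1
    trans := fun a b c h h' => lt_trans' h h' }

noncomputable instance : LinearOrder C.E :=
  @linearOrderOfSTO _ (fun a b => C.lt a.1.1 b.1.1) isSTO (Classical.decRel _)

lemma E_lt_iff (a b : C.E) : a < b ↔ C.lt a.1.1 b.1.1 := Iff.rfl

variable (C) in
/-- least element -/
noncomputable def botE : C.E := Classical.choose (exists_canon (C.clP .bot trivial))
variable (C) in
/-- greatest element -/
noncomputable def topE : C.E := Classical.choose (exists_canon (C.clP .top trivial))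

lemma botE_spec : Eqv' (C.clP .bot trivial) C.botE.1 :=
  Classical.choose_spec (exists_canon (C.clP .bot trivial))
lemma topE_spec : Eqv' (C.clP .top trivial) C.topE.1 :=
  Classical.choose_spec (exists_canon (C.clP .top trivial))

lemma rho_botE : C.rho C.botE.1.1 = 0 := by
  rw [← (key_eq_iff.mp botE_spec.1).1]
  exact rk_bot C.D0_real

lemma rho_topE : C.rho C.topE.1.1 = 1 := by
  rw [← (key_eq_iff.mp topE_spec.1).1]
  exact rk_top C.D0_real

lemma rho_nonneg (p : Raw) : 0 ≤ C.rho p := rk_nonneg _ _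
lemma rho_le_one (p : Raw) : C.rho p ≤ 1 := rk_le_one _ _

lemma botE_le (e : C.E) : C.botE ≤ e := by
  rw [← not_lt]
  intro h
  rcases (E_lt_iff _ _).mp h with h | ⟨h, h'⟩
  · have hr := rho_le_of_key h.le
    rw [rho_botE] at hr
    have hr0 : C.rho e.1.1 = 0 := le_antisymm hr (rho_nonneg _)
    have hn : ¬ C.Gen (C.rho e.1.1) := fun hg => by rw [hr0] at hg; exact lt_irrefl _ hg.1
    have hc := clo_of_not_gen hn
    have hb := clo_of_not_gen (p := C.botE.1)
      (fun hg => by rw [rho_botE] at hg; exact lt_irrefl _ hg.1)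
    apply h.ne
    rw [key_eq_iff]
    exact ⟨hr0.trans rho_botE.symm, hc.1.trans hb.1.symm, hc.2.1.trans hb.2.1.symm,
      hc.2.2.1.trans hb.2.2.1.symm⟩
  · have hb := botE_spec (C := C)
    have hD : C.dd e.1.1 = C.D0 := by
      rw [key_eq_dd h, ← key_eq_dd hb.1]
      rfl
    rw [hD] at h'
    have h2 : eqD C.D0 .bot C.botE.1.1.2.2.2 := hb.2
    exact RealD.not_lt_bot C.D0_real _ ((RealD.lt_congr_right C.D0_real h2).mpr h')

lemma le_topE (e : C.E) : e ≤ C.topE := by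
  rw [← not_lt]
  intro h
  rcases (E_lt_iff _ _).mp h with h | ⟨h, h'⟩
  · have hr := rho_le_of_key h.le
    rw [rho_topE] at hr
    have hr0 : C.rho e.1.1 = 1 := le_antisymm (rho_le_one _) hr
    have hn : ¬ C.Gen (C.rho e.1.1) := fun hg => by rw [hr0] at hg; exact lt_irrefl _ hg.2.1
    have hc := clo_of_not_gen hn
    have hb := clo_of_not_gen (p := C.topE.1)
      (fun hg => by rw [rho_topE] at hg; exact lt_irrefl _ hg.2.1)
    apply h.ne
    rw [key_eq_iff]
    exact ⟨rho_topE.trans hr0.symm, hb.1.trans hc.1.symm, hb.2.1.trans hc.2.1.symm,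
      hb.2.2.1.trans hc.2.2.1.symm⟩
  · have hb := topE_spec (C := C)
    have hD : C.dd C.topE.1.1 = C.D0 := by
      rw [← key_eq_dd hb.1]
      rfl
    rw [hD] at h'
    have h2 : eqD C.D0 .top C.topE.1.1.2.2.2 := hb.2
    exact RealD.not_top_lt C.D0_real _ ((RealD.lt_congr_left C.D0_real h2).mpr h')

noncomputable instance : BoundedOrder C.E where
  bot := C.botE
  top := C.topE
  bot_le := botE_le
  le_top := le_topE

open Classical in
/-- the interval types -/
noncomputable def tauE (k : ℕ) (a b : C.E) : T k :=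
  if h : ∃ t, Ty k a.1 b.1 t then Classical.choose h else 1

lemma tauE_spec (k : ℕ) {a b : C.E} (h : a < b) : Ty k a.1 b.1 (tauE k a b) := by
  have h1 := exists_Ty k ((E_lt_iff a b).mp h)
  unfold tauE
  rw [dif_pos h1]
  exact Classical.choose_spec h1

lemma tauE_eq {k : ℕ} {a b : C.E} {t : T k} (h : Ty k a.1 b.1 t) : tauE k a b = t :=
  (tauE_spec k ((E_lt_iff a b).mpr h.lt)).unique h

variable (C) in
/-- The limit typed structure. -/
noncomputable def S : TS C.E where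
  col e := (pt e.1).c
  tau k a b := tauE k a b
  bot_lt_top := by
    rw [E_lt_iff]
    left
    rw [key_lt_iff]
    left
    change C.rho C.botE.1.1 < C.rho C.topE.1.1
    rw [rho_botE, rho_topE]
    exact zero_lt_one
  T0 k u v h := (tauE_eq (tauE_spec (k + 1) h).pr).symm
  T1 k u w v h1 h2 := tauE_eq ((tauE_spec k h1).trans (tauE_spec k h2))
  T2 k u v h t ht := by
    obtain ⟨w, hw1, hw2, hw3⟩ := (tauE_spec (k + 1) h).split t ht
    obtain ⟨e, he⟩ := exists_canon w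
    have t1 := hw1.congr (Eqv'.refl u.1) he
    have t2 := hw3.congr he (Eqv'.refl v.1)
    refine ⟨e, (E_lt_iff _ _).mpr t1.lt, (E_lt_iff _ _).mpr t2.lt, ?_⟩
    rw [tauE_eq t1, tauE_eq t2, ← he.c, hw2]

end Ctx

end Pool.Agent.Work.MP_44611a_co
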