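import Pool.Agent.Work.MP_44611a_co.Types

set_option autoImplicit false
set_option linter.all false

/-! Typed structures and transfer of formulas. -/

namespace Pool.Agent.Work.MP_44611a_co


/-- A linear order with end points, colours and interval types. -/
structure TS (E : Type) [LinearOrder E] [BoundedOrder E] where
  col : E → Bool
  tau : ∀ k : ℕ, E → E → T k
  bot_lt_top : (⊥ : E) < ⊤
  T0 : ∀ (k : ℕ) (u v : E), u < v → pr k (tau (k + 1) u v) = tau k u v
  T1 : ∀ (k : ℕ) (u w v : E), u < w → w < v →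
    tau k u v = tau k u w * cls k [col w] * tau k w v
  T2 : ∀ (k : ℕ) (u v : E), u < v → ∀ t ∈ Tr (tau (k + 1) u v),
    ∃ w, u < w ∧ w < v ∧ t = (tau k u w, col w, tau k w v)

/-- The points of a typed structure (end points removed). -/
abbrev Pt (E : Type) [LinearOrder E] [BoundedOrder E] : Type := {e : E // ⊥ < e ∧ e < ⊤}

namespace TS

variable {E E' : Type} [LinearOrder E] [BoundedOrder E] [LinearOrder E'] [BoundedOrder E']

lemma mem_Tr (S : TS E) (k : ℕ) (u w v : E) (h1 : u < w) (h2 : w < v) :
    (S.tau k u w, S.col w, S.tau k w v) ∈ Tr (S.tau (k + 1) u v) := by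
  rw [S.T1 (k + 1) u w v h1 h2, mem_Tr_mul3]
  right; left
  rw [S.T0 k u w h1, S.T0 k w v h2]

/-- similarity of tuples up to depth `k` -/
def Sim (S : TS E) (S' : TS E') {ι : Type} (k : ℕ) (a : ι → E) (b : ι → E') : Prop :=
  (∀ i j, a i < a j ↔ b i < b j) ∧ (∀ i, S.col (a i) = S'.col (b i)) ∧
    (∀ i j, a i < a j → S.tau k (a i) (a j) = S'.tau k (b i) (b j))

lemma Sim.symm {S : TS E} {S' : TS E'} {ι : Type} {k : ℕ} {a : ι → E} {b : ι → E'}
    (h : Sim S S' k a b) : Sim S' S k b a :=
  ⟨fun i j => (h.1 i j).symm, fun i => (h.2.1 i).symm,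
    fun i j hij => (h.2.2 i j ((h.1 i j).mpr hij)).symm⟩

lemma Sim.mono {S : TS E} {S' : TS E'} {ι : Type} {k : ℕ} {a : ι → E} {b : ι → E'}
    (h : Sim S S' (k + 1) a b) : Sim S S' k a b :=
  ⟨h.1, h.2.1, fun i j hij => by
    rw [← S.T0 k _ _ hij, ← S'.T0 k _ _ ((h.1 i j).mp hij), h.2.2 i j hij]⟩

lemma Sim.comp {S : TS E} {S' : TS E'} {ι κ : Type} {k : ℕ} {a : ι → E} {b : ι → E'}
    (h : Sim S S' k a b) (f : κ → ι) : Sim S S' k (a ∘ f) (b ∘ f) :=
  ⟨fun i j => h.1 _ _, fun i => h.2.1 _, fun i j hij => h.2.2 _ _ hij⟩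

lemma Sim.eq_iff {S : TS E} {S' : TS E'} {ι : Type} {k : ℕ} {a : ι → E} {b : ι → E'}
    (h : Sim S S' k a b) (i j : ι) : a i = a j ↔ b i = b j := by
  constructor
  · intro hij
    apply le_antisymm
    · rw [← not_lt, ← h.1]; simp [hij]
    · rw [← not_lt, ← h.1]; simp [hij]
  · intro hij
    apply le_antisymm
    · rw [← not_lt, h.1]; simp [hij]
    · rw [← not_lt, h.1]; simp [hij]

/-- extension of a tuple by one element -/
def opt {ι : Type} {X : Type} (a : ι → X) (w : X) : Option ι → X := fun o => o.elim w a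

/-- one back-and-forth step -/
lemma Sim.step {S : TS E} {S' : TS E'} {ι : Type} [Finite ι] {k : ℕ} {a : ι → E} {b : ι → E'}
    (h : Sim S S' (k + 1) a b) (i0 i1 : ι) (h0 : a i0 = ⊥) (h1 : a i1 = ⊤)
    (w : E) (hw0 : ⊥ < w) (hw1 : w < ⊤) :
    ∃ w' : E', Sim S S' k (opt a w) (opt b w') := by
  by_cases hex : ∃ i, a i = w
  · obtain ⟨i, rfl⟩ := hex
    refine ⟨b i, ?_⟩
    have : opt a (a i) = a ∘ (fun o : Option ι => o.elim i id) := by
      funext o; cases o <;> rfl
    have h' : opt b (b i) = b ∘ (fun o : Option ι => o.elim i id) := by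
      funext o; cases o <;> rfl
    rw [this, h']
    exact h.mono.comp _
  · push Not at hex
    -- largest element below `w`
    obtain ⟨i, hi, himax⟩ : ∃ i, a i < w ∧ ∀ l, a l < w → a l ≤ a i := by
      have hfin : (Set.range a ∩ Set.Iio w).Finite := (Set.finite_range a).inter_of_left _
      have hne : (Set.range a ∩ Set.Iio w).Nonempty := ⟨a i0, ⟨i0, rfl⟩, by rw [h0]; exact hw0⟩
      obtain ⟨y, ⟨⟨i, rfl⟩, hy⟩, hmax⟩ := Set.exists_max_image _ id hfin hne
      exact ⟨i, hy, fun l hl => hmax (a l) ⟨⟨l, rfl⟩, hl⟩⟩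
    obtain ⟨j, hj, hjmin⟩ : ∃ j, w < a j ∧ ∀ l, w < a l → a j ≤ a l := by
      have hfin : (Set.range a ∩ Set.Ioi w).Finite := (Set.finite_range a).inter_of_left _
      have hne : (Set.range a ∩ Set.Ioi w).Nonempty := ⟨a i1, ⟨i1, rfl⟩, by rw [h1]; exact hw1⟩
      obtain ⟨y, ⟨⟨i, rfl⟩, hy⟩, hmin⟩ := Set.exists_min_image _ id hfin hne
      exact ⟨i, hy, fun l hl => hmin (a l) ⟨⟨l, rfl⟩, hl⟩⟩
    have hij : a i < a j := hi.trans hj
    have hmem := S.mem_Tr k (a i) w (a j) hi hj
    rw [h.2.2 i j hij] at hmem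
    obtain ⟨w', hw1', hw2', htr⟩ := S'.T2 k (b i) (b j) ((h.1 i j).mp hij) _ hmem
    simp only [Prod.mk.injEq] at htr
    obtain ⟨t1, t2, t3⟩ := htr
    have hk := h.mono
    -- order relations with `w'`
    have hlt : ∀ l, a l < w → b l < w' := fun l hl => by
      have := himax l hl
      have h2 : b l ≤ b i := by rw [← not_lt, ← h.1, not_lt]; exact this
      exact h2.trans_lt hw1'
    have hgt : ∀ l, w < a l → w' < b l := fun l hl => by
      have := hjmin l hl
      have h2 : b j ≤ b l := by rw [← not_lt, ← h.1, not_lt]; exact this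
      exact hw2'.trans_le h2
    have hlt' : ∀ l, a l < w ↔ b l < w' := fun l => by
      refine ⟨hlt l, fun hl => ?_⟩
      rcases lt_trichotomy (a l) w with h3 | h3 | h3
      · exact h3
      · exact absurd h3 (hex l)
      · exact absurd (hgt l h3) (not_lt.mpr hl.le)
    have hgt' : ∀ l, w < a l ↔ w' < b l := fun l => by
      refine ⟨hgt l, fun hl => ?_⟩
      rcases lt_trichotomy (a l) w with h3 | h3 | h3
      · exact absurd (hlt l h3) (not_lt.mpr hl.le)
      · exact absurd h3 (hex l)
      · exact h3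
    refine ⟨w', ?_, ?_, ?_⟩
    · intro l m
      cases l with
      | none =>
        cases m with
        | none => simp [opt]
        | some m => exact hgt' m
      | some l =>
        cases m with
        | none => exact hlt' l
        | some m => exact h.1 l m
    · intro l
      cases l with
      | none => exact t2
      | some l => exact h.2.1 l
    · intro l m hlm
      cases l with
      | none =>
        cases m with
        | none => simp [opt] at hlm
        | some m =>
          change S.tau k w (a m) = S'.tau k w' (b m)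
          have hm : w < a m := hlm
          rcases (hjmin m hm).eq_or_lt with h3 | h3
          · rw [← h3, ← (h.eq_iff j m).mp h3]
            exact t3
          · rw [S.T1 k w (a j) (a m) hj h3, S'.T1 k w' (b j) (b m) hw2' ((h.1 _ _).mp h3), t3,
              hk.2.2 j m h3, h.2.1 j]
      | some l =>
        cases m with
        | none =>
          change S.tau k (a l) w = S'.tau k (b l) w'
          have hl : a l < w := hlm
          rcases (himax l hl).eq_or_lt with h3 | h3
          · rw [h3, (h.eq_iff l i).mp h3]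
            exact t1
          · rw [S.T1 k (a l) (a i) w h3 hi, S'.T1 k (b l) (b i) w' ((h.1 _ _).mp h3) hw1', t1,
              hk.2.2 l i h3, h.2.1 i]
        | some m => exact hk.2.2 l m hlm

end TS

/-- quantifier depth -/
def qd {L : FirstOrder.Language.{0, 0}} {α : Type} : ∀ {n : ℕ}, L.BoundedFormula α n → ℕ
  | _, .falsum => 0
  | _, .equal _ _ => 0
  | _, .rel _ _ => 0
  | _, .imp f g => max (qd f) (qd g)
  | _, .all f => qd f + 1

/-- the extended tuple: both end points, free variables, bound variables -/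
def extT {E : Type} [LinearOrder E] [BoundedOrder E] {α : Type} {n : ℕ}
    (v : α → Pt E) (xs : Fin n → Pt E) : Bool ⊕ (α ⊕ Fin n) → E
  | .inl b => if b then ⊤ else ⊥
  | .inr (.inl i) => (v i).1
  | .inr (.inr i) => (xs i).1

section transfer

variable {L : FirstOrder.Language.{0, 0}} (lt : L.Relations 2) (col : L.Relations 1)
  (hfun : ∀ n, IsEmpty (L.Functions n)) (hr2 : ∀ r : L.Relations 2, r = lt)
  (hr1 : ∀ r : L.Relations 1, r = col) (hrn : ∀ n, n ≠ 1 → n ≠ 2 → IsEmpty (L.Relations n))

variable {E E' : Type} [LinearOrder E] [BoundedOrder E] [LinearOrder E'] [BoundedOrder E']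

/-- compatibility of an `L`-structure on the points with the typed structure -/
def Compat (S : TS E) [L.Structure (Pt E)] : Prop :=
  (∀ x y : Pt E, FirstOrder.Language.Structure.RelMap lt ![x, y] ↔ x < y) ∧
  (∀ x : Pt E, FirstOrder.Language.Structure.RelMap col ![x] ↔ S.col x.1 = true)

include hfun hr2 hr1 hrn in
theorem transfer {S : TS E} {S' : TS E'} [L.Structure (Pt E)] [L.Structure (Pt E')]
    (hS : Compat lt col S) (hS' : Compat lt col S') {α : Type} [Finite α] {n : ℕ}
    (φ : L.BoundedFormula α n) : ∀ (k : ℕ), qd φ ≤ k → ∀ (v : α → Pt E) (xs : Fin n → Pt E)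
    (v' : α → Pt E') (xs' : Fin n → Pt E'), TS.Sim S S' k (extT v xs) (extT v' xs') →
    (φ.Realize v xs ↔ φ.Realize v' xs') := by
  have hterm : ∀ {n : ℕ} (t : L.Term (α ⊕ Fin n)), ∃ i, t = FirstOrder.Language.Term.var i := by
    intro n t
    cases t with
    | var i => exact ⟨i, rfl⟩
    | func f ts => exact ((hfun _).false f).elim
  induction φ with
  | falsum => intro k _ v xs v' xs' _; exact Iff.rfl
  | equal t1 t2 =>
    intro k _ v xs v' xs' h
    obtain ⟨i, rfl⟩ := hterm t1
    obtain ⟨j, rfl⟩ := hterm t2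
    have key := h.eq_iff (Sum.inr i) (Sum.inr j)
    have e1 : ∀ i, extT v xs (Sum.inr i) = ((Sum.elim v xs) i).1 := by
      intro i; rcases i with i | i <;> rfl
    have e2 : ∀ i, extT v' xs' (Sum.inr i) = ((Sum.elim v' xs') i).1 := by
      intro i; rcases i with i | i <;> rfl
    rw [e1, e1, e2, e2, Subtype.ext_iff.symm, Subtype.ext_iff.symm] at key
    exact key
  | @rel m l R ts =>
    intro k _ v xs v' xs' h
    have e1 : ∀ i, extT v xs (Sum.inr i) = ((Sum.elim v xs) i).1 := by
      intro i; rcases i with i | i <;> rfl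
    have e2 : ∀ i, extT v' xs' (Sum.inr i) = ((Sum.elim v' xs') i).1 := by
      intro i; rcases i with i | i <;> rfl
    simp only [FirstOrder.Language.BoundedFormula.Realize]
    by_cases hl1 : l = 1
    · subst hl1
      rw [hr1 R]
      obtain ⟨i, hi⟩ := hterm (ts 0)
      have f1 : (fun i => (ts i).realize (Sum.elim v xs)) = ![(Sum.elim v xs) i] := by
        funext a; fin_cases a; simp [hi]
      have f2 : (fun i => (ts i).realize (Sum.elim v' xs')) = ![(Sum.elim v' xs') i] := by
        funext a; fin_cases a; simp [hi]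
      rw [f1, f2, hS.2, hS'.2, ← e1, ← e2, h.2.1]
    · by_cases hl2 : l = 2
      · subst hl2
        rw [hr2 R]
        obtain ⟨i, hi⟩ := hterm (ts 0)
        obtain ⟨j, hj⟩ := hterm (ts 1)
        have f1 : (fun i => (ts i).realize (Sum.elim v xs)) =
            ![(Sum.elim v xs) i, (Sum.elim v xs) j] := by
          funext a; fin_cases a <;> simp [hi, hj]
        have f2 : (fun i => (ts i).realize (Sum.elim v' xs')) =
            ![(Sum.elim v' xs') i, (Sum.elim v' xs') j] := by
          funext a; fin_cases a <;> simp [hi, hj]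
        rw [f1, f2, hS.1, hS'.1, ← Subtype.coe_lt_coe, ← Subtype.coe_lt_coe, ← e1, ← e1, ← e2,
          ← e2, h.1]
      · exact ((hrn l hl1 hl2).false R).elim
  | imp f g ihf ihg =>
    intro k hk v xs v' xs' h
    simp only [qd, max_le_iff] at hk
    simp only [FirstOrder.Language.BoundedFormula.realize_imp]
    rw [ihf k hk.1 v xs v' xs' h, ihg k hk.2 v xs v' xs' h]
  | @all n f ih =>
    intro k hk v xs v' xs' h
    simp only [qd] at hk
    obtain ⟨k, rfl⟩ : ∃ k', k = k' + 1 := ⟨k - 1, by omega⟩
    simp only [FirstOrder.Language.BoundedFormula.realize_all]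
    have main : ∀ {E E' : Type} [LinearOrder E] [BoundedOrder E] [LinearOrder E']
        [BoundedOrder E'] (S : TS E) (S' : TS E') (v : α → Pt E) (xs : Fin n → Pt E)
        (v' : α → Pt E') (xs' : Fin n → Pt E'), TS.Sim S S' (k + 1) (extT v xs) (extT v' xs') →
        ∀ w : Pt E, ∃ w' : Pt E', TS.Sim S S' k (extT v (Fin.snoc xs w))
          (extT v' (Fin.snoc xs' w')) := by
      intro E E' _ _ _ _ S S' v xs v' xs' h w
      obtain ⟨w', hw'⟩ := h.step (Sum.inl false) (Sum.inl true) rfl rfl w.1 w.2.1 w.2.2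
      have hb : (⊥ : E') < w' := by
        have := (hw'.1 (some (Sum.inl false)) none).mp w.2.1
        exact this
      have ht : w' < (⊤ : E') := by
        have := (hw'.1 none (some (Sum.inl true))).mp w.2.2
        exact this
      refine ⟨⟨w', hb, ht⟩, ?_⟩
      let F : Bool ⊕ (α ⊕ Fin (n + 1)) → Option (Bool ⊕ (α ⊕ Fin n)) := fun s =>
        match s with
        | .inl b => some (.inl b)
        | .inr (.inl i) => some (.inr (.inl i))
        | .inr (.inr i) => Fin.lastCases (motive := fun _ => Option (Bool ⊕ (α ⊕ Fin n))) none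
            (fun j => some (.inr (.inr j))) i
      have hF : extT v (Fin.snoc xs w : Fin (n + 1) → Pt E) = TS.opt (extT v xs) w.1 ∘ F := by
        funext s
        rcases s with b | i | i
        · rfl
        · rfl
        · refine Fin.lastCases ?_ (fun j => ?_) i
          · simp [F, extT, TS.opt]
          · simp [F, extT, TS.opt]
      have hF' : extT v' (Fin.snoc xs' ⟨w', hb, ht⟩ : Fin (n + 1) → Pt E') =
          TS.opt (extT v' xs') w' ∘ F := by
        funext s
        rcases s with b | i | i
        · rfl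
        · rfl
        · refine Fin.lastCases ?_ (fun j => ?_) i
          · simp [F, extT, TS.opt]
          · simp [F, extT, TS.opt]
      rw [hF, hF']
      exact hw'.comp F
    constructor
    · intro hall a'
      obtain ⟨a, ha⟩ := main S' S v' xs' v xs h.symm a'
      exact (ih k (by omega) v _ v' _ ha.symm).mp (hall a)
    · intro hall a
      obtain ⟨a', ha⟩ := main S S' v xs v' xs' h a
      exact (ih k (by omega) v _ v' _ ha).mpr (hall a')

end transfer

end Pool.Agent.Work.MP_44611a_co
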