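import Mathlib

set_option autoImplicit false

/-! Ehrenfeucht-Fraisse types of finite binary words, as finite aperiodic monoids. -/

namespace Pool.Agent.Work.MP_44611a_co

/-- `k`-round equivalence of finite binary words. -/
def Eqv : ℕ → List Bool → List Bool → Prop
  | 0, _, _ => True
  | k + 1, X, Y =>
    (∀ X1 a X2, X = X1 ++ a :: X2 → ∃ Y1 Y2, Y = Y1 ++ a :: Y2 ∧ Eqv k X1 Y1 ∧ Eqv k X2 Y2) ∧
    (∀ Y1 a Y2, Y = Y1 ++ a :: Y2 → ∃ X1 X2, X = X1 ++ a :: X2 ∧ Eqv k X1 Y1 ∧ Eqv k X2 Y2)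

lemma Eqv.refl (k : ℕ) (X : List Bool) : Eqv k X X := by
  induction k generalizing X with
  | zero => trivial
  | succ k ih =>
    exact ⟨fun X1 a X2 h => ⟨X1, X2, h, ih _, ih _⟩, fun X1 a X2 h => ⟨X1, X2, h, ih _, ih _⟩⟩

lemma Eqv.symm {k : ℕ} {X Y : List Bool} (h : Eqv k X Y) : Eqv k Y X := by
  induction k generalizing X Y with
  | zero => trivial
  | succ k ih =>
    refine ⟨fun Y1 a Y2 hY => ?_, fun X1 a X2 hX => ?_⟩
    · obtain ⟨X1, X2, h1, h2, h3⟩ := h.2 Y1 a Y2 hY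
      exact ⟨X1, X2, h1, ih h2, ih h3⟩
    · obtain ⟨Y1, Y2, h1, h2, h3⟩ := h.1 X1 a X2 hX
      exact ⟨Y1, Y2, h1, ih h2, ih h3⟩

lemma Eqv.trans {k : ℕ} {X Y Z : List Bool} (h : Eqv k X Y) (h' : Eqv k Y Z) : Eqv k X Z := by
  induction k generalizing X Y Z with
  | zero => trivial
  | succ k ih =>
    refine ⟨fun X1 a X2 hX => ?_, fun Z1 a Z2 hZ => ?_⟩
    · obtain ⟨Y1, Y2, h1, h2, h3⟩ := h.1 X1 a X2 hX
      obtain ⟨Z1, Z2, g1, g2, g3⟩ := h'.1 Y1 a Y2 h1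
      exact ⟨Z1, Z2, g1, ih h2 g2, ih h3 g3⟩
    · obtain ⟨Y1, Y2, h1, h2, h3⟩ := h'.2 Z1 a Z2 hZ
      obtain ⟨X1, X2, g1, g2, g3⟩ := h.2 Y1 a Y2 h1
      exact ⟨X1, X2, g1, ih g2 h2, ih g3 h3⟩

lemma Eqv.mono {k : ℕ} {X Y : List Bool} (h : Eqv (k + 1) X Y) : Eqv k X Y := by
  induction k generalizing X Y with
  | zero => trivial
  | succ k ih =>
    refine ⟨fun X1 a X2 hX => ?_, fun Y1 a Y2 hY => ?_⟩
    · obtain ⟨Y1, Y2, h1, h2, h3⟩ := h.1 X1 a X2 hX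
      exact ⟨Y1, Y2, h1, ih h2, ih h3⟩
    · obtain ⟨X1, X2, h1, h2, h3⟩ := h.2 Y1 a Y2 hY
      exact ⟨X1, X2, h1, ih h2, ih h3⟩

/-- splitting of an append at a letter -/
lemma append_split {X Y Z1 Z2 : List Bool} {a : Bool} (h : X ++ Y = Z1 ++ a :: Z2) :
    (∃ X2, X = Z1 ++ a :: X2 ∧ Z2 = X2 ++ Y) ∨ (∃ Y1, Y = Y1 ++ a :: Z2 ∧ Z1 = X ++ Y1) := by
  rw [List.append_eq_append_iff] at h
  rcases h with ⟨as, h1, h2⟩ | ⟨bs, h1, h2⟩
  · right
    exact ⟨as, h2, h1⟩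
  · cases bs with
    | nil =>
      right
      refine ⟨[], ?_, ?_⟩
      · simpa using h2.symm
      · simpa using h1.symm
    | cons b bs =>
      left
      simp only [List.cons_append, List.cons.injEq] at h2
      obtain ⟨rfl, h2⟩ := h2
      exact ⟨bs, h1, h2⟩

lemma Eqv.append {k : ℕ} {X Y X' Y' : List Bool} (h : Eqv k X X') (h' : Eqv k Y Y') :
    Eqv k (X ++ Y) (X' ++ Y') := by
  induction k generalizing X Y X' Y' with
  | zero => trivial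
  | succ k ih =>
    have key : ∀ {X Y X' Y' : List Bool}, Eqv (k+1) X X' → Eqv (k+1) Y Y' →
        ∀ Z1 a Z2, X ++ Y = Z1 ++ a :: Z2 →
        ∃ W1 W2, X' ++ Y' = W1 ++ a :: W2 ∧ Eqv k Z1 W1 ∧ Eqv k Z2 W2 := by
      intro X Y X' Y' h h' Z1 a Z2 hZ
      rcases append_split hZ with ⟨X2, hX, rfl⟩ | ⟨Y1, hY, rfl⟩
      · obtain ⟨W1, W2, g1, g2, g3⟩ := h.1 _ _ _ hX
        exact ⟨W1, W2 ++ Y', by rw [g1]; simp, g2, ih g3 h'.mono⟩
      · obtain ⟨W1, W2, g1, g2, g3⟩ := h'.1 _ _ _ hY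
        exact ⟨X' ++ W1, W2, by rw [g1]; simp, ih h.mono g2, g3⟩
    refine ⟨key h h', fun Z1 a Z2 hZ => ?_⟩
    obtain ⟨W1, W2, g1, g2, g3⟩ := key h.symm h'.symm Z1 a Z2 hZ
    exact ⟨W1, W2, g1, g2.symm, g3.symm⟩

/-- the setoid of `k`-equivalence -/
def eqvSetoid (k : ℕ) : Setoid (List Bool) where
  r := Eqv k
  iseqv := ⟨Eqv.refl k, Eqv.symm, Eqv.trans⟩

/-- The finite aperiodic monoid of `k`-types of words. -/
def T (k : ℕ) : Type := Quotient (eqvSetoid k)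

/-- the type of a word -/
def cls (k : ℕ) (X : List Bool) : T k := Quotient.mk (eqvSetoid k) X

lemma cls_eq_iff {k : ℕ} {X Y : List Bool} : cls k X = cls k Y ↔ Eqv k X Y := by
  constructor
  · intro h
    exact Quotient.exact h
  · intro h
    exact Quotient.sound h

lemma cls_surj {k : ℕ} (x : T k) : ∃ X, cls k X = x := Quotient.exists_rep x

/-- multiplication of types -/
def T.mul {k : ℕ} (x y : T k) : T k :=
  Quotient.map₂ (sa := eqvSetoid k) (sb := eqvSetoid k) (sc := eqvSetoid k) (· ++ ·)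
    (fun _ _ (h : Eqv k _ _) _ _ (h' : Eqv k _ _) => (Eqv.append h h' : Eqv k _ _)) x y

instance (k : ℕ) : Monoid (T k) where
  mul x y := T.mul x y
  one := cls k []
  mul_assoc x y z := by
    obtain ⟨X, rfl⟩ := cls_surj x
    obtain ⟨Y, rfl⟩ := cls_surj y
    obtain ⟨Z, rfl⟩ := cls_surj z
    change cls k ((X ++ Y) ++ Z) = cls k (X ++ (Y ++ Z))
    rw [List.append_assoc]
  one_mul x := by
    obtain ⟨X, rfl⟩ := cls_surj x
    rfl
  mul_one x := by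
    obtain ⟨X, rfl⟩ := cls_surj x
    change cls k (X ++ []) = cls k X
    rw [List.append_nil]

lemma cls_append (k : ℕ) (X Y : List Bool) : cls k (X ++ Y) = cls k X * cls k Y := rfl

lemma cls_nil (k : ℕ) : cls k [] = 1 := rfl

lemma cls_cons (k : ℕ) (a : Bool) (X : List Bool) : cls k (a :: X) = cls k [a] * cls k X := rfl

/-- projection `T (k+1) → T k` -/
def pr (k : ℕ) : T (k + 1) →* T k where
  toFun := Quotient.map id (fun _ _ h => Eqv.mono h)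
  map_one' := rfl
  map_mul' x y := by
    obtain ⟨X, rfl⟩ := cls_surj x
    obtain ⟨Y, rfl⟩ := cls_surj y
    rfl

@[simp] lemma pr_cls (k : ℕ) (X : List Bool) : pr k (cls (k + 1) X) = cls k X := rfl

/-- the set of triples of a `(k+1)`-type -/
def Tr {k : ℕ} (x : T (k + 1)) : Set (T k × Bool × T k) :=
  {t | ∃ X1 a X2, x = cls (k + 1) (X1 ++ a :: X2) ∧ t = (cls k X1, a, cls k X2)}

lemma mem_Tr_cls {k : ℕ} {X : List Bool} {t : T k × Bool × T k} :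
    t ∈ Tr (cls (k + 1) X) ↔ ∃ X1 a X2, X = X1 ++ a :: X2 ∧ t = (cls k X1, a, cls k X2) := by
  constructor
  · rintro ⟨X1, a, X2, h, rfl⟩
    rw [cls_eq_iff] at h
    obtain ⟨Y1, Y2, h1, h2, h3⟩ := h.2 X1 a X2 rfl
    refine ⟨Y1, a, Y2, h1, ?_⟩
    rw [cls_eq_iff.mpr h2, cls_eq_iff.mpr h3]
  · rintro ⟨X1, a, X2, rfl, rfl⟩
    exact ⟨X1, a, X2, rfl, rfl⟩

lemma Tr_injective (k : ℕ) : Function.Injective (Tr : T (k + 1) → Set (T k × Bool × T k)) := by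
  intro x y h
  obtain ⟨X, rfl⟩ := cls_surj x
  obtain ⟨Y, rfl⟩ := cls_surj y
  rw [cls_eq_iff]
  refine ⟨fun X1 a X2 hX => ?_, fun Y1 a Y2 hY => ?_⟩
  · have : (cls k X1, a, cls k X2) ∈ Tr (cls (k + 1) Y) := by
      rw [← h, mem_Tr_cls]
      exact ⟨X1, a, X2, hX, rfl⟩
    rw [mem_Tr_cls] at this
    obtain ⟨Y1, b, Y2, h1, h2⟩ := this
    simp only [Prod.mk.injEq] at h2
    obtain ⟨h2, rfl, h3⟩ := h2
    exact ⟨Y1, Y2, h1, cls_eq_iff.mp h2, cls_eq_iff.mp h3⟩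
  · have : (cls k Y1, a, cls k Y2) ∈ Tr (cls (k + 1) X) := by
      rw [h, mem_Tr_cls]
      exact ⟨Y1, a, Y2, hY, rfl⟩
    rw [mem_Tr_cls] at this
    obtain ⟨X1, b, X2, h1, h2⟩ := this
    simp only [Prod.mk.injEq] at h2
    obtain ⟨h2, rfl, h3⟩ := h2
    exact ⟨X1, X2, h1, cls_eq_iff.mp h2.symm, cls_eq_iff.mp h3.symm⟩

instance finite_T (k : ℕ) : Finite (T k) := by
  induction k with
  | zero =>
    have : Subsingleton (T 0) := by
      constructor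
      intro x y
      obtain ⟨X, rfl⟩ := cls_surj x
      obtain ⟨Y, rfl⟩ := cls_surj y
      rw [cls_eq_iff]
      trivial
    infer_instance
  | succ k ih =>
    exact Finite.of_injective _ (Tr_injective k)

instance (k : ℕ) : Nonempty (T k) := ⟨1⟩

lemma mem_Tr_mul {k : ℕ} (x y : T (k + 1)) (t : T k × Bool × T k) :
    t ∈ Tr (x * y) ↔ (∃ r ∈ Tr x, t = (r.1, r.2.1, r.2.2 * pr k y)) ∨
      (∃ r ∈ Tr y, t = (pr k x * r.1, r.2.1, r.2.2)) := by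
  obtain ⟨X, rfl⟩ := cls_surj x
  obtain ⟨Y, rfl⟩ := cls_surj y
  rw [← cls_append, mem_Tr_cls]
  constructor
  · rintro ⟨Z1, a, Z2, h, rfl⟩
    rcases append_split h with ⟨X2, hX, rfl⟩ | ⟨Y1, hY, rfl⟩
    · left
      refine ⟨(cls k Z1, a, cls k X2), mem_Tr_cls.mpr ⟨Z1, a, X2, hX, rfl⟩, ?_⟩
      rfl
    · right
      refine ⟨(cls k Y1, a, cls k Z2), mem_Tr_cls.mpr ⟨Y1, a, Z2, hY, rfl⟩, ?_⟩
      rfl
  · rintro (⟨r, hr, rfl⟩ | ⟨r, hr, rfl⟩)
    · rw [mem_Tr_cls] at hr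
      obtain ⟨X1, a, X2, rfl, rfl⟩ := hr
      exact ⟨X1, a, X2 ++ Y, by simp, rfl⟩
    · rw [mem_Tr_cls] at hr
      obtain ⟨Y1, a, Y2, rfl, rfl⟩ := hr
      exact ⟨X ++ Y1, a, Y2, by simp, rfl⟩

lemma mem_Tr_letter {k : ℕ} (a : Bool) (t : T k × Bool × T k) :
    t ∈ Tr (cls (k + 1) [a]) ↔ t = (1, a, 1) := by
  rw [mem_Tr_cls]
  constructor
  · rintro ⟨X1, b, X2, h, rfl⟩
    cases X1 with
    | nil =>
      simp only [List.nil_append, List.cons.injEq] at h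
      obtain ⟨rfl, rfl⟩ := h
      rfl
    | cons c X1 => simp at h
  · rintro rfl
    exact ⟨[], a, [], rfl, rfl⟩

lemma mem_Tr_one {k : ℕ} (t : T k × Bool × T k) : ¬ t ∈ Tr (1 : T (k + 1)) := by
  rw [← cls_nil, mem_Tr_cls]
  rintro ⟨X1, a, X2, h, -⟩
  simp at h

/-- triples of a product `x * [a] * y` -/
lemma mem_Tr_mul3 {k : ℕ} (x y : T (k + 1)) (a : Bool) (t : T k × Bool × T k) :
    t ∈ Tr (x * cls (k + 1) [a] * y) ↔
      (∃ r ∈ Tr x, t = (r.1, r.2.1, r.2.2 * cls k [a] * pr k y)) ∨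
      t = (pr k x, a, pr k y) ∨
      (∃ r ∈ Tr y, t = (pr k x * cls k [a] * r.1, r.2.1, r.2.2)) := by
  rw [mem_Tr_mul]
  constructor
  · rintro (⟨r, hr, rfl⟩ | ⟨r, hr, rfl⟩)
    · rw [mem_Tr_mul] at hr
      rcases hr with ⟨r', hr', rfl⟩ | ⟨r', hr', rfl⟩
      · left
        exact ⟨r', hr', by simp [mul_assoc]⟩
      · right; left
        rw [mem_Tr_letter] at hr'
        rw [hr']
        simp
    · right; right
      exact ⟨r, hr, by simp⟩
  · rintro (⟨r, hr, rfl⟩ | rfl | ⟨r, hr, rfl⟩)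
    · left
      refine ⟨(r.1, r.2.1, r.2.2 * cls k [a]), ?_, rfl⟩
      rw [mem_Tr_mul]
      left
      exact ⟨r, hr, by simp⟩
    · left
      refine ⟨(pr k x, a, 1), ?_, by simp⟩
      rw [mem_Tr_mul]
      right
      refine ⟨(1, a, 1), (mem_Tr_letter a _).mpr rfl, by simp⟩
    · right
      exact ⟨r, hr, by simp⟩

/-- every triple of `x` multiplies to `pr x` -/
lemma mul_of_mem_Tr {k : ℕ} {x : T (k + 1)} {t : T k × Bool × T k} (h : t ∈ Tr x) :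
    t.1 * cls k [t.2.1] * t.2.2 = pr k x := by
  obtain ⟨X1, a, X2, rfl, rfl⟩ := h
  change cls k X1 * cls k [a] * cls k X2 = _
  rw [pr_cls, cls_append, cls_cons k a X2, mul_assoc]

lemma mem_Tr_pow {k : ℕ} (x : T (k + 1)) (n : ℕ) (t : T k × Bool × T k) :
    t ∈ Tr (x ^ n) ↔ ∃ i j : ℕ, i + 1 + j = n ∧ ∃ r ∈ Tr x,
      t = (pr k x ^ i * r.1, r.2.1, r.2.2 * pr k x ^ j) := by
  induction n generalizing t with
  | zero =>
    constructor
    · intro h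
      rw [pow_zero] at h
      exact absurd h (mem_Tr_one t)
    · rintro ⟨i, j, h, _⟩
      omega
  | succ n ih =>
    rw [pow_succ, mem_Tr_mul]
    constructor
    · rintro (⟨r, hr, rfl⟩ | ⟨r, hr, rfl⟩)
      · rw [ih] at hr
        obtain ⟨i, j, hij, r', hr', rfl⟩ := hr
        refine ⟨i, j + 1, by omega, r', hr', ?_⟩
        simp [pow_succ, mul_assoc]
      · exact ⟨n, 0, by omega, r, hr, by simp⟩
    · rintro ⟨i, j, hij, r, hr, rfl⟩
      rcases j with _ | j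
      · right
        have : i = n := by omega
        subst this
        exact ⟨r, hr, by simp⟩
      · left
        refine ⟨(pr k x ^ i * r.1, r.2.1, r.2.2 * pr k x ^ j), ?_, ?_⟩
        · rw [ih]
          exact ⟨i, j, by omega, r, hr, rfl⟩
        · simp [pow_succ, mul_assoc]

/-- aperiodicity -/
lemma exists_pow_eq (k : ℕ) : ∃ N : ℕ, ∀ n, N ≤ n → ∀ x : T k, x ^ n = x ^ (n + 1) := by
  induction k with
  | zero =>
    refine ⟨0, fun n _ x => ?_⟩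
    obtain ⟨X, hX⟩ := cls_surj (x ^ n)
    obtain ⟨Y, hY⟩ := cls_surj (x ^ (n + 1))
    rw [← hX, ← hY, cls_eq_iff]
    trivial
  | succ k ih =>
    obtain ⟨N, hN⟩ := ih
    refine ⟨2 * N + 1, fun n hn x => ?_⟩
    apply Tr_injective
    ext t
    rw [mem_Tr_pow, mem_Tr_pow]
    constructor
    · rintro ⟨i, j, hij, r, hr, rfl⟩
      by_cases hi : N ≤ i
      · refine ⟨i + 1, j, by omega, r, hr, ?_⟩
        rw [hN i hi]
      · refine ⟨i, j + 1, by omega, r, hr, ?_⟩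
        rw [hN j (by omega)]
    · rintro ⟨i, j, hij, r, hr, rfl⟩
      by_cases hi : N + 1 ≤ i
      · obtain ⟨i', rfl⟩ : ∃ i', i = i' + 1 := ⟨i - 1, by omega⟩
        refine ⟨i', j, by omega, r, hr, ?_⟩
        rw [hN i' (by omega)]
      · obtain ⟨j', rfl⟩ : ∃ j', j = j' + 1 := ⟨j - 1, by omega⟩
        refine ⟨i, j', by omega, r, hr, ?_⟩
        rw [hN j' (by omega)]

/-- `T k` is aperiodic -/
lemma aperiodic (k : ℕ) : ∃ N : ℕ, ∀ x : T k, x ^ N = x ^ (N + 1) := by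
  obtain ⟨N, hN⟩ := exists_pow_eq k
  exact ⟨N, hN N le_rfl⟩

end Pool.Agent.Work.MP_44611a_co
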