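import Pool.Agent.Work.MP_44611a_co.Typed

set_option autoImplicit false
set_option linter.all false

/-! The typed structure of a finite word. -/

namespace Pool.Agent.Work.MP_44611a_co

/-- letters strictly between positions `i` and `j` (positions are `0, 1, ..., N, N+1`, the letters
sit at `1, ..., N`). -/
def slice (w : List Bool) (i j : ℕ) : List Bool := (w.drop i).take (j - 1 - i)

/-- colour at a position -/
def colAt (w : List Bool) (i : ℕ) : Bool := if i = 0 then false else w.getD (i - 1) false

lemma slice_split (w : List Bool) {i m j : ℕ} (h1 : i < m) (h2 : m < j) (h3 : j ≤ w.length + 1) :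
    slice w i j = slice w i m ++ [colAt w m] ++ slice w m j := by
  unfold slice colAt
  have hm : m ≠ 0 := by omega
  rw [if_neg hm]
  have hmlen : m - 1 < w.length := by omega
  have e1 : w.drop i = (w.drop i).take (m - 1 - i) ++ w.drop (m - 1) := by
    conv_lhs => rw [← List.take_append_drop (m - 1 - i) (w.drop i)]
    rw [List.drop_drop]
    congr 2
    omega
  have e2 : w.drop (m - 1) = w[m-1] :: w.drop m := by
    rw [List.drop_eq_getElem_cons hmlen]
    congr 2
    omega
  have e3 : w.getD (m - 1) false = w[m-1] := by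
    rw [List.getD_eq_getElem?_getD, List.getElem?_eq_getElem hmlen]
    rfl
  have hl : ((w.drop i).take (m - 1 - i)).length = m - 1 - i := by
    rw [List.length_take, List.length_drop]
    omega
  conv_lhs => rw [e1, e2]
  rw [List.take_append, hl, List.take_of_length_le (by rw [hl]; omega)]
  rw [show j - 1 - i - (m - 1 - i) = (j - 1 - m) + 1 by omega, List.take_succ_cons, e3]
  simp

lemma slice_length (w : List Bool) {i j : ℕ} (h3 : j ≤ w.length + 1) :
    (slice w i j).length = j - 1 - i := by
  unfold slice
  rw [List.length_take, List.length_drop]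
  omega

lemma slice_eq_of_append (w : List Bool) {i j : ℕ} (h3 : j ≤ w.length + 1) {X1 : List Bool}
    {a : Bool} {X2 : List Bool} (h : slice w i j = X1 ++ a :: X2) :
    i < i + 1 + X1.length ∧ i + 1 + X1.length < j ∧ slice w i (i + 1 + X1.length) = X1 ∧
      colAt w (i + 1 + X1.length) = a ∧ slice w (i + 1 + X1.length) j = X2 := by
  have hlen := congrArg List.length h
  rw [slice_length w h3] at hlen
  simp only [List.length_append, List.length_cons] at hlen
  have h1 : i < i + 1 + X1.length := by omega
  have h2 : i + 1 + X1.length < j := by omega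
  refine ⟨h1, h2, ?_⟩
  have hs := slice_split w h1 h2 h3
  rw [h, List.append_assoc] at hs
  have hl1 : (slice w i (i + 1 + X1.length)).length = X1.length := by
    rw [slice_length w (by omega)]; omega
  have := List.append_inj hs hl1.symm
  obtain ⟨g1, g2⟩ := this
  simp only [List.cons_append, List.nil_append, List.cons.injEq] at g2
  exact ⟨g1.symm, g2.1.symm, g2.2.symm⟩

/-- type of the open interval between two positions -/
def tauW (w : List Bool) (k i j : ℕ) : T k := cls k (slice w i j)

lemma tauW_T0 (w : List Bool) (k i j : ℕ) : pr k (tauW w (k + 1) i j) = tauW w k i j := rfl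

lemma tauW_T1 (w : List Bool) (k : ℕ) {i m j : ℕ} (h1 : i < m) (h2 : m < j)
    (h3 : j ≤ w.length + 1) :
    tauW w k i j = tauW w k i m * cls k [colAt w m] * tauW w k m j := by
  unfold tauW
  rw [slice_split w h1 h2 h3, cls_append, cls_append]

lemma tauW_T2 (w : List Bool) (k : ℕ) {i j : ℕ} (h3 : j ≤ w.length + 1)
    (t : T k × Bool × T k) (ht : t ∈ Tr (tauW w (k + 1) i j)) :
    ∃ m, i < m ∧ m < j ∧ t = (tauW w k i m, colAt w m, tauW w k m j) := by
  unfold tauW at ht
  rw [mem_Tr_cls] at ht
  obtain ⟨X1, a, X2, h, rfl⟩ := ht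
  obtain ⟨h1, h2, e1, e2, e3⟩ := slice_eq_of_append w h3 h
  refine ⟨_, h1, h2, ?_⟩
  unfold tauW
  rw [e1, e2, e3]

lemma tauW_mem_Tr (w : List Bool) (k : ℕ) {i m j : ℕ} (h1 : i < m) (h2 : m < j)
    (h3 : j ≤ w.length + 1) :
    (tauW w k i m, colAt w m, tauW w k m j) ∈ Tr (tauW w (k + 1) i j) := by
  rw [tauW_T1 w (k+1) h1 h2 h3, mem_Tr_mul3]
  right; left
  rfl

/-- The typed structure of a word. -/
def TSw (w : List Bool) : TS (Fin (w.length + 2)) where
  col i := colAt w i.1
  tau k i j := tauW w k i.1 j.1
  bot_lt_top := by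
    change (0 : ℕ) < w.length + 1
    omega
  T0 k u v _ := rfl
  T1 k u m v h1 h2 := by
    have := v.2
    exact tauW_T1 w k h1 h2 (by omega)
  T2 k u v _ t ht := by
    have := v.2
    obtain ⟨m, h1, h2, h3⟩ := tauW_T2 w k (by omega) t ht
    exact ⟨⟨m, by omega⟩, h1, h2, h3⟩

section mk

variable (L : FirstOrder.Language.{0, 0}) (hfun : ∀ n, IsEmpty (L.Functions n))

/-- the `L`-structure on the points of a typed structure -/
@[reducible] def mkStr {E : Type} [LinearOrder E] [BoundedOrder E] (S : TS E) : L.Structure (Pt E) where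
  funMap := fun f _ => ((hfun _).false f).elim
  RelMap := fun {n} _ xs => (∃ h : n = 1, S.col (xs ⟨0, by omega⟩).1 = true) ∨
    (∃ h : n = 2, xs ⟨0, by omega⟩ < xs ⟨1, by omega⟩)

lemma mkStr_compat {E : Type} [LinearOrder E] [BoundedOrder E] (S : TS E)
    (lt : L.Relations 2) (col : L.Relations 1) :
    @Compat L lt col E _ _ S (mkStr L hfun S) := by
  constructor
  · intro x y
    change (_ ∨ _) ↔ _
    constructor
    · rintro (⟨h, _⟩ | ⟨_, h⟩)
      · omega
      · exact h
    · intro h
      exact Or.inr ⟨rfl, h⟩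
  · intro x
    change (_ ∨ _) ↔ _
    constructor
    · rintro (⟨_, h⟩ | ⟨h, _⟩)
      · exact h
      · omega
    · intro h
      exact Or.inl ⟨rfl, h⟩

end mk

end Pool.Agent.Work.MP_44611a_co
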